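import Pool.Agent.Lib.MP_c2d01e_co.Four.Fin41
import Pool.Agent.Lib.MP_c2d01e_co.Dce.Final

/-!
# The vectors `(2,0,0,0)`, `(2,2,0,0)`, `(3,0,0,0)`
-/

set_option autoImplicit false
set_option maxRecDepth 100000

namespace Pool.Agent.Lib.MP_c2d01e_co.Four

open Pool.Agent.Lib.MP_c2d01e_co.Dce (getT TW F4t EE Z4 s1 w1 lin wdl WD om fl cx)

variable {G : Type*} [Group G] {p : ℕ → G}

/-- the common relations, letters `0, …, 5` -/
structure Rel0 (p : ℕ → G) : Prop extends F4t p where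
  sq0 : p 0 * p 0 = 1
  comm0 : ∀ i, 2 ≤ i → i ≤ 5 → p 0 * p i = p i * p 0
  braid0 : (p 0 * p 1) ^ 3 = 1

/-- `ρ1 σ τ σ` -/
def wA : List ℕ := [1, 2, 3, 4, 3, 2, 5, 4, 3, 4, 5, 2, 3, 4, 3, 2]

/-- `ρ1 σ τ` -/
def wB : List ℕ := [1, 2, 3, 4, 3, 2, 5, 4, 3, 4, 5]

theorem rel41_of_four (h : Rel0 p) (he : Dce.lp p wA ^ 4 = 1) : Rel41 p :=
  { h with ext := by rw [lp_pow] at he; exact he }

theorem rel41_of_two (h : Rel0 p) (he : Dce.lp p wA ^ 2 = 1) : Rel41 p :=
  rel41_of_four h (by rw [show (4 : ℕ) = 2 * 2 from rfl, pow_mul, he, one_pow])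

theorem rel41_of_twotwo (h : Rel0 p) (he : Dce.lp p wB ^ 4 = 1) : Rel41 p := by
  have F := h.toF4t
  have k := kill_of_ext22 F (by rw [lp_pow] at he; exact he)
  refine { h with ext := ?_ }
  have h1 := W.prod_nf F ext41 (by decide) 0 (by norm_num) 0
  have h2 : fl TW ext41 0 = 0 := by decide +kernel
  have h3 : ext41.foldl (fun v g => W.stp g v) (0 : Z4) = (-8, 4, 4, 4) := by decide +kernel
  rw [h2, h3, Dce.om_zero', Dce.EE_zero, one_mul, one_mul, one_mul, k.k1] at h1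
  exact h1

theorem rel33_of_threethree (h : Rel0 p) (he : Dce.lp p wB ^ 6 = 1) : Dce.Rel33 p :=
  { h with ext := by rw [lp_pow] at he; exact he }

theorem rel33_of_three (h : Rel0 p) (he : Dce.lp p wA ^ 3 = 1) : Dce.Rel33 p := by
  have F := h.toF4t
  have a0 : EE p (-6, 3, 3, 3) = 1 := by
    have h1 := W.prod_nf F (List.replicate 3 wA).flatten (by decide) 0 (by norm_num) 0
    have h2 : fl TW (List.replicate 3 wA).flatten 0 = 0 := by decide +kernel
    have h3 : (List.replicate 3 wA).flatten.foldl (fun v g => W.stp g v) (0 : Z4) =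
      (-6, 3, 3, 3) := by decide +kernel
    rw [lp_pow] at he
    rw [he, h2, h3, Dce.om_zero', Dce.EE_zero, one_mul, one_mul, one_mul] at h1
    exact h1.symm
  have a1 : EE p (6, -3, -3, -3) = 1 := by
    have := Dce.EE_neg F (-6, 3, 3, 3)
    rw [a0, inv_one] at this
    exact this
  have b0 : EE p (3, 0, 0, 0) = 1 := W.EE_orbit F a1 (w := 1) (by norm_num) (by decide +kernel)
  have b2 : EE p (0, 0, 3, 0) = 1 := W.EE_orbit F a1 (w := 97) (by norm_num) (by decide +kernel)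
  have b3 : EE p (0, 0, 0, 3) = 1 := W.EE_orbit F a1 (w := 148) (by norm_num) (by decide +kernel)
  have b : EE p (-6, 0, 3, 3) = 1 := by
    have e : ((-6, 0, 3, 3) : Z4) = (-2 : ℤ) • ((3, 0, 0, 0) : Z4) + ((0, 0, 3, 0) + (0, 0, 0, 3)) := by
      decide
    rw [e, Dce.EE_add F, Dce.EE_add F, Dce.EE_zsmul F, b0, b2, b3]
    simp
  refine { h with ext := ?_ }
  have h1 := W.prod_nf F Dce.ext33 (by decide) 0 (by norm_num) 0
  have h2 : fl TW Dce.ext33 0 = 0 := by decide +kernel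
  have h3 : Dce.ext33.foldl (fun v g => W.stp g v) (0 : Z4) = (-6, 0, 3, 3) := by decide +kernel
  rw [h2, h3, Dce.om_zero', Dce.EE_zero, one_mul, one_mul, one_mul, b] at h1
  exact h1

end Pool.Agent.Lib.MP_c2d01e_co.Four
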