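import Pool.Agent.Lib.MP_c2d01e_co.Four.Dat

/-!
# The checker
-/

set_option autoImplicit false
set_option linter.all false

namespace Pool.Agent.Lib.MP_c2d01e_co.Four

/-- multiplication of the state `F` with the element of `P` with table `tb` -/
noncomputable def pst (tb : Nat → Nat) (F : Nat) : Nat :=
  Nat.add (Nat.sub F (Nat.mod F 2097152))
    (Nat.land (Nat.add (Nat.sub (Nat.mod F 2097152) (Nat.mod F 2048)) (tb (Nat.mod F 2048))) 712703)

/-- use of the edge `r` -/
noncomputable def zf (r F : Nat) : Nat :=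
  ck (Nat.beq (Nat.div r 4294967296) (Nat.div F 2048))
    (Nat.add (Nat.sub (Nat.mod r 4294967296) (Nat.mod r 2048)) (mul (Nat.mod r 2048) (Nat.mod F 2048)))

/-- use of the edge `r` backwards -/
noncomputable def zb (r F : Nat) : Nat :=
  ck (Nat.beq (Nat.div (Nat.mod r 4294967296) 2048) (Nat.div F 2048))
    (Nat.add (Nat.mul 2048 (Nat.div r 4294967296)) (mul (IVf (Nat.mod r 2048)) (Nat.mod F 2048)))

noncomputable def zst (er F : Nat) : Nat :=
  ite' (Nat.beq (Nat.mod er 2) 1) (zb (ETf (Nat.div er 2)) F) (zf (ETf (Nat.div er 2)) F)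

/-- the state `s F` -/
noncomputable def sm (s F : Nat) : Nat :=
  Nat.add (Nat.mul 2097152 (Nat.div s 2097152)) (Nat.add (Nat.mul 2048 (add (Nat.mod (Nat.div s 2048) 1024)
    (act (Nat.mod s 2048) (Nat.mod (Nat.div F 2048) 1024)))) (mul (Nat.mod s 2048) (Nat.mod F 2048)))

noncomputable def sf (s F : Nat) : Nat :=
  ck (Nat.beq (Nat.div s 2097152) (Nat.div F 2097152)) (sm s F)

noncomputable def sst (m sr F : Nat) : Nat :=
  ite' (Nat.beq sr 0) F (ck (Nat.ble sr m) (sf (STf (Nat.sub sr 1)) F))

/-- an optional stabilizer element and an edge, `d = sr + 8192 er`; bounds: `er < n`, `sr ≤ m` -/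
noncomputable def stp (n m d F : Nat) : Nat :=
  ck (Nat.ble (Nat.succ (Nat.mod (Nat.div d 8192) 131072)) n)
    (zst (Nat.mod (Nat.div d 8192) 131072) (sst m (Nat.mod d 8192) F))

/-- a well formed state -/
noncomputable def okF (F : Nat) : Bool :=
  cnd (Nat.beq (Nat.land (Nat.mod (Nat.div F 2048) 1024) 347) (Nat.mod (Nat.div F 2048) 1024))
    (Nat.ble (Nat.succ (Nat.mod F 2048)) 1152)

/-- start state of a line -/
noncomputable def eSt (r d : Nat) : Nat := Nat.add (Nat.mul 2048 (Nat.div r 4294967296)) (Nat.mod d 2048)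

/-- end of a line for the edge `r` -/
noncomputable def eFin (r d F : Nat) : Bool :=
  cnd (okF (Nat.mod r 4294967296)) (cnd (okF (eSt r d)) (Nat.beq F
    (Nat.add (Nat.sub (Nat.mod r 4294967296) (Nat.mod r 2048)) (mul (Nat.mod r 2048) (Nat.mod d 2048)))))

/-- new edge `r` by a relator `(p z)^4` -/
noncomputable def e4 (tb : Nat → Nat) (n m r d : Nat) : Bool :=
  eFin r d (pst tb (stp n m (Nat.div d 2361183241434822606848) (pst tb (stp n m (Nat.div d 2199023255552)
    (pst tb (stp n m (Nat.div d 2048) (pst tb (eSt r d))))))))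

/-- new edge `r` by a relator `(p z)^8` -/
noncomputable def e8 (tb : Nat → Nat) (n m r d : Nat) : Bool :=
  eFin r d (pst tb (stp n m (Nat.div d 3138550867693340381917894711603833208051177722232017256448) (pst tb (stp n m (Nat.div d 2923003274661805836407369665432566039311865085952) (pst tb (stp n m (Nat.div d 2722258935367507707706996859454145691648)
    (pst tb (stp n m (Nat.div d 2535301200456458802993406410752) (pst tb (stp n m (Nat.div d 2361183241434822606848)
      (pst tb (stp n m (Nat.div d 2199023255552) (pst tb (stp n m (Nat.div d 2048)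
        (pst tb (eSt r d))))))))))))))))

/-- `k` edges with numbers from `n` on; `L` is the list of lines -/
noncomputable def runE (m k : Nat) : Nat → Nat → Bool :=
  Nat.rec (motive := fun _ => Nat → Nat → Bool) (fun _ _ => true) (fun _ ih n L =>
    iteb (Nat.beq (Nat.mod L 4) 0)
      (cnd (e4 PAf (Nat.mul 2 n) m (ETf n) (Nat.div L 4)) (ih (Nat.succ n) (Nat.div L 10141204801825835211973625643008)))
      (iteb (Nat.beq (Nat.mod L 4) 1)
        (cnd (e4 PBf (Nat.mul 2 n) m (ETf n) (Nat.div L 4)) (ih (Nat.succ n) (Nat.div L 10141204801825835211973625643008)))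
        (cnd (e8 PCf (Nat.mul 2 n) m (ETf n) (Nat.div L 4)) (ih (Nat.succ n) (Nat.div L 13479973333575319897333507543509815336818572211270286240551805124608))))) k

/-- start state for a stabilizer element `s` -/
noncomputable def sSt (s d : Nat) : Nat := Nat.add (Nat.sub s (Nat.mod s 2097152)) (Nat.mod d 2097152)

noncomputable def sFin (s d F : Nat) : Bool :=
  cnd (okF s) (cnd (okF (sSt s d)) (Nat.beq F (sm s (sSt s d))))

/-- stabilizer element by two looks -/
noncomputable def s2 (n m s d : Nat) : Bool :=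
  sFin s d (stp n m (Nat.div d 2251799813685248) (stp n m (Nat.div d 2097152) (sSt s d)))

/-- stabilizer element by a relator `(z p)^4` -/
noncomputable def s4 (tb : Nat → Nat) (n m s d : Nat) : Bool :=
  sFin s d (pst tb (stp n m (Nat.div d 2596148429267413814265248164610048) (pst tb (stp n m (Nat.div d 2417851639229258349412352)
    (pst tb (stp n m (Nat.div d 2251799813685248) (pst tb (stp n m (Nat.div d 2097152) (sSt s d)))))))))

/-- stabilizer element as a product -/
noncomputable def sP (m s a b : Nat) : Bool :=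
  cnd (Nat.ble (Nat.succ a) m) (cnd (Nat.ble (Nat.succ b) m) (Nat.beq (sf (STf a) (STf b)) s))

/-- `k` stabilizer elements with numbers from `m` on -/
noncomputable def runS (n k : Nat) : Nat → Nat → Bool :=
  Nat.rec (motive := fun _ => Nat → Nat → Bool) (fun _ _ => true) (fun _ ih m L =>
    iteb (Nat.beq (Nat.mod L 4) 0)
      (cnd (sP m (STf m) (Nat.mod (Nat.div L 4) 8192) (Nat.mod (Nat.div L 32768) 8192)) (ih (Nat.succ m) (Nat.div L 268435456)))
      (iteb (Nat.beq (Nat.mod L 4) 1)
        (cnd (s2 n m (STf m) (Nat.div L 4)) (ih (Nat.succ m) (Nat.div L 9671406556917033397649408)))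
        (iteb (Nat.beq (Nat.mod L 4) 2)
          (cnd (s4 PAf n m (STf m) (Nat.div L 4)) (ih (Nat.succ m) (Nat.div L 11150372599265311570767859136324180752990208)))
          (cnd (s4 PBf n m (STf m) (Nat.div L 4)) (ih (Nat.succ m) (Nat.div L 11150372599265311570767859136324180752990208)))))) k

/-- definitions of vertices -/
noncomputable def runD (k : Nat) : Nat → Bool :=
  Nat.rec (motive := fun _ => Nat → Bool) (fun _ => true) (fun _ ih n =>
    cnd (Nat.beq (Nat.mod (ETf n) 4294967296) (Nat.mul 2097152 (Nat.succ n)))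
      (cnd (Nat.ble (Nat.div (ETf n) 4398046511104) n)
        (cnd (Nat.beq (Nat.land (Nat.mod (Nat.div (ETf n) 4294967296) 1024) 347) (Nat.mod (Nat.div (ETf n) 4294967296) 1024))
          (ih (Nat.succ n))))) k

end Pool.Agent.Lib.MP_c2d01e_co.Four
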