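import Mathlib
import Pool.Agent.Lib.MP_c2d01e_co.Four.VM

/-!
# Soundness of the checker
-/

set_option autoImplicit false
set_option linter.all false

namespace Pool.Agent.Lib.MP_c2d01e_co.Four

/-- codes of translations -/
def okT (t : ℕ) : Prop := Nat.land t 347 = t

/-- codes of states -/
def okS (F : ℕ) : Prop := okT (F / 2048 % 1024) ∧ F % 2048 < 1152

theorem okT_lt {t : ℕ} (h : okT t) : t < 348 := by
  unfold okT at h
  have h2 : Nat.land t 347 ≤ 347 := Nat.and_le_right
  omega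

theorem okT_land (x : ℕ) : okT (Nat.land x 347) := by
  unfold okT
  change (x &&& 347) &&& 347 = x &&& 347
  rw [Nat.and_assoc, Nat.and_self]

theorem okT_add (x y : ℕ) : okT (add x y) := okT_land _

theorem okT_zero : okT 0 := by
  unfold okT
  decide

/-- The semantic side: elements of a group satisfying the relations. -/
structure Sem (G : Type*) [Group G] where
  z : G
  om : ℕ → G
  E : ℕ → G
  pA : G
  pB : G
  pC : G
  zz : z * z = 1
  zom : ∀ w, w < 1152 → z * om w = om w * z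
  om0 : om 0 = 1
  E0 : E 0 = 1
  mul_lt : ∀ a b, a < 1152 → b < 1152 → mul a b < 1152
  mul_spec : ∀ a b, a < 1152 → b < 1152 → om (mul a b) = om a * om b
  add_spec : ∀ x y, okT x → okT y → E (add x y) = E x * E y
  act_spec : ∀ w t, w < 1152 → okT t → om w * E t = E (act w t) * om w
  iv_lt : ∀ w, w < 1152 → IVf w < 1152
  iv_spec : ∀ w, w < 1152 → om (IVf w) * om w = 1
  PA_ok : ∀ w, w < 1152 → okT (PAf w / 2048) ∧ PAf w % 2048 < 1152
  PB_ok : ∀ w, w < 1152 → okT (PBf w / 2048) ∧ PBf w % 2048 < 1152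
  PC_ok : ∀ w, w < 1152 → okT (PCf w / 2048) ∧ PCf w % 2048 < 1152
  PA_spec : ∀ w, w < 1152 → om w * pA = E (PAf w / 2048) * om (PAf w % 2048)
  PB_spec : ∀ w, w < 1152 → om w * pB = E (PBf w / 2048) * om (PBf w % 2048)
  PC_spec : ∀ w, w < 1152 → om w * pC = E (PCf w / 2048) * om (PCf w % 2048)
  relA : pA * z * pA * z * pA * z * pA = z
  relB : pB * z * pB * z * pB * z * pB = z
  relC : pC * z * pC * z * pC * z * pC * z * pC * z * pC * z * pC * z * pC = z

theorem okT_act (w t : ℕ) : okT (act w t) := okT_add _ _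

theorem land_bits (a w : ℕ) (hw : w < 2048) :
    Nat.land (a * 2048 + w) 712703 = Nat.land a 347 * 2048 + w := by
  change (a * 2048 + w) &&& 712703 = (a &&& 347) * 2048 + w
  have h1 : ((a * 2048 + w) &&& 712703) / 2 ^ 11 = a &&& 347 := by
    rw [Nat.and_div_two_pow]
    have e1 : (a * 2048 + w) / 2 ^ 11 = a := by omega
    have e2 : 712703 / 2 ^ 11 = 347 := by norm_num
    rw [e1, e2]
  have h2 : ((a * 2048 + w) &&& 712703) % 2 ^ 11 = w := by
    rw [Nat.and_mod_two_pow]
    have e1 : (a * 2048 + w) % 2 ^ 11 = w := by omega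
    have e2 : 712703 % 2 ^ 11 = 2 ^ 11 - 1 := by norm_num
    rw [e1, e2, Nat.and_two_pow_sub_one_eq_mod]
    omega
  omega

namespace Sem

variable {G : Type*} [Group G] (S : Sem G)

/-- representatives of the vertices -/
noncomputable def g : ℕ → G
  | 0 => 1
  | v + 1 => if h : ETf v / 4398046511104 ≤ v then
      g (ETf v / 4398046511104) * S.E (ETf v / 4294967296 % 1024) * S.z else 1
termination_by v => v
decreasing_by omega

theorem g_zero : S.g 0 = 1 := by rw [g]

/-- the conjugate of `z` -/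
def cc (x : G) : G := x⁻¹ * S.z * x

theorem cc_mul (x y : G) : S.cc (x * y) = y⁻¹ * S.cc x * y := by
  unfold cc; group

theorem cc_mul_congr {x y : G} (h : S.cc x = S.cc y) (u : G) : S.cc (x * u) = S.cc (y * u) := by
  rw [cc_mul, cc_mul, h]

theorem cc_cancel {x y : G} (u : G) (h : S.cc (x * u) = S.cc (y * u)) : S.cc x = S.cc y := by
  have := S.cc_mul_congr h u⁻¹
  simpa using this

/-- the group element of a state -/
noncomputable def pos (F : ℕ) : G :=
  S.g (F / 2097152) * S.E (F / 2048 % 1024) * S.om (F % 2048)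

/-- the state `F` is fine and is equivalent to `x` -/
def R (F : ℕ) (x : G) : Prop := F < 1152921504606846976 → okS F ∧ S.cc (S.pos F) = S.cc x

/-- the meaning of edge `n` -/
def HE (n : ℕ) : Prop :=
  okT (ETf n / 4294967296 % 1024) ∧ okS (ETf n % 4294967296) ∧
    S.cc (S.g (ETf n / 4398046511104) * S.E (ETf n / 4294967296 % 1024) * S.z) =
      S.cc (S.pos (ETf n % 4294967296))

/-- the meaning of stabilizer element `n` -/
def HS (n : ℕ) : Prop :=
  okS (STf n) ∧ S.cc (S.pos (STf n)) = S.cc (S.g (STf n / 2097152))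

/-- the table `tb` describes the multiplication by `p` -/
def HP (tb : ℕ → ℕ) (p : G) : Prop :=
  ∀ w, w < 1152 → okT (tb w / 2048) ∧ tb w % 2048 < 1152 ∧
    S.om w * p = S.E (tb w / 2048) * S.om (tb w % 2048)

theorem HPA : S.HP PAf S.pA := fun w hw => ⟨(S.PA_ok w hw).1, (S.PA_ok w hw).2, S.PA_spec w hw⟩
theorem HPB : S.HP PBf S.pB := fun w hw => ⟨(S.PB_ok w hw).1, (S.PB_ok w hw).2, S.PB_spec w hw⟩
theorem HPC : S.HP PCf S.pC := fun w hw => ⟨(S.PC_ok w hw).1, (S.PC_ok w hw).2, S.PC_spec w hw⟩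

/-- decomposition of a state -/
theorem split (i t w : ℕ) (ht : okT t) (hw : w < 2048) :
    (2097152 * i + (2048 * t + w)) / 2097152 = i ∧
      (2097152 * i + (2048 * t + w)) / 2048 % 1024 = t ∧
        (2097152 * i + (2048 * t + w)) % 2048 = w := by
  have := okT_lt ht
  refine ⟨?_, ?_, ?_⟩ <;> omega

theorem pst_R {tb : ℕ → ℕ} {p : G} (hp : S.HP tb p) {F : ℕ} {x : G} (h : S.R F x) :
    S.R (pst tb F) (x * p) := by
  intro hF
  have hle : F - F % 2097152 ≤ pst tb F := by
    change _ ≤ (F - F % 2097152) + _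
    exact Nat.le_add_right _ _
  have hF' : F < 1152921504606846976 := by omega
  obtain ⟨hok, hc⟩ := h hF'
  obtain ⟨ht, hw⟩ := hok
  obtain ⟨h1, h2, h3⟩ := hp _ hw
  have hx := okT_lt h1
  have htt := okT_lt ht
  -- the new value
  have e1 : pst tb F = 2097152 * (F / 2097152) +
      (2048 * add (F / 2048 % 1024) (tb (F % 2048) / 2048) + tb (F % 2048) % 2048) := by
    change (F - F % 2097152) + Nat.land ((F % 2097152 - F % 2048) + tb (F % 2048)) 712703 = _
    have e2 : (F % 2097152 - F % 2048) + tb (F % 2048) =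
        (F / 2048 % 1024 + tb (F % 2048) / 2048) * 2048 + tb (F % 2048) % 2048 := by
      omega
    rw [e2, land_bits _ _ (Nat.mod_lt _ (by norm_num))]
    change _ = 2097152 * (F / 2097152) +
      (2048 * Nat.land (F / 2048 % 1024 + tb (F % 2048) / 2048) 347 + tb (F % 2048) % 2048)
    omega
  obtain ⟨q1, q2, q3⟩ := split (F / 2097152) (add (F / 2048 % 1024) (tb (F % 2048) / 2048))
    (tb (F % 2048) % 2048) (okT_add _ _) (by omega)
  rw [← e1] at q1 q2 q3
  refine ⟨⟨?_, ?_⟩, ?_⟩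
  · rw [q2]; exact okT_add _ _
  · rw [q3]; exact h2
  · have e3 : S.pos (pst tb F) = S.pos F * p := by
      unfold pos
      rw [q1, q2, q3, S.add_spec _ _ ht h1]
      simp only [mul_assoc]
      rw [h3]
    rw [e3]
    exact S.cc_mul_congr hc p

end Sem

theorem ck_lt {b : Bool} {t : ℕ} (h : ck b t < 1152921504606846976) :
    b = true ∧ ck b t = t := by
  cases b
  · exact absurd h (lt_irrefl _)
  · exact ⟨rfl, rfl⟩

theorem cnd_eq {b t : Bool} (h : cnd b t = true) : b = true ∧ t = true := by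
  cases b
  · exact absurd h (by change ¬ (false = true); decide)
  · exact ⟨rfl, h⟩

theorem cnd_intro {b t : Bool} (h : b = true) (h' : t = true) : cnd b t = true := by
  subst h; exact h'

namespace Sem

variable {G : Type*} [Group G] (S : Sem G)

theorem zf_R {r F : ℕ} {x : G} (hr : r < 9007199254740992)
    (hr1 : okT (r / 4294967296 % 1024)) (hr2 : okS (r % 4294967296))
    (hr3 : S.cc (S.g (r / 4398046511104) * S.E (r / 4294967296 % 1024) * S.z) =
      S.cc (S.pos (r % 4294967296))) (h : S.R F x) :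
    S.R (zf r F) (x * S.z) := by
  intro hF
  obtain ⟨hb, he⟩ := ck_lt hF
  have hb' : r / 4294967296 = F / 2048 := Nat.eq_of_beq_eq_true hb
  have hFv : zf r F = (r % 4294967296 - r % 2048) + mul (r % 2048) (F % 2048) := he
  have hF' : F < 1152921504606846976 := by omega
  obtain ⟨⟨ht, hw⟩, hc⟩ := h hF'
  obtain ⟨hr2t, hr2w⟩ := hr2
  have hw2 : r % 4294967296 % 2048 = r % 2048 := by omega
  have hm := S.mul_lt (r % 2048) (F % 2048) (by omega) hw
  have hs := S.mul_spec (r % 2048) (F % 2048) (by omega) hw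
  have hlt := okT_lt hr2t
  have e1 : zf r F = 2097152 * (r % 4294967296 / 2097152) +
      (2048 * (r % 4294967296 / 2048 % 1024) + mul (r % 2048) (F % 2048)) := by
    rw [hFv]; omega
  obtain ⟨q1, q2, q3⟩ := split (r % 4294967296 / 2097152) (r % 4294967296 / 2048 % 1024)
    (mul (r % 2048) (F % 2048)) hr2t (by omega)
  rw [← e1] at q1 q2 q3
  refine ⟨⟨by rw [q2]; exact hr2t, by rw [q3]; exact hm⟩, ?_⟩
  have e2 : S.pos (zf r F) = S.pos (r % 4294967296) * S.om (F % 2048) := by
    unfold pos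
    rw [q1, q2, q3, hs, hw2]
    simp only [mul_assoc]
  have e3 : S.pos F * S.z = S.g (r / 4398046511104) * S.E (r / 4294967296 % 1024) * S.z *
      S.om (F % 2048) := by
    unfold pos
    have a1 : F / 2097152 = r / 4398046511104 := by omega
    have a2 : F / 2048 % 1024 = r / 4294967296 % 1024 := by omega
    rw [a1, a2]
    simp only [mul_assoc]
    rw [S.zom _ hw]
  rw [e2, S.cc_mul_congr hr3.symm, ← e3]
  exact S.cc_mul_congr hc S.z

theorem zb_R {r F : ℕ} {x : G} (hr : r < 9007199254740992)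
    (hr1 : okT (r / 4294967296 % 1024)) (hr2 : okS (r % 4294967296))
    (hr3 : S.cc (S.g (r / 4398046511104) * S.E (r / 4294967296 % 1024) * S.z) =
      S.cc (S.pos (r % 4294967296))) (h : S.R F x) :
    S.R (zb r F) (x * S.z) := by
  intro hF
  obtain ⟨hb, he⟩ := ck_lt hF
  have hb' : r % 4294967296 / 2048 = F / 2048 := Nat.eq_of_beq_eq_true hb
  have hFv : zb r F = 2048 * (r / 4294967296) + mul (IVf (r % 2048)) (F % 2048) := he
  have hF' : F < 1152921504606846976 := by omega
  obtain ⟨⟨ht, hw⟩, hc⟩ := h hF'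
  obtain ⟨hr2t, hr2w⟩ := hr2
  have hw2 : r % 4294967296 % 2048 = r % 2048 := by omega
  have hwr : r % 2048 < 1152 := by omega
  have hi := S.iv_lt _ hwr
  have his := S.iv_spec _ hwr
  have hm := S.mul_lt (IVf (r % 2048)) (F % 2048) hi hw
  have hs := S.mul_spec (IVf (r % 2048)) (F % 2048) hi hw
  have e1 : zb r F = 2097152 * (r / 4398046511104) +
      (2048 * (r / 4294967296 % 1024) + mul (IVf (r % 2048)) (F % 2048)) := by
    rw [hFv]; omega
  obtain ⟨q1, q2, q3⟩ := split (r / 4398046511104) (r / 4294967296 % 1024)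
    (mul (IVf (r % 2048)) (F % 2048)) hr1 (by omega)
  rw [← e1] at q1 q2 q3
  refine ⟨⟨by rw [q2]; exact hr1, by rw [q3]; exact hm⟩, ?_⟩
  have hinv : S.om (IVf (r % 2048)) = (S.om (r % 2048))⁻¹ := eq_inv_of_mul_eq_one_left his
  have hzi : S.z * (S.om (r % 2048))⁻¹ = (S.om (r % 2048))⁻¹ * S.z := by
    have h1 := S.zom _ hwr
    rw [eq_inv_mul_iff_mul_eq, ← mul_assoc, ← h1, mul_assoc, mul_inv_cancel, mul_one]
  -- the fact, moved
  have f1 : S.cc (S.g (r / 4398046511104) * S.E (r / 4294967296 % 1024) *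
        ((S.om (r % 2048))⁻¹ * S.om (F % 2048))) =
      S.cc (S.pos F * S.z) := by
    have f2 := S.cc_mul_congr hr3 ((S.om (r % 2048))⁻¹ * (S.z * S.om (F % 2048)))
    have l1 : S.g (r / 4398046511104) * S.E (r / 4294967296 % 1024) * S.z *
        ((S.om (r % 2048))⁻¹ * (S.z * S.om (F % 2048))) =
        S.g (r / 4398046511104) * S.E (r / 4294967296 % 1024) *
        ((S.om (r % 2048))⁻¹ * S.om (F % 2048)) := by
      have : S.z * ((S.om (r % 2048))⁻¹ * (S.z * S.om (F % 2048))) =
          (S.om (r % 2048))⁻¹ * S.om (F % 2048) := by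
        rw [← mul_assoc, hzi, mul_assoc, ← mul_assoc S.z S.z, S.zz, one_mul]
      rw [mul_assoc (S.g (r / 4398046511104) * S.E (r / 4294967296 % 1024)), this]
    rw [l1] at f2
    rw [f2]
    congr 1
    unfold pos
    have a1 : r % 4294967296 / 2097152 = F / 2097152 := by omega
    have a2 : r % 4294967296 / 2048 % 1024 = F / 2048 % 1024 := by omega
    rw [a1, a2, hw2]
    simp only [mul_assoc]
    rw [mul_inv_cancel_left, S.zom _ hw]
  have e2 : S.pos (zb r F) = S.g (r / 4398046511104) * S.E (r / 4294967296 % 1024) *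
        ((S.om (r % 2048))⁻¹ * S.om (F % 2048)) := by
    unfold pos
    rw [q1, q2, q3, hs, hinv]
  rw [e2, f1]
  exact S.cc_mul_congr hc S.z

theorem ETf_lt (n : ℕ) : ETf n < 9007199254740992 := Nat.mod_lt _ (by norm_num)

theorem STf_lt (n : ℕ) : STf n < 4294967296 := Nat.mod_lt _ (by norm_num)

theorem zst_R {er F : ℕ} {x : G} (he : S.HE (er / 2)) (h : S.R F x) :
    S.R (zst er F) (x * S.z) := by
  have hdef : zst er F = ite' (Nat.beq (er % 2) 1) (zb (ETf (er / 2)) F) (zf (ETf (er / 2)) F) := rfl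
  obtain ⟨h1, h2, h3⟩ := he
  rw [hdef]
  cases Nat.beq (er % 2) 1
  · exact S.zf_R (ETf_lt _) h1 h2 h3 h
  · exact S.zb_R (ETf_lt _) h1 h2 h3 h

/-- the product of a stabilizer element and a state -/
theorem sm_pos {s F : ℕ} (hs : okS s) (hF : okS F) (hi : s / 2097152 = F / 2097152)
    (hc : S.cc (S.pos s) = S.cc (S.g (s / 2097152))) :
    okS (sm s F) ∧ S.cc (S.pos (sm s F)) = S.cc (S.pos F) := by
  obtain ⟨hst, hsw⟩ := hs
  obtain ⟨ht, hw⟩ := hF
  have hdef : sm s F = 2097152 * (s / 2097152) + (2048 * (add (s / 2048 % 1024)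
    (act (s % 2048) (F / 2048 % 1024))) + mul (s % 2048) (F % 2048)) := rfl
  have hm := S.mul_lt _ _ hsw hw
  have hms := S.mul_spec _ _ hsw hw
  obtain ⟨q1, q2, q3⟩ := split (s / 2097152) (add (s / 2048 % 1024)
    (act (s % 2048) (F / 2048 % 1024))) (mul (s % 2048) (F % 2048)) (okT_add _ _) (by omega)
  rw [← hdef] at q1 q2 q3
  refine ⟨⟨by rw [q2]; exact okT_add _ _, by rw [q3]; exact hm⟩, ?_⟩
  have e1 : S.pos (sm s F) = S.pos s * (S.E (F / 2048 % 1024) * S.om (F % 2048)) := by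
    unfold pos
    rw [q1, q2, q3, hms, S.add_spec _ _ hst (okT_act _ _)]
    have := S.act_spec (s % 2048) (F / 2048 % 1024) hsw ht
    simp only [mul_assoc]
    rw [← mul_assoc (S.om (s % 2048)) (S.E (F / 2048 % 1024)), this, mul_assoc]
  rw [e1, S.cc_mul_congr hc, hi]
  congr 1
  unfold pos
  simp only [mul_assoc]

theorem sf_R {s F : ℕ} {x : G} (hlt : s < 4294967296) (hs : okS s)
    (hc : S.cc (S.pos s) = S.cc (S.g (s / 2097152))) (h : S.R F x) : S.R (sf s F) x := by
  intro hF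
  obtain ⟨hb, he⟩ := ck_lt hF
  have hb' : s / 2097152 = F / 2097152 := Nat.eq_of_beq_eq_true hb
  have hFv : sf s F = sm s F := he
  have hF' : F < 1152921504606846976 := by omega
  obtain ⟨hok, hcc⟩ := h hF'
  obtain ⟨r1, r2⟩ := S.sm_pos hs hok hb' hc
  rw [hFv]
  exact ⟨r1, by rw [r2, hcc]⟩

theorem sst_R {m sr F : ℕ} {x : G} (hm : ∀ s, s < m → S.HS s) (h : S.R F x) :
    S.R (sst m sr F) x := by
  have hdef : sst m sr F = ite' (Nat.beq sr 0) F (ck (Nat.ble sr m) (sf (STf (sr - 1)) F)) := rfl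
  rw [hdef]
  cases hb : Nat.beq sr 0
  · change S.R (ck (Nat.ble sr m) (sf (STf (sr - 1)) F)) x
    intro hF
    obtain ⟨hb2, he⟩ := ck_lt hF
    rw [he] at hF ⊢
    have h1 : sr ≤ m := Nat.le_of_ble_eq_true hb2
    have h2 : sr ≠ 0 := by
      intro h0
      rw [h0] at hb
      exact absurd hb (by decide)
    obtain ⟨h3, h4⟩ := hm (sr - 1) (by omega)
    exact S.sf_R (STf_lt _) h3 h4 h hF
  · exact h

theorem stp_R {n m d F : ℕ} {x : G} (hn : ∀ e, e < n → S.HE e) (hm : ∀ s, s < m → S.HS s)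
    (h : S.R F x) : S.R (stp (2 * n) m d F) (x * S.z) := by
  have hdef : stp (2 * n) m d F = ck (Nat.ble (Nat.succ (d / 8192 % 131072)) (2 * n))
    (zst (d / 8192 % 131072) (sst m (d % 8192) F)) := rfl
  rw [hdef]
  intro hF
  obtain ⟨hb, he⟩ := ck_lt hF
  rw [he] at hF ⊢
  have h1 : d / 8192 % 131072 + 1 ≤ 2 * n := Nat.le_of_ble_eq_true hb
  exact S.zst_R (hn _ (by omega)) (S.sst_R hm h) hF

theorem okF_ok {F : ℕ} (h : okF F = true) : okS F := by
  obtain ⟨h1, h2⟩ := cnd_eq h
  have h1' : Nat.land (F / 2048 % 1024) 347 = F / 2048 % 1024 := Nat.eq_of_beq_eq_true h1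
  have h2' : F % 2048 + 1 ≤ 1152 := Nat.le_of_ble_eq_true h2
  exact ⟨h1', by omega⟩

/-- start of a line -/
theorem eSt_pos {r d : ℕ} (hr : r < 9007199254740992) :
    S.pos (eSt r d) = S.g (r / 4398046511104) * S.E (r / 4294967296 % 1024) * S.om (d % 2048) ∧
      eSt r d < 1152921504606846976 ∧ eSt r d % 2048 = d % 2048 ∧
        eSt r d / 2048 % 1024 = r / 4294967296 % 1024 := by
  have hdef : eSt r d = 2048 * (r / 4294967296) + d % 2048 := rfl
  have q1 : eSt r d / 2097152 = r / 4398046511104 := by omega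
  have q2 : eSt r d / 2048 % 1024 = r / 4294967296 % 1024 := by omega
  have q3 : eSt r d % 2048 = d % 2048 := by omega
  refine ⟨?_, by omega, q3, q2⟩
  unfold pos
  rw [q1, q2, q3]

/-- end of a line -/
theorem eFin_HE {n d F : ℕ} (h : eFin (ETf n) d F = true)
    (hR : okS (eSt (ETf n) d) → S.R F (S.pos (eSt (ETf n) d) * S.z)) : S.HE n := by
  have hr := ETf_lt n
  obtain ⟨h1, h2⟩ := cnd_eq h
  obtain ⟨h2, h3⟩ := cnd_eq h2
  have h1 : okS (ETf n % 4294967296) := okF_ok h1
  have h2 : okS (eSt (ETf n) d) := okF_ok h2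
  have h3 : F = (ETf n % 4294967296 - ETf n % 2048) + mul (ETf n % 2048) (d % 2048) :=
    Nat.eq_of_beq_eq_true h3
  obtain ⟨p1, p2, p3, p4⟩ := S.eSt_pos (d := d) hr
  obtain ⟨h2t, h2w⟩ := id h2
  rw [p3] at h2w
  rw [p4] at h2t
  obtain ⟨h1t, h1w⟩ := id h1
  have hw2 : ETf n % 4294967296 % 2048 = ETf n % 2048 := by omega
  have hm := S.mul_lt (ETf n % 2048) (d % 2048) (by omega) h2w
  have hs := S.mul_spec (ETf n % 2048) (d % 2048) (by omega) h2w
  obtain ⟨f1, f2⟩ := hR h2 (by omega)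
  have e1 : F = 2097152 * (ETf n % 4294967296 / 2097152) +
      (2048 * (ETf n % 4294967296 / 2048 % 1024) + mul (ETf n % 2048) (d % 2048)) := by
    have := okT_lt h1t
    omega
  obtain ⟨q1, q2, q3⟩ := split (ETf n % 4294967296 / 2097152) (ETf n % 4294967296 / 2048 % 1024)
    (mul (ETf n % 2048) (d % 2048)) h1t (by omega)
  rw [← e1] at q1 q2 q3
  have e2 : S.pos F = S.pos (ETf n % 4294967296) * S.om (d % 2048) := by
    unfold pos
    rw [q1, q2, q3, hs, hw2]
    simp only [mul_assoc]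
  have e3 : S.pos (eSt (ETf n) d) * S.z = S.g (ETf n / 4398046511104) *
      S.E (ETf n / 4294967296 % 1024) * S.z * S.om (d % 2048) := by
    rw [p1]
    simp only [mul_assoc]
    rw [S.zom _ h2w]
  rw [e2, e3] at f2
  exact ⟨h2t, h1, (S.cc_cancel _ f2).symm⟩

theorem R_self {F : ℕ} (h : okS F) : S.R F (S.pos F) := fun _ => ⟨h, rfl⟩

theorem e4_HE {tb : ℕ → ℕ} {p : G} (hp : S.HP tb p) (hrel : p * S.z * p * S.z * p * S.z * p = S.z)
    {n m k d : ℕ} (hn : ∀ e, e < n → S.HE e) (hm : ∀ s, s < m → S.HS s)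
    (h : e4 tb (2 * n) m (ETf k) d = true) : S.HE k := by
  refine S.eFin_HE h (fun hok => ?_)
  have h0 := S.pst_R hp (S.R_self hok)
  have h1 := S.pst_R hp (S.stp_R hn hm (d := d / 2048) h0)
  have h2 := S.pst_R hp (S.stp_R hn hm (d := d / 2199023255552) h1)
  have h3 := S.pst_R hp (S.stp_R hn hm (d := d / 2361183241434822606848) h2)
  have e : S.pos (eSt (ETf k) d) * p * S.z * p * S.z * p * S.z * p =
      S.pos (eSt (ETf k) d) * S.z := by
    have e' : S.pos (eSt (ETf k) d) * p * S.z * p * S.z * p * S.z * p =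
      S.pos (eSt (ETf k) d) * (p * S.z * p * S.z * p * S.z * p) := by
      simp only [mul_assoc]
    rw [e', hrel]
  rw [e] at h3
  exact h3

theorem e8_HE {tb : ℕ → ℕ} {p : G} (hp : S.HP tb p)
    (hrel : p * S.z * p * S.z * p * S.z * p * S.z * p * S.z * p * S.z * p * S.z * p = S.z)
    {n m k d : ℕ} (hn : ∀ e, e < n → S.HE e) (hm : ∀ s, s < m → S.HS s)
    (h : e8 tb (2 * n) m (ETf k) d = true) : S.HE k := by
  refine S.eFin_HE h (fun hok => ?_)
  have h0 := S.pst_R hp (S.R_self hok)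
  have h1 := S.pst_R hp (S.stp_R hn hm (d := d / 2048) h0)
  have h2 := S.pst_R hp (S.stp_R hn hm (d := d / 2199023255552) h1)
  have h3 := S.pst_R hp (S.stp_R hn hm (d := d / 2361183241434822606848) h2)
  have h4 := S.pst_R hp (S.stp_R hn hm (d := d / 2535301200456458802993406410752) h3)
  have h5 := S.pst_R hp (S.stp_R hn hm (d := d / 2722258935367507707706996859454145691648) h4)
  have h6 := S.pst_R hp (S.stp_R hn hm (d := d / 2923003274661805836407369665432566039311865085952) h5)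
  have h7 := S.pst_R hp (S.stp_R hn hm (d := d / 3138550867693340381917894711603833208051177722232017256448) h6)
  have e : S.pos (eSt (ETf k) d) * p * S.z * p * S.z * p * S.z * p * S.z * p * S.z * p * S.z * p *
      S.z * p = S.pos (eSt (ETf k) d) * S.z := by
    have e' : S.pos (eSt (ETf k) d) * p * S.z * p * S.z * p * S.z * p * S.z * p * S.z * p * S.z * p *
      S.z * p = S.pos (eSt (ETf k) d) *
        (p * S.z * p * S.z * p * S.z * p * S.z * p * S.z * p * S.z * p * S.z * p) := by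
      simp only [mul_assoc]
    rw [e', hrel]
  rw [e] at h7
  exact h7

theorem sFin_HS {k d F : ℕ} (h : sFin (STf k) d F = true)
    (hR : okS (sSt (STf k) d) → S.R F (S.pos (sSt (STf k) d))) : S.HS k := by
  have hr := STf_lt k
  obtain ⟨h1, h2⟩ := cnd_eq h
  obtain ⟨h2, h3⟩ := cnd_eq h2
  have h1 := okF_ok h1
  have h2 := okF_ok h2
  have h3 : F = sm (STf k) (sSt (STf k) d) := Nat.eq_of_beq_eq_true h3
  have hdef : sSt (STf k) d = (STf k - STf k % 2097152) + d % 2097152 := rfl
  obtain ⟨h1t, h1w⟩ := id h1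
  obtain ⟨h2t, h2w⟩ := id h2
  have hi : STf k / 2097152 = sSt (STf k) d / 2097152 := by omega
  have hmd : sm (STf k) (sSt (STf k) d) = 2097152 * (STf k / 2097152) + (2048 * (add (STf k / 2048 % 1024)
    (act (STf k % 2048) (sSt (STf k) d / 2048 % 1024))) + mul (STf k % 2048) (sSt (STf k) d % 2048)) := rfl
  have hm := S.mul_lt _ _ h1w h2w
  have hms := S.mul_spec _ _ h1w h2w
  have hadd := okT_lt (okT_add (STf k / 2048 % 1024) (act (STf k % 2048) (sSt (STf k) d / 2048 % 1024)))
  obtain ⟨f1, f2⟩ := hR h2 (by omega)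
  obtain ⟨q1, q2, q3⟩ := split (STf k / 2097152) (add (STf k / 2048 % 1024)
    (act (STf k % 2048) (sSt (STf k) d / 2048 % 1024))) (mul (STf k % 2048) (sSt (STf k) d % 2048))
    (okT_add _ _) (by omega)
  rw [← hmd, ← h3] at q1 q2 q3
  have e1 : S.pos F = S.pos (STf k) * (S.E (sSt (STf k) d / 2048 % 1024) *
      S.om (sSt (STf k) d % 2048)) := by
    unfold pos
    rw [q1, q2, q3, hms, S.add_spec _ _ h1t (okT_act _ _)]
    have := S.act_spec (STf k % 2048) (sSt (STf k) d / 2048 % 1024) h1w h2t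
    simp only [mul_assoc]
    rw [← mul_assoc (S.om (STf k % 2048)) (S.E (sSt (STf k) d / 2048 % 1024)), this, mul_assoc]
  have e2 : S.pos (sSt (STf k) d) = S.g (STf k / 2097152) * (S.E (sSt (STf k) d / 2048 % 1024) *
      S.om (sSt (STf k) d % 2048)) := by
    unfold pos
    rw [← hi, mul_assoc]
  rw [e1, e2] at f2
  exact ⟨h1, S.cc_cancel _ f2⟩

theorem s2_HS {n m k d : ℕ} (hn : ∀ e, e < n → S.HE e) (hm : ∀ s, s < m → S.HS s)
    (h : s2 (2 * n) m (STf k) d = true) : S.HS k := by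
  refine S.sFin_HS h (fun hok => ?_)
  have h0 := S.R_self hok
  have h1 := S.stp_R hn hm (d := d / 2097152) h0
  have h2 := S.stp_R hn hm (d := d / 2251799813685248) h1
  have e : S.pos (sSt (STf k) d) * S.z * S.z = S.pos (sSt (STf k) d) := by
    rw [mul_assoc, S.zz, mul_one]
  rw [e] at h2
  exact h2

theorem s4_HS {tb : ℕ → ℕ} {p : G} (hp : S.HP tb p) (hrel : p * S.z * p * S.z * p * S.z * p = S.z)
    {n m k d : ℕ} (hn : ∀ e, e < n → S.HE e) (hm : ∀ s, s < m → S.HS s)
    (h : s4 tb (2 * n) m (STf k) d = true) : S.HS k := by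
  refine S.sFin_HS h (fun hok => ?_)
  have h0 := S.R_self hok
  have h1 := S.pst_R hp (S.stp_R hn hm (d := d / 2097152) h0)
  have h2 := S.pst_R hp (S.stp_R hn hm (d := d / 2251799813685248) h1)
  have h3 := S.pst_R hp (S.stp_R hn hm (d := d / 2417851639229258349412352) h2)
  have h4 := S.pst_R hp (S.stp_R hn hm (d := d / 2596148429267413814265248164610048) h3)
  have e : S.pos (sSt (STf k) d) * S.z * p * S.z * p * S.z * p * S.z * p =
      S.pos (sSt (STf k) d) := by
    have : S.z * p * S.z * p * S.z * p * S.z * p = 1 := by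
      have h5 : S.z * p * S.z * p * S.z * p * S.z * p = S.z * (p * S.z * p * S.z * p * S.z * p) := by
        simp only [mul_assoc]
      rw [h5, hrel, S.zz]
    have h6 : S.pos (sSt (STf k) d) * S.z * p * S.z * p * S.z * p * S.z * p =
        S.pos (sSt (STf k) d) * (S.z * p * S.z * p * S.z * p * S.z * p) := by
      simp only [mul_assoc]
    rw [h6, this, mul_one]
  rw [e] at h4
  exact h4

theorem sP_HS {m k a b : ℕ} (hm : ∀ s, s < m → S.HS s)
    (h : sP m (STf k) a b = true) : S.HS k := by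
  obtain ⟨h1, h2⟩ := cnd_eq h
  obtain ⟨h2, h3⟩ := cnd_eq h2
  have h1 : a + 1 ≤ m := Nat.le_of_ble_eq_true h1
  have h2 : b + 1 ≤ m := Nat.le_of_ble_eq_true h2
  have h3 : sf (STf a) (STf b) = STf k := Nat.eq_of_beq_eq_true h3
  obtain ⟨a1, a2⟩ := hm a (by omega)
  obtain ⟨b1, b2⟩ := hm b (by omega)
  have hR : S.R (STf b) (S.g (STf b / 2097152)) := fun _ => ⟨b1, b2⟩
  have hk := STf_lt k
  have hlt : sf (STf a) (STf b) < 1152921504606846976 := by omega
  obtain ⟨hb, he⟩ := ck_lt hlt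
  have hb' : STf a / 2097152 = STf b / 2097152 := Nat.eq_of_beq_eq_true hb
  obtain ⟨r1, r2⟩ := S.sf_R (STf_lt a) a1 a2 hR hlt
  rw [h3] at r1 r2
  refine ⟨r1, ?_⟩
  rw [r2]
  congr 2
  -- the vertex of the product
  have hmd : sm (STf a) (STf b) = 2097152 * (STf a / 2097152) + (2048 * (add (STf a / 2048 % 1024)
    (act (STf a % 2048) (STf b / 2048 % 1024))) + mul (STf a % 2048) (STf b % 2048)) := rfl
  have e1 : STf k = sm (STf a) (STf b) := by rw [← h3]; exact he
  have hmm := S.mul_lt _ _ a1.2 b1.2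
  obtain ⟨q1, -, -⟩ := split (STf a / 2097152) (add (STf a / 2048 % 1024)
    (act (STf a % 2048) (STf b / 2048 % 1024))) (mul (STf a % 2048) (STf b % 2048))
    (okT_add _ _) (by omega)
  rw [← hmd, ← e1] at q1
  omega

/-! ### Runs -/

theorem runE_succ (m k n L : ℕ) : runE m (k + 1) n L =
    iteb (Nat.beq (L % 4) 0)
      (cnd (e4 PAf (2 * n) m (ETf n) (L / 4)) (runE m k (n + 1) (L / 10141204801825835211973625643008)))
      (iteb (Nat.beq (L % 4) 1)
        (cnd (e4 PBf (2 * n) m (ETf n) (L / 4)) (runE m k (n + 1) (L / 10141204801825835211973625643008)))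
        (cnd (e8 PCf (2 * n) m (ETf n) (L / 4)) (runE m k (n + 1) (L / 13479973333575319897333507543509815336818572211270286240551805124608)))) := rfl

theorem runE_HE {m : ℕ} (hm : ∀ s, s < m → S.HS s) (k : ℕ) : ∀ n L : ℕ, (∀ e, e < n → S.HE e) →
    runE m k n L = true → ∀ e, e < n + k → S.HE e := by
  induction k with
  | zero =>
    intro n L hn _ e he
    exact hn e he
  | succ k ih =>
    intro n L hn h
    rw [runE_succ] at h
    have key : S.HE n ∧ ∃ L', runE m k (n + 1) L' = true := by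
      cases h1 : Nat.beq (L % 4) 0
      · rw [h1] at h
        cases h2 : Nat.beq (L % 4) 1
        · rw [h2] at h
          obtain ⟨h3, h4⟩ := cnd_eq h
          exact ⟨S.e8_HE S.HPC S.relC hn hm h3, _, h4⟩
        · rw [h2] at h
          obtain ⟨h3, h4⟩ := cnd_eq h
          exact ⟨S.e4_HE S.HPB S.relB hn hm h3, _, h4⟩
      · rw [h1] at h
        obtain ⟨h3, h4⟩ := cnd_eq h
        exact ⟨S.e4_HE S.HPA S.relA hn hm h3, _, h4⟩
    obtain ⟨h1, L', h2⟩ := key
    have h3 := ih (n + 1) L' (fun e he => by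
      rcases Nat.lt_succ_iff_lt_or_eq.mp he with h | h
      · exact hn e h
      · rw [h]; exact h1) h2
    intro e he
    exact h3 e (by omega)

theorem runS_succ (n k m L : ℕ) : runS n (k + 1) m L =
    iteb (Nat.beq (L % 4) 0)
      (cnd (sP m (STf m) (L / 4 % 8192) (L / 32768 % 8192)) (runS n k (m + 1) (L / 268435456)))
      (iteb (Nat.beq (L % 4) 1)
        (cnd (s2 n m (STf m) (L / 4)) (runS n k (m + 1) (L / 9671406556917033397649408)))
        (iteb (Nat.beq (L % 4) 2)
          (cnd (s4 PAf n m (STf m) (L / 4)) (runS n k (m + 1) (L / 11150372599265311570767859136324180752990208)))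
          (cnd (s4 PBf n m (STf m) (L / 4)) (runS n k (m + 1) (L / 11150372599265311570767859136324180752990208))))) := rfl

theorem runS_HS {n : ℕ} (hn : ∀ e, e < n → S.HE e) (k : ℕ) : ∀ m L : ℕ, (∀ s, s < m → S.HS s) →
    runS (2 * n) k m L = true → ∀ s, s < m + k → S.HS s := by
  induction k with
  | zero =>
    intro m L hm _ s hs
    exact hm s hs
  | succ k ih =>
    intro m L hm h
    rw [runS_succ] at h
    have key : S.HS m ∧ ∃ L', runS (2 * n) k (m + 1) L' = true := by
      cases h1 : Nat.beq (L % 4) 0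
      · rw [h1] at h
        cases h2 : Nat.beq (L % 4) 1
        · rw [h2] at h
          cases h5 : Nat.beq (L % 4) 2
          · rw [h5] at h
            obtain ⟨h3, h4⟩ := cnd_eq h
            exact ⟨S.s4_HS S.HPB S.relB hn hm h3, _, h4⟩
          · rw [h5] at h
            obtain ⟨h3, h4⟩ := cnd_eq h
            exact ⟨S.s4_HS S.HPA S.relA hn hm h3, _, h4⟩
        · rw [h2] at h
          obtain ⟨h3, h4⟩ := cnd_eq h
          exact ⟨S.s2_HS hn hm h3, _, h4⟩
      · rw [h1] at h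
        obtain ⟨h3, h4⟩ := cnd_eq h
        exact ⟨S.sP_HS hm h3, _, h4⟩
    obtain ⟨h1, L', h2⟩ := key
    have h3 := ih (m + 1) L' (fun e he => by
      rcases Nat.lt_succ_iff_lt_or_eq.mp he with h | h
      · exact hm e h
      · rw [h]; exact h1) h2
    intro e he
    exact h3 e (by omega)

theorem runD_succ (k n : ℕ) : runD (k + 1) n =
    cnd (Nat.beq (ETf n % 4294967296) (2097152 * (n + 1)))
      (cnd (Nat.ble (ETf n / 4398046511104) n)
        (cnd (Nat.beq (Nat.land (ETf n / 4294967296 % 1024) 347) (ETf n / 4294967296 % 1024))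
          (runD k (n + 1)))) := rfl

theorem runD_HE (k : ℕ) : ∀ n : ℕ, runD k n = true → ∀ e, n ≤ e → e < n + k → S.HE e := by
  induction k with
  | zero =>
    intro n _ e h1 h2
    omega
  | succ k ih =>
    intro n h e he1 he2
    rw [runD_succ] at h
    obtain ⟨h1, h2⟩ := cnd_eq h
    obtain ⟨h2, h3⟩ := cnd_eq h2
    obtain ⟨h3, h4⟩ := cnd_eq h3
    rcases Nat.eq_or_lt_of_le he1 with h5 | h5
    · subst h5
      have h1 : ETf n % 4294967296 = 2097152 * (n + 1) := Nat.eq_of_beq_eq_true h1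
      have h2 : ETf n / 4398046511104 ≤ n := Nat.le_of_ble_eq_true h2
      have h3 : Nat.land (ETf n / 4294967296 % 1024) 347 = ETf n / 4294967296 % 1024 :=
        Nat.eq_of_beq_eq_true h3
      have q1 : ETf n % 4294967296 / 2097152 = n + 1 := by omega
      have q2 : ETf n % 4294967296 / 2048 % 1024 = 0 := by omega
      have q3 : ETf n % 4294967296 % 2048 = 0 := by omega
      refine ⟨h3, ⟨by rw [q2]; exact okT_zero, by rw [q3]; norm_num⟩, ?_⟩
      unfold pos
      rw [q1, q2, q3, S.E0, S.om0, mul_one, mul_one]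
      have hg : S.g (n + 1) = S.g (ETf n / 4398046511104) * S.E (ETf n / 4294967296 % 1024) * S.z := by
        rw [g, dif_pos h2]
      rw [hg]
    · exact ih (n + 1) h4 e h5 (by omega)

end Sem

end Pool.Agent.Lib.MP_c2d01e_co.Four
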