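import Pool.Agent.Lib.MP_c2d01e_co.Four.Calc0
import Pool.Agent.Lib.MP_c2d01e_co.Four.Sem
import Pool.Agent.Lib.MP_c2d01e_co.Dce.PCalc

/-!
# The calculus of codes in a group with elements of type `{3,3,4,3}`
-/

set_option autoImplicit false
set_option linter.all false

namespace Pool.Agent.Lib.MP_c2d01e_co.Four

open Pool.Agent.Lib.MP_c2d01e_co.Dce (getT TW F4t lp EE Z4 s1 w1 lin wdl WD)

theorem allN_spec {f : ℕ → Bool} {n : ℕ} (h : allN f n = true) : ∀ k, k < n → f k = true := by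
  induction n with
  | zero => intro k hk; omega
  | succ n ih =>
    have h' : cnd (f n) (allN f n) = true := h
    obtain ⟨h1, h2⟩ := cnd_eq h'
    intro k hk
    rcases Nat.lt_succ_iff_lt_or_eq.mp hk with h3 | h3
    · exact ih h2 k h3
    · rw [h3]; exact h1

theorem kL_spec {f : ℕ → List ℕ → Bool} (L : List (List ℕ)) : ∀ (y : ℕ), kL f L y = true →
    ∀ k, k < L.length → f (y + k) (L.getD k []) = true := by
  induction L with
  | nil => intro y h k hk; simp at hk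
  | cons l L ih =>
    intro y h k hk
    have h' : cnd (f y l) (kL f L (y + 1)) = true := h
    obtain ⟨h1, h2⟩ := cnd_eq h'
    cases k with
    | zero => simpa using h1
    | succ k =>
      have := ih (y + 1) h2 k (by simpa using hk)
      rw [Nat.add_right_comm] at this
      simpa [Nat.add_assoc] using this

theorem allT_spec {f : ℕ → Bool} (h : allT f = true) : ∀ t, okT t → f t = true := by
  intro t ht
  have h1 := allN_spec h t (okT_lt ht)
  have h2 : Nat.beq (Nat.land t 347) t = true := by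
    rw [Nat.beq_eq]; exact ht
  have h3 : iteb (Nat.beq (Nat.land t 347) t) (f t) true = true := h1
  rw [h2] at h3
  exact h3

/-- minus the vector with a given code -/
def nv (t : ℕ) : Z4 :=
  (-(2 * (t % 8 : ℕ) + (t / 8 % 8 : ℕ) + 2 * (t / 64 % 4 : ℕ) + 2 * (t / 256 : ℕ) : ℤ),
    ((t % 8 : ℕ) + (t / 256 : ℕ) : ℤ), ((t % 8 : ℕ) + (t / 64 % 4 : ℕ) : ℤ),
    ((t % 8 : ℕ) + (t / 64 % 4 : ℕ) + (t / 256 : ℕ) : ℤ))

/-- code of a vector -/
def cd (v : Z4) : ℕ :=
  ((v.2.1 + v.2.2.1 - v.2.2.2) % 4).toNat + 8 * ((-v.1 - 2 * v.2.2.2) % 4).toNat +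
    64 * ((v.2.2.2 - v.2.1) % 2).toNat + 256 * ((v.2.2.2 - v.2.2.1) % 2).toNat

theorem K9 : allT (fun x => allT (fun y => Nat.beq (add x y) (cd (nv x + nv y)))) = true := by
  decide +kernel

theorem K14 : allT (fun t => cnd (Nat.beq (act 48 t) (cd (lin 2 (nv t))))
    (cnd (Nat.beq (act 6 t) (cd (lin 3 (nv t)))) (cnd (Nat.beq (act 1 t) (cd (lin 4 (nv t))))
      (Nat.beq (act 2 t) (cd (lin 5 (nv t))))))) = true := by
  decide +kernel

theorem LW_letters : ∀ k < 48, ∀ g ∈ LW.getD k [], 2 ≤ g ∧ g ≤ 5 := by decide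

theorem MW_letters : ∀ k < 24, ∀ g ∈ MW.getD k [], 2 ≤ g ∧ g ≤ 5 := by decide

section

variable {G : Type*} [Group G] {r : ℕ → G}

/-- the element of `W(F4)` with code `w` -/
noncomputable def omc (r : ℕ → G) (w : ℕ) : G := Dce.om r (BFf w)

theorem BFf_lt {w : ℕ} (hw : w < 1152) : BFf w < 1152 := by
  have := (cnd_eq (allN_spec K1 w hw)).1
  exact Nat.le_of_ble_eq_true this

theorem Rf_spec (h : F4t r) {g x : ℕ} (h2 : 2 ≤ g) (h5 : g ≤ 5) (hx : x < 1152) :
    Rf g x < 1152 ∧ omc r (Rf g x) = omc r x * r g := by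
  have k := allN_spec K1 x hx
  obtain ⟨b0, k⟩ := cnd_eq k
  obtain ⟨b2, k⟩ := cnd_eq k
  obtain ⟨b3, k⟩ := cnd_eq k
  obtain ⟨b4, k⟩ := cnd_eq k
  obtain ⟨b5, k⟩ := cnd_eq k
  obtain ⟨c2, k⟩ := cnd_eq k
  obtain ⟨c3, k⟩ := cnd_eq k
  obtain ⟨c4, c5⟩ := cnd_eq k
  have hB : BFf x < 1152 := BFf_lt hx
  have key : Rf g x < 1152 ∧ BFf (Rf g x) = getT TW (BFf x) g := by
    have hg : g = 2 ∨ g = 3 ∨ g = 4 ∨ g = 5 := by omega
    rcases hg with rfl | rfl | rfl | rfl
    · exact ⟨Nat.le_of_ble_eq_true b2, Nat.eq_of_beq_eq_true c2⟩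
    · exact ⟨Nat.le_of_ble_eq_true b3, Nat.eq_of_beq_eq_true c3⟩
    · exact ⟨Nat.le_of_ble_eq_true b4, Nat.eq_of_beq_eq_true c4⟩
    · exact ⟨Nat.le_of_ble_eq_true b5, Nat.eq_of_beq_eq_true c5⟩
  refine ⟨key.1, ?_⟩
  unfold omc
  rw [key.2, (Dce.om_edge h (BFf x) hB g h2 h5).2]

theorem flR_cons (g : ℕ) (l : List ℕ) (x : ℕ) : flR (g :: l) x = flR l (Rf g x) := rfl

theorem flR_nil (x : ℕ) : flR [] x = x := rfl

theorem flR_spec (h : F4t r) (l : List ℕ) (hl : ∀ i ∈ l, 2 ≤ i ∧ i ≤ 5) : ∀ x < 1152,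
    flR l x < 1152 ∧ omc r (flR l x) = omc r x * lp r l := by
  induction l with
  | nil => intro x hx; exact ⟨hx, by rw [flR_nil, Dce.lp_nil, mul_one]⟩
  | cons g l ih =>
    intro x hx
    obtain ⟨g2, g5⟩ := hl g (by simp)
    obtain ⟨h1, h2⟩ := Rf_spec h g2 g5 hx
    obtain ⟨h3, h4⟩ := ih (fun i hi => hl i (by simp [hi])) _ h1
    rw [flR_cons]
    exact ⟨h3, by rw [h4, h2, Dce.lp_cons, mul_assoc]⟩

theorem omc_zero : omc r 0 = 1 := by
  unfold omc
  rw [K12, Dce.om_zero']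

theorem LWlen : LW.length = 48 := by decide

theorem MWlen : MW.length = 24 := by decide

theorem omc_split' (h : F4t r) {b a : ℕ} (hb : b < 24) (ha : a < 48) :
    omc r (48 * b + a) = omc r (48 * b) * lp r (LW.getD a []) := by
  have k := kL_spec LW 0 K5 a (by rw [LWlen]; exact ha)
  rw [Nat.zero_add] at k
  have k2 := allN_spec k b hb
  have k3 : 48 * b + a = flR (LW.getD a []) (48 * b) := Nat.eq_of_beq_eq_true k2
  rw [k3, (flR_spec h _ (LW_letters a ha) _ (by omega)).2]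

theorem omc_small (h : F4t r) {a : ℕ} (ha : a < 48) : omc r a = lp r (LW.getD a []) := by
  have := omc_split' h (b := 0) (by norm_num) ha
  rw [Nat.mul_zero, Nat.zero_add, omc_zero, one_mul] at this
  exact this

theorem omc_split (h : F4t r) {b a : ℕ} (hb : b < 24) (ha : a < 48) :
    omc r (48 * b + a) = omc r (48 * b) * omc r a := by
  rw [omc_split' h hb ha, omc_small h ha]

theorem U_eq {a b : ℕ} (ha : a < 48) (hb : b < 24) : Uf (24 * a + b) = flR (MW.getD b []) a := by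
  have k := kL_spec MW 0 K3 b (by rw [MWlen]; exact hb)
  rw [Nat.zero_add] at k
  exact Nat.eq_of_beq_eq_true (allN_spec k a ha)

theorem V_eq {a b : ℕ} (ha : a < 24) (hb : b < 24) :
    Vf (24 * a + b) = flR (MW.getD b []) (48 * a) := by
  have k := kL_spec MW 0 K4 b (by rw [MWlen]; exact hb)
  rw [Nat.zero_add] at k
  exact Nat.eq_of_beq_eq_true (allN_spec k a ha)

theorem omc_48 (h : F4t r) {b : ℕ} (hb : b < 24) : omc r (48 * b) = lp r (MW.getD b []) := by
  have k := U_eq (a := 0) (by norm_num) hb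
  have k2 : Uf b = 48 * b := Nat.eq_of_beq_eq_true (allN_spec K5b b hb)
  rw [Nat.mul_zero, Nat.zero_add, k2] at k
  rw [k, (flR_spec h _ (MW_letters b hb) 0 (by norm_num)).2, omc_zero, one_mul]

theorem U_spec (h : F4t r) {a b : ℕ} (ha : a < 48) (hb : b < 24) :
    Uf (24 * a + b) < 1152 ∧ omc r (Uf (24 * a + b)) = omc r a * omc r (48 * b) := by
  rw [U_eq ha hb, omc_48 h hb]
  exact flR_spec h _ (MW_letters b hb) a (by omega)

theorem V_spec (h : F4t r) {a b : ℕ} (ha : a < 24) (hb : b < 24) :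
    Vf (24 * a + b) < 1152 ∧ omc r (Vf (24 * a + b)) = omc r (48 * a) * omc r (48 * b) := by
  rw [V_eq ha hb, omc_48 h hb]
  exact flR_spec h _ (MW_letters b hb) (48 * a) (by omega)

theorem TA_spec (h : F4t r) {a b : ℕ} (ha : a < 48) (hb : b < 48) :
    TAf (48 * a + b) < 48 ∧ omc r (TAf (48 * a + b)) = omc r a * omc r b := by
  have k := kL_spec LW 0 K2 b (by rw [LWlen]; exact hb)
  rw [Nat.zero_add] at k
  obtain ⟨k1, k2⟩ := cnd_eq (allN_spec k a ha)
  have k1 : TAf (48 * a + b) = flR (LW.getD b []) a := Nat.eq_of_beq_eq_true k1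
  refine ⟨Nat.le_of_ble_eq_true k2, ?_⟩
  rw [k1, omc_small h hb]
  exact (flR_spec h _ (LW_letters b hb) a (by omega)).2

theorem mulv_spec (h : F4t r) {v x : ℕ} (hv : v < 1152) (hx : x < 48) :
    mulv v x < 1152 ∧ omc r (mulv v x) = omc r v * omc r x := by
  have hdef : mulv v x = (v - v % 48) + TAf (48 * (v % 48) + x) := rfl
  obtain ⟨t1, t2⟩ := TA_spec h (a := v % 48) (b := x) (by omega) hx
  have e1 : mulv v x = 48 * (v / 48) + TAf (48 * (v % 48) + x) := by omega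
  rw [e1]
  refine ⟨by omega, ?_⟩
  rw [omc_split h (by omega) t1, t2, ← mul_assoc, ← omc_split h (by omega) (by omega)]
  congr 2
  omega

theorem mul_spec' (h : F4t r) {a b : ℕ} (ha : a < 1152) (hb : b < 1152) :
    mul a b < 1152 ∧ omc r (mul a b) = omc r a * omc r b := by
  obtain ⟨u1, u2⟩ := U_spec h (a := a % 48) (b := b / 48) (by omega) (by omega)
  set u := Uf (24 * (a % 48) + b / 48) with hu
  obtain ⟨v1, v2⟩ := V_spec h (a := a / 48) (b := u / 48) (by omega) (by omega)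
  set v := Vf (24 * (a / 48) + u / 48) with hv
  obtain ⟨t1, t2⟩ := TA_spec h (a := u % 48) (b := b % 48) (by omega) (by omega)
  obtain ⟨m1, m2⟩ := mulv_spec h v1 t1
  have hdef : mul a b = mulv v (TAf (48 * (u % 48) + b % 48)) := rfl
  rw [hdef]
  refine ⟨m1, ?_⟩
  rw [m2, v2, t2]
  have e1 : omc r u = omc r (48 * (u / 48)) * omc r (u % 48) := by
    rw [← omc_split h (by omega) (by omega)]; congr 1; omega
  have e2 : omc r a = omc r (48 * (a / 48)) * omc r (a % 48) := by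
    rw [← omc_split h (by omega) (by omega)]; congr 1; omega
  have e3 : omc r b = omc r (48 * (b / 48)) * omc r (b % 48) := by
    rw [← omc_split h (by omega) (by omega)]; congr 1; omega
  rw [e2, e3, mul_assoc (omc r (48 * (a / 48))) (omc r (a % 48)), ← mul_assoc (omc r (a % 48)),
    ← u2, e1]
  simp only [mul_assoc]

theorem iv_spec' (h : F4t r) {w : ℕ} (hw : w < 1152) : IVf w < 1152 ∧ omc r (IVf w) * omc r w = 1 := by
  obtain ⟨k1, k2⟩ := cnd_eq (allN_spec K6 w hw)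
  have k1 : IVf w < 1152 := Nat.le_of_ble_eq_true k1
  have k2 : mul (IVf w) w = 0 := Nat.eq_of_beq_eq_true k2
  refine ⟨k1, ?_⟩
  rw [← (mul_spec' h k1 hw).2, k2, omc_zero]

/-! ### Translations -/

/-- the translations of `2 (1 + i) H` are trivial -/
structure Kill (r : ℕ → G) : Prop where
  k1 : EE r (-8, 4, 4, 4) = 1
  k2 : EE r (-4, 0, 0, 0) = 1
  k3 : EE r (-4, 0, 2, 2) = 1
  k4 : EE r (-4, 2, 0, 2) = 1

/-- the translation with code `t` -/
noncomputable def Ec (r : ℕ → G) (t : ℕ) : G := EE r (nv t)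

theorem EE_code (h : F4t r) (k : Kill r) (v : Z4) : EE r v = Ec r (cd v) := by
  obtain ⟨v0, v1, v2, v3⟩ := v
  have key : ∀ a b c d : ℤ, EE r (-(2 * a + b + 2 * c + 2 * d), a + d, a + c, a + c + d) =
      EE r (-(2 * (a % 4) + b % 4 + 2 * (c % 2) + 2 * (d % 2)), a % 4 + d % 2, a % 4 + c % 2,
        a % 4 + c % 2 + d % 2) := by
    intro a b c d
    have e : ((-(2 * a + b + 2 * c + 2 * d), a + d, a + c, a + c + d) : Z4) =
        (-(2 * (a % 4) + b % 4 + 2 * (c % 2) + 2 * (d % 2)), a % 4 + d % 2, a % 4 + c % 2,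
        a % 4 + c % 2 + d % 2) + ((a / 4) • (-8, 4, 4, 4) + ((b / 4) • (-4, 0, 0, 0) +
          ((c / 2) • (-4, 0, 2, 2) + (d / 2) • (-4, 2, 0, 2)))) := by
      simp only [Prod.smul_mk, Prod.mk_add_mk, smul_eq_mul, Prod.mk.injEq]
      refine ⟨by omega, by omega, by omega, by omega⟩
    rw [e, Dce.EE_add h, Dce.EE_add h, Dce.EE_add h, Dce.EE_add h, Dce.EE_zsmul h, Dce.EE_zsmul h,
      Dce.EE_zsmul h, Dce.EE_zsmul h, k.k1, k.k2, k.k3, k.k4]
    simp
  have := key (v1 + v2 - v3) (-v0 - 2 * v3) (v3 - v1) (v3 - v2)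
  have e1 : ((-(2 * (v1 + v2 - v3) + (-v0 - 2 * v3) + 2 * (v3 - v1) + 2 * (v3 - v2)),
    v1 + v2 - v3 + (v3 - v2), v1 + v2 - v3 + (v3 - v1), v1 + v2 - v3 + (v3 - v1) + (v3 - v2)) : Z4) =
      (v0, v1, v2, v3) := by
    simp only [Prod.mk.injEq]
    refine ⟨by ring, by ring, by ring, by ring⟩
  rw [e1] at this
  rw [this, Ec]
  congr 1
  have hc : cd (v0, v1, v2, v3) = ((v1 + v2 - v3) % 4).toNat + 8 * ((-v0 - 2 * v3) % 4).toNat +
    64 * ((v3 - v1) % 2).toNat + 256 * ((v3 - v2) % 2).toNat := rfl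
  have a1 : (((v1 + v2 - v3) % 4).toNat : ℤ) = (v1 + v2 - v3) % 4 := Int.toNat_of_nonneg (by omega)
  have a2 : (((-v0 - 2 * v3) % 4).toNat : ℤ) = (-v0 - 2 * v3) % 4 := Int.toNat_of_nonneg (by omega)
  have a3 : (((v3 - v1) % 2).toNat : ℤ) = (v3 - v1) % 2 := Int.toNat_of_nonneg (by omega)
  have a4 : (((v3 - v2) % 2).toNat : ℤ) = (v3 - v2) % 2 := Int.toNat_of_nonneg (by omega)
  have b1 : ((v1 + v2 - v3) % 4).toNat < 4 := by omega
  have b2 : ((-v0 - 2 * v3) % 4).toNat < 4 := by omega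
  have b3 : ((v3 - v1) % 2).toNat < 2 := by omega
  have b4 : ((v3 - v2) % 2).toNat < 2 := by omega
  rw [← a1, ← a2, ← a3, ← a4, hc]
  generalize ((v1 + v2 - v3) % 4).toNat = p at *
  generalize ((-v0 - 2 * v3) % 4).toNat = q at *
  generalize ((v3 - v1) % 2).toNat = s at *
  generalize ((v3 - v2) % 2).toNat = u at *
  have c1 : (p + 8 * q + 64 * s + 256 * u) % 8 = p := by omega
  have c2 : (p + 8 * q + 64 * s + 256 * u) / 8 % 8 = q := by omega
  have c3 : (p + 8 * q + 64 * s + 256 * u) / 64 % 4 = s := by omega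
  have c4 : (p + 8 * q + 64 * s + 256 * u) / 256 = u := by omega
  rw [nv, c1, c2, c3, c4]

theorem Ec_zero : Ec r 0 = 1 := by
  have : nv 0 = 0 := by decide
  rw [Ec, this, Dce.EE_zero]

theorem Ec_add (h : F4t r) (k : Kill r) {x y : ℕ} (hx : okT x) (hy : okT y) :
    Ec r (add x y) = Ec r x * Ec r y := by
  have h1 : add x y = cd (nv x + nv y) := Nat.eq_of_beq_eq_true (allT_spec (allT_spec K9 x hx) y hy)
  rw [h1, ← EE_code h k, Dce.EE_add h]
  rfl

theorem lin_lin {g : ℕ} (h2 : 2 ≤ g) (h5 : g ≤ 5) (v : Z4) : lin g (lin g v) = v := by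
  obtain ⟨v0, v1, v2, v3⟩ := v
  have hg : g = 2 ∨ g = 3 ∨ g = 4 ∨ g = 5 := by omega
  rcases hg with rfl | rfl | rfl | rfl
  · simp only [lin, Prod.mk.injEq]
    refine ⟨by ring, by ring, by ring, by ring⟩
  · simp only [lin, Prod.mk.injEq]
    refine ⟨trivial, trivial, trivial, by ring⟩
  · rfl
  · rfl

theorem EE_lin' (h : F4t r) {g : ℕ} (h2 : 2 ≤ g) (h5 : g ≤ 5) (v : Z4) :
    r g * EE r v = EE r (lin g v) * r g := by
  rw [Dce.EE_lin h h2 h5, lin_lin h2 h5]

theorem Ag_spec (h : F4t r) (k : Kill r) {g t : ℕ} (h2 : 2 ≤ g) (h5 : g ≤ 5) (ht : okT t) :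
    r g * Ec r t = Ec r (act (ga g) t) * r g := by
  have c := allT_spec K14 t ht
  obtain ⟨c2, c⟩ := cnd_eq c
  obtain ⟨c3, c⟩ := cnd_eq c
  obtain ⟨c4, c5⟩ := cnd_eq c
  have key : act (ga g) t = cd (lin g (nv t)) := by
    have hg : g = 2 ∨ g = 3 ∨ g = 4 ∨ g = 5 := by omega
    rcases hg with rfl | rfl | rfl | rfl
    · exact Nat.eq_of_beq_eq_true c2
    · exact Nat.eq_of_beq_eq_true c3
    · exact Nat.eq_of_beq_eq_true c4
    · exact Nat.eq_of_beq_eq_true c5
  rw [key, ← EE_code h k, ← EE_lin' h h2 h5]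
  rfl

theorem flA_cons (g : ℕ) (l : List ℕ) (t : ℕ) : flA (g :: l) t = act (ga g) (flA l t) := rfl

theorem flA_nil (t : ℕ) : flA [] t = t := rfl

theorem flA_spec (h : F4t r) (k : Kill r) (l : List ℕ) (hl : ∀ i ∈ l, 2 ≤ i ∧ i ≤ 5) {t : ℕ}
    (ht : okT t) : okT (flA l t) ∧ lp r l * Ec r t = Ec r (flA l t) * lp r l := by
  induction l with
  | nil => exact ⟨ht, by rw [flA_nil, Dce.lp_nil, one_mul, mul_one]⟩
  | cons g l ih =>
    obtain ⟨g2, g5⟩ := hl g (by simp)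
    obtain ⟨h1, h2⟩ := ih (fun i hi => hl i (by simp [hi]))
    rw [flA_cons]
    refine ⟨okT_act _ _, ?_⟩
    rw [Dce.lp_cons, mul_assoc, h2, ← mul_assoc, Ag_spec h k g2 g5 h1, mul_assoc]

theorem acta_spec (h : F4t r) (k : Kill r) {a t : ℕ} (ha : a < 48) (ht : okT t) :
    omc r a * Ec r t = Ec r (acta a t) * omc r a := by
  have c := kL_spec LW 0 K8 a (by rw [LWlen]; exact ha)
  rw [Nat.zero_add] at c
  have c1 : acta a t = flA (LW.getD a []) t := Nat.eq_of_beq_eq_true (allT_spec c t ht)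
  rw [c1, omc_small h ha]
  exact (flA_spec h k _ (LW_letters a ha) ht).2

theorem actb_spec (h : F4t r) (k : Kill r) {a t : ℕ} (ha : a < 24) (ht : okT t) :
    omc r (48 * a) * Ec r t = Ec r (actb a t) * omc r (48 * a) := by
  have c := kL_spec MW 0 K8b a (by rw [MWlen]; exact ha)
  rw [Nat.zero_add] at c
  have c1 : actb a t = flA (MW.getD a []) t := Nat.eq_of_beq_eq_true (allT_spec c t ht)
  rw [c1, omc_48 h ha]
  exact (flA_spec h k _ (MW_letters a ha) ht).2

theorem act_spec' (h : F4t r) (k : Kill r) {w t : ℕ} (hw : w < 1152) (ht : okT t) :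
    omc r w * Ec r t = Ec r (act w t) * omc r w := by
  have e1 : omc r w = omc r (48 * (w / 48)) * omc r (w % 48) := by
    rw [← omc_split h (by omega) (by omega)]; congr 1; omega
  have hdef : act w t = actb (w / 48) (acta (w % 48) t) := rfl
  have ho : okT (acta (w % 48) t) := okT_add _ _
  rw [hdef, e1, mul_assoc, acta_spec h k (by omega) ht, ← mul_assoc, actb_spec h k (by omega) ho,
    mul_assoc]

/-! ### Products of codes -/

/-- the element with code `X` -/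
noncomputable def val (r : ℕ → G) (X : ℕ) : G := Ec r (X / 2048) * omc r (X % 2048)

/-- a correct code -/
def okX (X : ℕ) : Prop := okT (X / 2048) ∧ X % 2048 < 1152

theorem xm_spec (h : F4t r) (k : Kill r) {X Y : ℕ} (hX : okX X) (hY : okX Y) :
    okX (xm X Y) ∧ val r (xm X Y) = val r X * val r Y := by
  have hdef : xm X Y = 2048 * add (X / 2048) (act (X % 2048) (Y / 2048)) +
    mul (X % 2048) (Y % 2048) := rfl
  obtain ⟨m1, m2⟩ := mul_spec' h hX.2 hY.2
  have q1 : xm X Y / 2048 = add (X / 2048) (act (X % 2048) (Y / 2048)) := by omega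
  have q2 : xm X Y % 2048 = mul (X % 2048) (Y % 2048) := by omega
  refine ⟨⟨by rw [q1]; exact okT_add _ _, by rw [q2]; exact m1⟩, ?_⟩
  unfold val
  rw [q1, q2, Ec_add h k hX.1 (okT_act _ _), m2]
  have := act_spec' h k hX.2 hY.1
  simp only [mul_assoc]
  rw [← mul_assoc (omc r (X % 2048)) (Ec r (Y / 2048)), this, mul_assoc]

theorem okX_w {w : ℕ} (hw : w < 1152) : okX w := by
  have q1 : w / 2048 = 0 := by omega
  have q2 : w % 2048 = w := by omega
  exact ⟨by rw [q1]; exact okT_zero, by rw [q2]; exact hw⟩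

theorem val_w {w : ℕ} (hw : w < 1152) : val r w = omc r w := by
  have q1 : w / 2048 = 0 := by omega
  have q2 : w % 2048 = w := by omega
  unfold val
  rw [q1, q2, Ec_zero, one_mul]

theorem omc_ga (h : F4t r) {g : ℕ} (h2 : 2 ≤ g) (h5 : g ≤ 5) : omc r (ga g) = r g := by
  have h1 := (Rf_spec h h2 h5 (x := 0) (by norm_num)).2
  rw [omc_zero, one_mul] at h1
  have e : Rf g 0 = ga g := by
    have hg : g = 2 ∨ g = 3 ∨ g = 4 ∨ g = 5 := by omega
    rcases hg with rfl | rfl | rfl | rfl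
    · exact K13.1.1
    · exact K13.1.2
    · exact K13.2.1
    · exact K13.2.2
  rw [← e, h1]

theorem w1_eq : w1 = [2, 3, 4, 3, 2, 5, 4, 3, 4, 5, 2, 3, 4, 3, 2] := rfl

theorem omc_1104 (h : F4t r) : omc r 1104 = s1 r := by
  have := (flR_spec h w1 Dce.w1_ok 0 (by norm_num)).2
  rw [omc_zero, one_mul, w1_eq, K11] at this
  exact this

theorem val_r1 (h : F4t r) : val r 3152 = r 1 := by
  have q1 : 3152 / 2048 = 1 := by norm_num
  have q2 : 3152 % 2048 = 1104 := by norm_num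
  unfold val
  rw [q1, q2, omc_1104 h, Ec]
  have e1 : nv 1 = -(2, -1, -1, -1) := by decide
  rw [e1, Dce.EE_neg h]
  have e2 := Dce.r1_eq h
  have e3 : (r 1)⁻¹ = r 1 := inv_eq_of_mul_eq_one_left (h.sq 1 le_rfl (by norm_num))
  have e4 : (s1 r)⁻¹ = s1 r := inv_eq_of_mul_eq_one_left (Dce.s1_sq h)
  rw [← e3, e2, mul_inv_rev, e4]

theorem okX_r1 : okX 3152 := by
  refine ⟨?_, ?_⟩
  · change Nat.land (3152 / 2048) 347 = 3152 / 2048
    decide
  · norm_num

end

end Pool.Agent.Lib.MP_c2d01e_co.Four
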