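import Pool.Agent.Lib.MP_c2d01e_co.Four.VM
import Pool.Agent.Lib.MP_c2d01e_co.Dce.Tab

/-!
# Kernel checks of the tables
-/

set_option autoImplicit false
set_option linter.all false

namespace Pool.Agent.Lib.MP_c2d01e_co.Four

open Pool.Agent.Lib.MP_c2d01e_co.Dce (getT TW)

/-- `f k` for all `k < n` -/
noncomputable def allN (f : Nat → Bool) (n : Nat) : Bool :=
  Nat.rec (motive := fun _ => Bool) true (fun k ih => cnd (f k) ih) n

/-- the codes of the generators -/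
noncomputable def ga (g : Nat) : Nat :=
  ite' (Nat.beq g 2) 48 (ite' (Nat.beq g 3) 6 (ite' (Nat.beq g 4) 1 2))

/-- right multiplication by a generator -/
noncomputable def Rf (g x : Nat) : Nat := mul x (ga g)

/-- right multiplication by a word -/
noncomputable def flR (l : List Nat) : Nat → Nat :=
  List.rec (motive := fun _ => Nat → Nat) (fun x => x) (fun g _ ih x => ih (Rf g x)) l

/-- words of the elements `< 48` -/
def LW : List (List Nat) := [[], [4], [5], [4, 5], [5, 4], [4, 5, 4], [3], [3, 4], [3, 5], [3, 4, 5], [3, 5, 4], [3, 4, 5, 4], [4, 3], [4, 3, 4], [4, 3, 5], [4, 3, 4, 5], [4, 3, 5, 4], [4, 3, 4, 5, 4], [3, 4, 3], [3, 4, 3, 4], [3, 4, 3, 5], [3, 4, 3, 4, 5], [3, 4, 3, 5, 4], [3, 4, 3, 4, 5, 4], [5, 4, 3], [5, 4, 3, 4], [4, 5, 4, 3], [5, 4, 3, 4, 5], [4, 5, 4, 3, 4], [4, 5, 4, 3, 4, 5], [3, 5, 4, 3], [3, 5, 4, 3, 4], [3, 4, 5, 4, 3], [3, 5, 4, 3, 4, 5], [3, 4, 5, 4, 3,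 4], [3, 4, 5, 4, 3, 4, 5], [4, 3, 5, 4, 3], [4, 3, 5, 4, 3, 4], [4, 3, 4, 5, 4, 3], [4, 3, 5, 4, 3, 4, 5], [4, 3, 4, 5, 4, 3, 4], [4, 3, 4, 5, 4, 3, 4, 5], [3, 4, 3, 5, 4, 3], [3, 4, 3, 5, 4, 3, 4], [3, 4, 3, 4, 5, 4, 3], [3, 4, 3, 5, 4, 3, 4, 5], [3, 4, 3, 4, 5, 4, 3, 4], [3, 4, 3, 4, 5, 4, 3, 4, 5]]

/-- words of the elements `48 b` -/
def MW : List (List Nat) := [[], [2], [3, 2], [4, 3, 2], [3, 4, 3, 2], [5, 4, 3, 2], [2, 3, 4, 3, 2], [3, 5, 4, 3, 2], [2, 3, 5, 4, 3, 2], [4, 3, 5, 4, 3, 2], [2, 4, 3, 5, 4, 3, 2], [3, 4, 3, 5, 4, 3, 2], [2, 3, 4, 3, 5, 4, 3, 2], [3, 2, 4, 3, 5, 4, 3, 2], [2, 3, 2, 4, 3, 5, 4, 3, 2], [4, 3, 2, 4, 3, 5, 4, 3, 2], [2, 4, 3, 2, 4, 3, 5, 4, 3, 2], [5, 4, 3, 2, 4, 3, 5, 4, 3, 2], [2, 5, 4, 3, 2, 4, 3, 5, 4, 3, 2], [3, 2, 4, 3, 2, 4, 3, 5, 4, 3, 2], [3, 2, 5, 4, 3, 2, 4, 3, 5, 4, 3, 2], [4, 3, 2, 5, 4, 3, 2, 4, 3, 5, 4, 3, 2], [3, 4, 3, 2, 5, 4, 3, 2, 4,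 3, 5, 4, 3, 2], [2, 3, 4, 3, 2, 5, 4, 3, 2, 4, 3, 5, 4, 3, 2]]

/-- check of the generators against the table `TW` -/
noncomputable def k1 (x : Nat) : Bool :=
  cnd (Nat.ble (Nat.succ (BFf x)) 1152) (cnd (Nat.ble (Nat.succ (Rf 2 x)) 1152)
    (cnd (Nat.ble (Nat.succ (Rf 3 x)) 1152) (cnd (Nat.ble (Nat.succ (Rf 4 x)) 1152)
      (cnd (Nat.ble (Nat.succ (Rf 5 x)) 1152)
        (cnd (Nat.beq (BFf (Rf 2 x)) (getT TW (BFf x) 2)) (cnd (Nat.beq (BFf (Rf 3 x)) (getT TW (BFf x) 3))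
          (cnd (Nat.beq (BFf (Rf 4 x)) (getT TW (BFf x) 4)) (Nat.beq (BFf (Rf 5 x)) (getT TW (BFf x) 5)))))))))

theorem K1 : allN k1 1152 = true := by decide +kernel

/-- `f 0 l0`, `f 1 l1`, ... -/
noncomputable def kL (f : Nat → List Nat → Bool) (L : List (List Nat)) : Nat → Bool :=
  List.rec (motive := fun _ => Nat → Bool) (fun _ => true) (fun l _ ih y =>
    cnd (f y l) (ih (Nat.succ y))) L

theorem K2 : kL (fun y l => allN (fun x => cnd (Nat.beq (TAf (Nat.add (Nat.mul 48 x) y)) (flR l x))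
    (Nat.ble (Nat.succ (TAf (Nat.add (Nat.mul 48 x) y))) 48)) 48) LW 0 = true := by decide +kernel

theorem K3 : kL (fun y l => allN (fun x => Nat.beq (Uf (Nat.add (Nat.mul 24 x) y)) (flR l x)) 48)
    MW 0 = true := by decide +kernel

theorem K4 : kL (fun y l => allN (fun x => Nat.beq (Vf (Nat.add (Nat.mul 24 x) y))
    (flR l (Nat.mul 48 x))) 24) MW 0 = true := by decide +kernel

theorem K5 : kL (fun y l => allN (fun x => Nat.beq (Nat.add (Nat.mul 48 x) y)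
    (flR l (Nat.mul 48 x))) 24) LW 0 = true := by decide +kernel

theorem K5b : allN (fun b => Nat.beq (Uf b) (Nat.mul 48 b)) 24 = true := by decide +kernel

theorem K6 : allN (fun w => cnd (Nat.ble (Nat.succ (IVf w)) 1152) (Nat.beq (mul (IVf w) w) 0)) 1152 =
    true := by decide +kernel

/-- `f t` for all codes of translations -/
noncomputable def allT (f : Nat → Bool) : Bool :=
  allN (fun t => iteb (Nat.beq (Nat.land t 347) t) (f t) true) 348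

/-- action of a word -/
noncomputable def flA (l : List Nat) (t : Nat) : Nat :=
  List.rec (motive := fun _ => Nat) t (fun g _ ih => act (ga g) ih) l

theorem K8 : kL (fun y l => allT (fun t => Nat.beq (acta y t) (flA l t))) LW 0 = true := by
  decide +kernel

theorem K8b : kL (fun y l => allT (fun t => Nat.beq (actb y t) (flA l t))) MW 0 = true := by
  decide +kernel

/-- product of codes of elements of `P` -/
noncomputable def xm (X Y : Nat) : Nat :=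
  Nat.add (Nat.mul 2048 (add (Nat.div X 2048) (act (Nat.mod X 2048) (Nat.div Y 2048))))
    (mul (Nat.mod X 2048) (Nat.mod Y 2048))

theorem K7A : allN (fun w => Nat.beq (PAf w) (xm w (xm 3152 0))) 1152 = true := by decide +kernel

theorem K7B : allN (fun w => Nat.beq (PBf w) (xm w (xm 3152 (xm 48 (xm 6 (xm 1 (xm 6 (xm 48 3152))))))))
    1152 = true := by decide +kernel

theorem K7C : allN (fun w => Nat.beq (PCf w) (xm w (xm 3152 (xm 48 (xm 6 1))))) 1152 = true := by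
  decide +kernel

theorem K11 : flR [2, 3, 4, 3, 2, 5, 4, 3, 4, 5, 2, 3, 4, 3, 2] 0 = 1104 := by decide +kernel

theorem K12 : BFf 0 = 0 := by decide +kernel

theorem K13 : (mul 0 48 = 48 ∧ mul 0 6 = 6) ∧ mul 0 1 = 1 ∧ mul 0 2 = 2 := by decide +kernel

end Pool.Agent.Lib.MP_c2d01e_co.Four
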