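import Pool.Agent.Lib.MP_c2d01e_co.Four.VM

/-!
# The certificate is correct, part 20

Generated.
-/

set_option autoImplicit false
set_option linter.all false

namespace Pool.Agent.Lib.MP_c2d01e_co.Four

theorem run_120 : cnd (runE 6387 34 38788 0x2134e0007a0b00025e9000072040e2617103860004bd04000900700d00025e7200006f28000180e01a0004bce672e0de50002a0088f729e6c0e80025e700004e04bb1c000e9590004bcd000024006eb00014512000979800016812f2c0003f6180000cd10000301b204000979400001bca0004804bca61b60b8200002e1c000900979380009ada516068b80018012b550004bc9c000e12b0000001a2c38ee853900025e4e0002a04bc7ddc4f3d40000375c0003c096fb80025e30000700d80007812f110001a3780000c0f0002a0256aa0009787000113100006602fc8c0012f0f00039928000fc0715a8001b9b400097878000c012f0e45ab57b00000b5d0000f020c438f35efdcc7255960000c0418871e7273000049cb0000e407944800205f98f3525680019812c39c793445800102d9000210247058f21772800019fa000660385d40009d2ac773458000108068b0e3ba550ef6d6f188000180d161c772cf5400082e90001501a2c38ee264963b9a2c0000600345871dd08230001d3b80001801e7f63b99c320005e8f0001f81255bc768e55444a0d65000180043260007f6d63b472180006604a8331d3201a029832bc000a80) (true) = true :=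 by decide +kernel


end Pool.Agent.Lib.MP_c2d01e_co.Four
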