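import Pool.Agent.Lib.MP_c2d01e_co.Four.R00
import Pool.Agent.Lib.MP_c2d01e_co.Four.R01
import Pool.Agent.Lib.MP_c2d01e_co.Four.R02
import Pool.Agent.Lib.MP_c2d01e_co.Four.R03
import Pool.Agent.Lib.MP_c2d01e_co.Four.R04
import Pool.Agent.Lib.MP_c2d01e_co.Four.R05
import Pool.Agent.Lib.MP_c2d01e_co.Four.R06
import Pool.Agent.Lib.MP_c2d01e_co.Four.R07
import Pool.Agent.Lib.MP_c2d01e_co.Four.R08
import Pool.Agent.Lib.MP_c2d01e_co.Four.R09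
import Pool.Agent.Lib.MP_c2d01e_co.Four.R10
import Pool.Agent.Lib.MP_c2d01e_co.Four.R11
import Pool.Agent.Lib.MP_c2d01e_co.Four.R12
import Pool.Agent.Lib.MP_c2d01e_co.Four.R13
import Pool.Agent.Lib.MP_c2d01e_co.Four.R14
import Pool.Agent.Lib.MP_c2d01e_co.Four.R15
import Pool.Agent.Lib.MP_c2d01e_co.Four.R16
import Pool.Agent.Lib.MP_c2d01e_co.Four.R17
import Pool.Agent.Lib.MP_c2d01e_co.Four.R18
import Pool.Agent.Lib.MP_c2d01e_co.Four.R19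
import Pool.Agent.Lib.MP_c2d01e_co.Four.R20
import Pool.Agent.Lib.MP_c2d01e_co.Four.Sem

/-!
# All facts of the certificate hold

Generated.
-/

set_option autoImplicit false
set_option linter.all false

namespace Pool.Agent.Lib.MP_c2d01e_co.Four

variable {G : Type*} [Group G] (S : Sem G)

/-- all edges with number `< n` and all stabilizer elements with number `< m` are correct -/
def Sem.Q (n m : ℕ) : Prop := (∀ e, e < n → S.HE e) ∧ ∀ s, s < m → S.HS s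

theorem c_0 (h : S.Q 1801 4) : S.Q 1801 388 := by
  obtain ⟨hn, hm⟩ := h
  have h := run_0
  obtain ⟨a, h⟩ := cnd_eq h
  have hm : ∀ e, e < 68 → S.HS e := S.runS_HS (n := 1801) hn 64 4 _ hm a
  obtain ⟨a, h⟩ := cnd_eq h
  have hm : ∀ e, e < 132 → S.HS e := S.runS_HS (n := 1801) hn 64 68 _ hm a
  obtain ⟨a, h⟩ := cnd_eq h
  have hm : ∀ e, e < 196 → S.HS e := S.runS_HS (n := 1801) hn 64 132 _ hm a
  obtain ⟨a, h⟩ := cnd_eq h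
  have hm : ∀ e, e < 260 → S.HS e := S.runS_HS (n := 1801) hn 64 196 _ hm a
  obtain ⟨a, h⟩ := cnd_eq h
  have hm : ∀ e, e < 324 → S.HS e := S.runS_HS (n := 1801) hn 64 260 _ hm a
  obtain ⟨a, h⟩ := cnd_eq h
  have hm : ∀ e, e < 388 → S.HS e := S.runS_HS (n := 1801) hn 64 324 _ hm a
  exact ⟨hn, hm⟩

theorem c_1 (h : S.Q 1801 388) : S.Q 1801 772 := by
  obtain ⟨hn, hm⟩ := h
  have h := run_1
  obtain ⟨a, h⟩ := cnd_eq h
  have hm : ∀ e, e < 452 → S.HS e := S.runS_HS (n := 1801) hn 64 388 _ hm a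
  obtain ⟨a, h⟩ := cnd_eq h
  have hm : ∀ e, e < 516 → S.HS e := S.runS_HS (n := 1801) hn 64 452 _ hm a
  obtain ⟨a, h⟩ := cnd_eq h
  have hm : ∀ e, e < 580 → S.HS e := S.runS_HS (n := 1801) hn 64 516 _ hm a
  obtain ⟨a, h⟩ := cnd_eq h
  have hm : ∀ e, e < 644 → S.HS e := S.runS_HS (n := 1801) hn 64 580 _ hm a
  obtain ⟨a, h⟩ := cnd_eq h
  have hm : ∀ e, e < 708 → S.HS e := S.runS_HS (n := 1801) hn 64 644 _ hm a
  obtain ⟨a, h⟩ := cnd_eq h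
  have hm : ∀ e, e < 772 → S.HS e := S.runS_HS (n := 1801) hn 64 708 _ hm a
  exact ⟨hn, hm⟩

theorem c_2 (h : S.Q 1801 772) : S.Q 1801 1156 := by
  obtain ⟨hn, hm⟩ := h
  have h := run_2
  obtain ⟨a, h⟩ := cnd_eq h
  have hm : ∀ e, e < 836 → S.HS e := S.runS_HS (n := 1801) hn 64 772 _ hm a
  obtain ⟨a, h⟩ := cnd_eq h
  have hm : ∀ e, e < 900 → S.HS e := S.runS_HS (n := 1801) hn 64 836 _ hm a
  obtain ⟨a, h⟩ := cnd_eq h
  have hm : ∀ e, e < 964 → S.HS e := S.runS_HS (n := 1801) hn 64 900 _ hm a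
  obtain ⟨a, h⟩ := cnd_eq h
  have hm : ∀ e, e < 1028 → S.HS e := S.runS_HS (n := 1801) hn 64 964 _ hm a
  obtain ⟨a, h⟩ := cnd_eq h
  have hm : ∀ e, e < 1092 → S.HS e := S.runS_HS (n := 1801) hn 64 1028 _ hm a
  obtain ⟨a, h⟩ := cnd_eq h
  have hm : ∀ e, e < 1156 → S.HS e := S.runS_HS (n := 1801) hn 64 1092 _ hm a
  exact ⟨hn, hm⟩

theorem c_3 (h : S.Q 1801 1156) : S.Q 1801 1540 := by
  obtain ⟨hn, hm⟩ := h
  have h := run_3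
  obtain ⟨a, h⟩ := cnd_eq h
  have hm : ∀ e, e < 1220 → S.HS e := S.runS_HS (n := 1801) hn 64 1156 _ hm a
  obtain ⟨a, h⟩ := cnd_eq h
  have hm : ∀ e, e < 1284 → S.HS e := S.runS_HS (n := 1801) hn 64 1220 _ hm a
  obtain ⟨a, h⟩ := cnd_eq h
  have hm : ∀ e, e < 1348 → S.HS e := S.runS_HS (n := 1801) hn 64 1284 _ hm a
  obtain ⟨a, h⟩ := cnd_eq h
  have hm : ∀ e, e < 1412 → S.HS e := S.runS_HS (n := 1801) hn 64 1348 _ hm a
  obtain ⟨a, h⟩ := cnd_eq h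
  have hm : ∀ e, e < 1476 → S.HS e := S.runS_HS (n := 1801) hn 64 1412 _ hm a
  obtain ⟨a, h⟩ := cnd_eq h
  have hm : ∀ e, e < 1540 → S.HS e := S.runS_HS (n := 1801) hn 64 1476 _ hm a
  exact ⟨hn, hm⟩

theorem c_4 (h : S.Q 1801 1540) : S.Q 1801 1924 := by
  obtain ⟨hn, hm⟩ := h
  have h := run_4
  obtain ⟨a, h⟩ := cnd_eq h
  have hm : ∀ e, e < 1604 → S.HS e := S.runS_HS (n := 1801) hn 64 1540 _ hm a
  obtain ⟨a, h⟩ := cnd_eq h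
  have hm : ∀ e, e < 1668 → S.HS e := S.runS_HS (n := 1801) hn 64 1604 _ hm a
  obtain ⟨a, h⟩ := cnd_eq h
  have hm : ∀ e, e < 1732 → S.HS e := S.runS_HS (n := 1801) hn 64 1668 _ hm a
  obtain ⟨a, h⟩ := cnd_eq h
  have hm : ∀ e, e < 1796 → S.HS e := S.runS_HS (n := 1801) hn 64 1732 _ hm a
  obtain ⟨a, h⟩ := cnd_eq h
  have hm : ∀ e, e < 1860 → S.HS e := S.runS_HS (n := 1801) hn 64 1796 _ hm a
  obtain ⟨a, h⟩ := cnd_eq h
  have hm : ∀ e, e < 1924 → S.HS e := S.runS_HS (n := 1801) hn 64 1860 _ hm a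
  exact ⟨hn, hm⟩

theorem c_5 (h : S.Q 1801 1924) : S.Q 1801 2308 := by
  obtain ⟨hn, hm⟩ := h
  have h := run_5
  obtain ⟨a, h⟩ := cnd_eq h
  have hm : ∀ e, e < 1988 → S.HS e := S.runS_HS (n := 1801) hn 64 1924 _ hm a
  obtain ⟨a, h⟩ := cnd_eq h
  have hm : ∀ e, e < 2052 → S.HS e := S.runS_HS (n := 1801) hn 64 1988 _ hm a
  obtain ⟨a, h⟩ := cnd_eq h
  have hm : ∀ e, e < 2116 → S.HS e := S.runS_HS (n := 1801) hn 64 2052 _ hm a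
  obtain ⟨a, h⟩ := cnd_eq h
  have hm : ∀ e, e < 2180 → S.HS e := S.runS_HS (n := 1801) hn 64 2116 _ hm a
  obtain ⟨a, h⟩ := cnd_eq h
  have hm : ∀ e, e < 2244 → S.HS e := S.runS_HS (n := 1801) hn 64 2180 _ hm a
  obtain ⟨a, h⟩ := cnd_eq h
  have hm : ∀ e, e < 2308 → S.HS e := S.runS_HS (n := 1801) hn 64 2244 _ hm a
  exact ⟨hn, hm⟩

theorem c_6 (h : S.Q 1801 2308) : S.Q 1801 2692 := by
  obtain ⟨hn, hm⟩ := h
  have h := run_6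
  obtain ⟨a, h⟩ := cnd_eq h
  have hm : ∀ e, e < 2372 → S.HS e := S.runS_HS (n := 1801) hn 64 2308 _ hm a
  obtain ⟨a, h⟩ := cnd_eq h
  have hm : ∀ e, e < 2436 → S.HS e := S.runS_HS (n := 1801) hn 64 2372 _ hm a
  obtain ⟨a, h⟩ := cnd_eq h
  have hm : ∀ e, e < 2500 → S.HS e := S.runS_HS (n := 1801) hn 64 2436 _ hm a
  obtain ⟨a, h⟩ := cnd_eq h
  have hm : ∀ e, e < 2564 → S.HS e := S.runS_HS (n := 1801) hn 64 2500 _ hm a
  obtain ⟨a, h⟩ := cnd_eq h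
  have hm : ∀ e, e < 2628 → S.HS e := S.runS_HS (n := 1801) hn 64 2564 _ hm a
  obtain ⟨a, h⟩ := cnd_eq h
  have hm : ∀ e, e < 2692 → S.HS e := S.runS_HS (n := 1801) hn 64 2628 _ hm a
  exact ⟨hn, hm⟩

theorem c_7 (h : S.Q 1801 2692) : S.Q 1801 3076 := by
  obtain ⟨hn, hm⟩ := h
  have h := run_7
  obtain ⟨a, h⟩ := cnd_eq h
  have hm : ∀ e, e < 2756 → S.HS e := S.runS_HS (n := 1801) hn 64 2692 _ hm a
  obtain ⟨a, h⟩ := cnd_eq h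
  have hm : ∀ e, e < 2820 → S.HS e := S.runS_HS (n := 1801) hn 64 2756 _ hm a
  obtain ⟨a, h⟩ := cnd_eq h
  have hm : ∀ e, e < 2884 → S.HS e := S.runS_HS (n := 1801) hn 64 2820 _ hm a
  obtain ⟨a, h⟩ := cnd_eq h
  have hm : ∀ e, e < 2948 → S.HS e := S.runS_HS (n := 1801) hn 64 2884 _ hm a
  obtain ⟨a, h⟩ := cnd_eq h
  have hm : ∀ e, e < 3012 → S.HS e := S.runS_HS (n := 1801) hn 64 2948 _ hm a
  obtain ⟨a, h⟩ := cnd_eq h
  have hm : ∀ e, e < 3076 → S.HS e := S.runS_HS (n := 1801) hn 64 3012 _ hm a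
  exact ⟨hn, hm⟩

theorem c_8 (h : S.Q 1801 3076) : S.Q 1801 3460 := by
  obtain ⟨hn, hm⟩ := h
  have h := run_8
  obtain ⟨a, h⟩ := cnd_eq h
  have hm : ∀ e, e < 3140 → S.HS e := S.runS_HS (n := 1801) hn 64 3076 _ hm a
  obtain ⟨a, h⟩ := cnd_eq h
  have hm : ∀ e, e < 3204 → S.HS e := S.runS_HS (n := 1801) hn 64 3140 _ hm a
  obtain ⟨a, h⟩ := cnd_eq h
  have hm : ∀ e, e < 3268 → S.HS e := S.runS_HS (n := 1801) hn 64 3204 _ hm a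
  obtain ⟨a, h⟩ := cnd_eq h
  have hm : ∀ e, e < 3332 → S.HS e := S.runS_HS (n := 1801) hn 64 3268 _ hm a
  obtain ⟨a, h⟩ := cnd_eq h
  have hm : ∀ e, e < 3396 → S.HS e := S.runS_HS (n := 1801) hn 64 3332 _ hm a
  obtain ⟨a, h⟩ := cnd_eq h
  have hm : ∀ e, e < 3460 → S.HS e := S.runS_HS (n := 1801) hn 64 3396 _ hm a
  exact ⟨hn, hm⟩

theorem c_9 (h : S.Q 1801 3460) : S.Q 1801 3844 := by
  obtain ⟨hn, hm⟩ := h
  have h := run_9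
  obtain ⟨a, h⟩ := cnd_eq h
  have hm : ∀ e, e < 3524 → S.HS e := S.runS_HS (n := 1801) hn 64 3460 _ hm a
  obtain ⟨a, h⟩ := cnd_eq h
  have hm : ∀ e, e < 3588 → S.HS e := S.runS_HS (n := 1801) hn 64 3524 _ hm a
  obtain ⟨a, h⟩ := cnd_eq h
  have hm : ∀ e, e < 3652 → S.HS e := S.runS_HS (n := 1801) hn 64 3588 _ hm a
  obtain ⟨a, h⟩ := cnd_eq h
  have hm : ∀ e, e < 3716 → S.HS e := S.runS_HS (n := 1801) hn 64 3652 _ hm a
  obtain ⟨a, h⟩ := cnd_eq h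
  have hm : ∀ e, e < 3780 → S.HS e := S.runS_HS (n := 1801) hn 64 3716 _ hm a
  obtain ⟨a, h⟩ := cnd_eq h
  have hm : ∀ e, e < 3844 → S.HS e := S.runS_HS (n := 1801) hn 64 3780 _ hm a
  exact ⟨hn, hm⟩

theorem c_10 (h : S.Q 1801 3844) : S.Q 1801 4228 := by
  obtain ⟨hn, hm⟩ := h
  have h := run_10
  obtain ⟨a, h⟩ := cnd_eq h
  have hm : ∀ e, e < 3908 → S.HS e := S.runS_HS (n := 1801) hn 64 3844 _ hm a
  obtain ⟨a, h⟩ := cnd_eq h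
  have hm : ∀ e, e < 3972 → S.HS e := S.runS_HS (n := 1801) hn 64 3908 _ hm a
  obtain ⟨a, h⟩ := cnd_eq h
  have hm : ∀ e, e < 4036 → S.HS e := S.runS_HS (n := 1801) hn 64 3972 _ hm a
  obtain ⟨a, h⟩ := cnd_eq h
  have hm : ∀ e, e < 4100 → S.HS e := S.runS_HS (n := 1801) hn 64 4036 _ hm a
  obtain ⟨a, h⟩ := cnd_eq h
  have hm : ∀ e, e < 4164 → S.HS e := S.runS_HS (n := 1801) hn 64 4100 _ hm a
  obtain ⟨a, h⟩ := cnd_eq h
  have hm : ∀ e, e < 4228 → S.HS e := S.runS_HS (n := 1801) hn 64 4164 _ hm a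
  exact ⟨hn, hm⟩

theorem c_11 (h : S.Q 1801 4228) : S.Q 1801 4612 := by
  obtain ⟨hn, hm⟩ := h
  have h := run_11
  obtain ⟨a, h⟩ := cnd_eq h
  have hm : ∀ e, e < 4292 → S.HS e := S.runS_HS (n := 1801) hn 64 4228 _ hm a
  obtain ⟨a, h⟩ := cnd_eq h
  have hm : ∀ e, e < 4356 → S.HS e := S.runS_HS (n := 1801) hn 64 4292 _ hm a
  obtain ⟨a, h⟩ := cnd_eq h
  have hm : ∀ e, e < 4420 → S.HS e := S.runS_HS (n := 1801) hn 64 4356 _ hm a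
  obtain ⟨a, h⟩ := cnd_eq h
  have hm : ∀ e, e < 4484 → S.HS e := S.runS_HS (n := 1801) hn 64 4420 _ hm a
  obtain ⟨a, h⟩ := cnd_eq h
  have hm : ∀ e, e < 4548 → S.HS e := S.runS_HS (n := 1801) hn 64 4484 _ hm a
  obtain ⟨a, h⟩ := cnd_eq h
  have hm : ∀ e, e < 4612 → S.HS e := S.runS_HS (n := 1801) hn 64 4548 _ hm a
  exact ⟨hn, hm⟩

theorem c_12 (h : S.Q 1801 4612) : S.Q 1801 4718 := by
  obtain ⟨hn, hm⟩ := h
  have h := run_12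
  obtain ⟨a, h⟩ := cnd_eq h
  have hm : ∀ e, e < 4676 → S.HS e := S.runS_HS (n := 1801) hn 64 4612 _ hm a
  obtain ⟨a, h⟩ := cnd_eq h
  have hm : ∀ e, e < 4718 → S.HS e := S.runS_HS (n := 1801) hn 42 4676 _ hm a
  exact ⟨hn, hm⟩

theorem c_13 (h : S.Q 1801 4718) : S.Q 2185 4718 := by
  obtain ⟨hn, hm⟩ := h
  have h := run_13
  obtain ⟨a, h⟩ := cnd_eq h
  have hn : ∀ e, e < 1865 → S.HE e := S.runE_HE hm 64 1801 _ hn a
  obtain ⟨a, h⟩ := cnd_eq h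
  have hn : ∀ e, e < 1929 → S.HE e := S.runE_HE hm 64 1865 _ hn a
  obtain ⟨a, h⟩ := cnd_eq h
  have hn : ∀ e, e < 1993 → S.HE e := S.runE_HE hm 64 1929 _ hn a
  obtain ⟨a, h⟩ := cnd_eq h
  have hn : ∀ e, e < 2057 → S.HE e := S.runE_HE hm 64 1993 _ hn a
  obtain ⟨a, h⟩ := cnd_eq h
  have hn : ∀ e, e < 2121 → S.HE e := S.runE_HE hm 64 2057 _ hn a
  obtain ⟨a, h⟩ := cnd_eq h
  have hn : ∀ e, e < 2185 → S.HE e := S.runE_HE hm 64 2121 _ hn a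
  exact ⟨hn, hm⟩

theorem c_14 (h : S.Q 2185 4718) : S.Q 2569 4718 := by
  obtain ⟨hn, hm⟩ := h
  have h := run_14
  obtain ⟨a, h⟩ := cnd_eq h
  have hn : ∀ e, e < 2249 → S.HE e := S.runE_HE hm 64 2185 _ hn a
  obtain ⟨a, h⟩ := cnd_eq h
  have hn : ∀ e, e < 2313 → S.HE e := S.runE_HE hm 64 2249 _ hn a
  obtain ⟨a, h⟩ := cnd_eq h
  have hn : ∀ e, e < 2377 → S.HE e := S.runE_HE hm 64 2313 _ hn a
  obtain ⟨a, h⟩ := cnd_eq h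
  have hn : ∀ e, e < 2441 → S.HE e := S.runE_HE hm 64 2377 _ hn a
  obtain ⟨a, h⟩ := cnd_eq h
  have hn : ∀ e, e < 2505 → S.HE e := S.runE_HE hm 64 2441 _ hn a
  obtain ⟨a, h⟩ := cnd_eq h
  have hn : ∀ e, e < 2569 → S.HE e := S.runE_HE hm 64 2505 _ hn a
  exact ⟨hn, hm⟩

theorem c_15 (h : S.Q 2569 4718) : S.Q 2953 4718 := by
  obtain ⟨hn, hm⟩ := h
  have h := run_15
  obtain ⟨a, h⟩ := cnd_eq h
  have hn : ∀ e, e < 2633 → S.HE e := S.runE_HE hm 64 2569 _ hn a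
  obtain ⟨a, h⟩ := cnd_eq h
  have hn : ∀ e, e < 2697 → S.HE e := S.runE_HE hm 64 2633 _ hn a
  obtain ⟨a, h⟩ := cnd_eq h
  have hn : ∀ e, e < 2761 → S.HE e := S.runE_HE hm 64 2697 _ hn a
  obtain ⟨a, h⟩ := cnd_eq h
  have hn : ∀ e, e < 2825 → S.HE e := S.runE_HE hm 64 2761 _ hn a
  obtain ⟨a, h⟩ := cnd_eq h
  have hn : ∀ e, e < 2889 → S.HE e := S.runE_HE hm 64 2825 _ hn a
  obtain ⟨a, h⟩ := cnd_eq h
  have hn : ∀ e, e < 2953 → S.HE e := S.runE_HE hm 64 2889 _ hn a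
  exact ⟨hn, hm⟩

theorem c_16 (h : S.Q 2953 4718) : S.Q 3337 4718 := by
  obtain ⟨hn, hm⟩ := h
  have h := run_16
  obtain ⟨a, h⟩ := cnd_eq h
  have hn : ∀ e, e < 3017 → S.HE e := S.runE_HE hm 64 2953 _ hn a
  obtain ⟨a, h⟩ := cnd_eq h
  have hn : ∀ e, e < 3081 → S.HE e := S.runE_HE hm 64 3017 _ hn a
  obtain ⟨a, h⟩ := cnd_eq h
  have hn : ∀ e, e < 3145 → S.HE e := S.runE_HE hm 64 3081 _ hn a
  obtain ⟨a, h⟩ := cnd_eq h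
  have hn : ∀ e, e < 3209 → S.HE e := S.runE_HE hm 64 3145 _ hn a
  obtain ⟨a, h⟩ := cnd_eq h
  have hn : ∀ e, e < 3273 → S.HE e := S.runE_HE hm 64 3209 _ hn a
  obtain ⟨a, h⟩ := cnd_eq h
  have hn : ∀ e, e < 3337 → S.HE e := S.runE_HE hm 64 3273 _ hn a
  exact ⟨hn, hm⟩

theorem c_17 (h : S.Q 3337 4718) : S.Q 3721 4718 := by
  obtain ⟨hn, hm⟩ := h
  have h := run_17
  obtain ⟨a, h⟩ := cnd_eq h
  have hn : ∀ e, e < 3401 → S.HE e := S.runE_HE hm 64 3337 _ hn a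
  obtain ⟨a, h⟩ := cnd_eq h
  have hn : ∀ e, e < 3465 → S.HE e := S.runE_HE hm 64 3401 _ hn a
  obtain ⟨a, h⟩ := cnd_eq h
  have hn : ∀ e, e < 3529 → S.HE e := S.runE_HE hm 64 3465 _ hn a
  obtain ⟨a, h⟩ := cnd_eq h
  have hn : ∀ e, e < 3593 → S.HE e := S.runE_HE hm 64 3529 _ hn a
  obtain ⟨a, h⟩ := cnd_eq h
  have hn : ∀ e, e < 3657 → S.HE e := S.runE_HE hm 64 3593 _ hn a
  obtain ⟨a, h⟩ := cnd_eq h
  have hn : ∀ e, e < 3721 → S.HE e := S.runE_HE hm 64 3657 _ hn a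
  exact ⟨hn, hm⟩

theorem c_18 (h : S.Q 3721 4718) : S.Q 4105 4718 := by
  obtain ⟨hn, hm⟩ := h
  have h := run_18
  obtain ⟨a, h⟩ := cnd_eq h
  have hn : ∀ e, e < 3785 → S.HE e := S.runE_HE hm 64 3721 _ hn a
  obtain ⟨a, h⟩ := cnd_eq h
  have hn : ∀ e, e < 3849 → S.HE e := S.runE_HE hm 64 3785 _ hn a
  obtain ⟨a, h⟩ := cnd_eq h
  have hn : ∀ e, e < 3913 → S.HE e := S.runE_HE hm 64 3849 _ hn a
  obtain ⟨a, h⟩ := cnd_eq h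
  have hn : ∀ e, e < 3977 → S.HE e := S.runE_HE hm 64 3913 _ hn a
  obtain ⟨a, h⟩ := cnd_eq h
  have hn : ∀ e, e < 4041 → S.HE e := S.runE_HE hm 64 3977 _ hn a
  obtain ⟨a, h⟩ := cnd_eq h
  have hn : ∀ e, e < 4105 → S.HE e := S.runE_HE hm 64 4041 _ hn a
  exact ⟨hn, hm⟩

theorem c_19 (h : S.Q 4105 4718) : S.Q 4489 4718 := by
  obtain ⟨hn, hm⟩ := h
  have h := run_19
  obtain ⟨a, h⟩ := cnd_eq h
  have hn : ∀ e, e < 4169 → S.HE e := S.runE_HE hm 64 4105 _ hn a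
  obtain ⟨a, h⟩ := cnd_eq h
  have hn : ∀ e, e < 4233 → S.HE e := S.runE_HE hm 64 4169 _ hn a
  obtain ⟨a, h⟩ := cnd_eq h
  have hn : ∀ e, e < 4297 → S.HE e := S.runE_HE hm 64 4233 _ hn a
  obtain ⟨a, h⟩ := cnd_eq h
  have hn : ∀ e, e < 4361 → S.HE e := S.runE_HE hm 64 4297 _ hn a
  obtain ⟨a, h⟩ := cnd_eq h
  have hn : ∀ e, e < 4425 → S.HE e := S.runE_HE hm 64 4361 _ hn a
  obtain ⟨a, h⟩ := cnd_eq h
  have hn : ∀ e, e < 4489 → S.HE e := S.runE_HE hm 64 4425 _ hn a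
  exact ⟨hn, hm⟩

theorem c_20 (h : S.Q 4489 4718) : S.Q 4873 4718 := by
  obtain ⟨hn, hm⟩ := h
  have h := run_20
  obtain ⟨a, h⟩ := cnd_eq h
  have hn : ∀ e, e < 4553 → S.HE e := S.runE_HE hm 64 4489 _ hn a
  obtain ⟨a, h⟩ := cnd_eq h
  have hn : ∀ e, e < 4617 → S.HE e := S.runE_HE hm 64 4553 _ hn a
  obtain ⟨a, h⟩ := cnd_eq h
  have hn : ∀ e, e < 4681 → S.HE e := S.runE_HE hm 64 4617 _ hn a
  obtain ⟨a, h⟩ := cnd_eq h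
  have hn : ∀ e, e < 4745 → S.HE e := S.runE_HE hm 64 4681 _ hn a
  obtain ⟨a, h⟩ := cnd_eq h
  have hn : ∀ e, e < 4809 → S.HE e := S.runE_HE hm 64 4745 _ hn a
  obtain ⟨a, h⟩ := cnd_eq h
  have hn : ∀ e, e < 4873 → S.HE e := S.runE_HE hm 64 4809 _ hn a
  exact ⟨hn, hm⟩

theorem c_21 (h : S.Q 4873 4718) : S.Q 5257 4718 := by
  obtain ⟨hn, hm⟩ := h
  have h := run_21
  obtain ⟨a, h⟩ := cnd_eq h
  have hn : ∀ e, e < 4937 → S.HE e := S.runE_HE hm 64 4873 _ hn a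
  obtain ⟨a, h⟩ := cnd_eq h
  have hn : ∀ e, e < 5001 → S.HE e := S.runE_HE hm 64 4937 _ hn a
  obtain ⟨a, h⟩ := cnd_eq h
  have hn : ∀ e, e < 5065 → S.HE e := S.runE_HE hm 64 5001 _ hn a
  obtain ⟨a, h⟩ := cnd_eq h
  have hn : ∀ e, e < 5129 → S.HE e := S.runE_HE hm 64 5065 _ hn a
  obtain ⟨a, h⟩ := cnd_eq h
  have hn : ∀ e, e < 5193 → S.HE e := S.runE_HE hm 64 5129 _ hn a
  obtain ⟨a, h⟩ := cnd_eq h
  have hn : ∀ e, e < 5257 → S.HE e := S.runE_HE hm 64 5193 _ hn a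
  exact ⟨hn, hm⟩

theorem c_22 (h : S.Q 5257 4718) : S.Q 5641 4718 := by
  obtain ⟨hn, hm⟩ := h
  have h := run_22
  obtain ⟨a, h⟩ := cnd_eq h
  have hn : ∀ e, e < 5321 → S.HE e := S.runE_HE hm 64 5257 _ hn a
  obtain ⟨a, h⟩ := cnd_eq h
  have hn : ∀ e, e < 5385 → S.HE e := S.runE_HE hm 64 5321 _ hn a
  obtain ⟨a, h⟩ := cnd_eq h
  have hn : ∀ e, e < 5449 → S.HE e := S.runE_HE hm 64 5385 _ hn a
  obtain ⟨a, h⟩ := cnd_eq h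
  have hn : ∀ e, e < 5513 → S.HE e := S.runE_HE hm 64 5449 _ hn a
  obtain ⟨a, h⟩ := cnd_eq h
  have hn : ∀ e, e < 5577 → S.HE e := S.runE_HE hm 64 5513 _ hn a
  obtain ⟨a, h⟩ := cnd_eq h
  have hn : ∀ e, e < 5641 → S.HE e := S.runE_HE hm 64 5577 _ hn a
  exact ⟨hn, hm⟩

theorem c_23 (h : S.Q 5641 4718) : S.Q 6025 4718 := by
  obtain ⟨hn, hm⟩ := h
  have h := run_23
  obtain ⟨a, h⟩ := cnd_eq h
  have hn : ∀ e, e < 5705 → S.HE e := S.runE_HE hm 64 5641 _ hn a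
  obtain ⟨a, h⟩ := cnd_eq h
  have hn : ∀ e, e < 5769 → S.HE e := S.runE_HE hm 64 5705 _ hn a
  obtain ⟨a, h⟩ := cnd_eq h
  have hn : ∀ e, e < 5833 → S.HE e := S.runE_HE hm 64 5769 _ hn a
  obtain ⟨a, h⟩ := cnd_eq h
  have hn : ∀ e, e < 5897 → S.HE e := S.runE_HE hm 64 5833 _ hn a
  obtain ⟨a, h⟩ := cnd_eq h
  have hn : ∀ e, e < 5961 → S.HE e := S.runE_HE hm 64 5897 _ hn a
  obtain ⟨a, h⟩ := cnd_eq h
  have hn : ∀ e, e < 6025 → S.HE e := S.runE_HE hm 64 5961 _ hn a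
  exact ⟨hn, hm⟩

theorem c_24 (h : S.Q 6025 4718) : S.Q 6151 4718 := by
  obtain ⟨hn, hm⟩ := h
  have h := run_24
  obtain ⟨a, h⟩ := cnd_eq h
  have hn : ∀ e, e < 6089 → S.HE e := S.runE_HE hm 64 6025 _ hn a
  obtain ⟨a, h⟩ := cnd_eq h
  have hn : ∀ e, e < 6151 → S.HE e := S.runE_HE hm 62 6089 _ hn a
  exact ⟨hn, hm⟩

theorem c_25 (h : S.Q 6151 4718) : S.Q 6151 5086 := by
  obtain ⟨hn, hm⟩ := h
  have h := run_25
  obtain ⟨a, h⟩ := cnd_eq h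
  have hm : ∀ e, e < 4782 → S.HS e := S.runS_HS (n := 6151) hn 64 4718 _ hm a
  obtain ⟨a, h⟩ := cnd_eq h
  have hm : ∀ e, e < 4846 → S.HS e := S.runS_HS (n := 6151) hn 64 4782 _ hm a
  obtain ⟨a, h⟩ := cnd_eq h
  have hm : ∀ e, e < 4910 → S.HS e := S.runS_HS (n := 6151) hn 64 4846 _ hm a
  obtain ⟨a, h⟩ := cnd_eq h
  have hm : ∀ e, e < 4974 → S.HS e := S.runS_HS (n := 6151) hn 64 4910 _ hm a
  obtain ⟨a, h⟩ := cnd_eq h
  have hm : ∀ e, e < 5038 → S.HS e := S.runS_HS (n := 6151) hn 64 4974 _ hm a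
  obtain ⟨a, h⟩ := cnd_eq h
  have hm : ∀ e, e < 5086 → S.HS e := S.runS_HS (n := 6151) hn 48 5038 _ hm a
  exact ⟨hn, hm⟩

theorem c_26 (h : S.Q 6151 5086) : S.Q 6535 5086 := by
  obtain ⟨hn, hm⟩ := h
  have h := run_26
  obtain ⟨a, h⟩ := cnd_eq h
  have hn : ∀ e, e < 6215 → S.HE e := S.runE_HE hm 64 6151 _ hn a
  obtain ⟨a, h⟩ := cnd_eq h
  have hn : ∀ e, e < 6279 → S.HE e := S.runE_HE hm 64 6215 _ hn a
  obtain ⟨a, h⟩ := cnd_eq h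
  have hn : ∀ e, e < 6343 → S.HE e := S.runE_HE hm 64 6279 _ hn a
  obtain ⟨a, h⟩ := cnd_eq h
  have hn : ∀ e, e < 6407 → S.HE e := S.runE_HE hm 64 6343 _ hn a
  obtain ⟨a, h⟩ := cnd_eq h
  have hn : ∀ e, e < 6471 → S.HE e := S.runE_HE hm 64 6407 _ hn a
  obtain ⟨a, h⟩ := cnd_eq h
  have hn : ∀ e, e < 6535 → S.HE e := S.runE_HE hm 64 6471 _ hn a
  exact ⟨hn, hm⟩

theorem c_27 (h : S.Q 6535 5086) : S.Q 6919 5086 := by
  obtain ⟨hn, hm⟩ := h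
  have h := run_27
  obtain ⟨a, h⟩ := cnd_eq h
  have hn : ∀ e, e < 6599 → S.HE e := S.runE_HE hm 64 6535 _ hn a
  obtain ⟨a, h⟩ := cnd_eq h
  have hn : ∀ e, e < 6663 → S.HE e := S.runE_HE hm 64 6599 _ hn a
  obtain ⟨a, h⟩ := cnd_eq h
  have hn : ∀ e, e < 6727 → S.HE e := S.runE_HE hm 64 6663 _ hn a
  obtain ⟨a, h⟩ := cnd_eq h
  have hn : ∀ e, e < 6791 → S.HE e := S.runE_HE hm 64 6727 _ hn a
  obtain ⟨a, h⟩ := cnd_eq h
  have hn : ∀ e, e < 6855 → S.HE e := S.runE_HE hm 64 6791 _ hn a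
  obtain ⟨a, h⟩ := cnd_eq h
  have hn : ∀ e, e < 6919 → S.HE e := S.runE_HE hm 64 6855 _ hn a
  exact ⟨hn, hm⟩

theorem c_28 (h : S.Q 6919 5086) : S.Q 7303 5086 := by
  obtain ⟨hn, hm⟩ := h
  have h := run_28
  obtain ⟨a, h⟩ := cnd_eq h
  have hn : ∀ e, e < 6983 → S.HE e := S.runE_HE hm 64 6919 _ hn a
  obtain ⟨a, h⟩ := cnd_eq h
  have hn : ∀ e, e < 7047 → S.HE e := S.runE_HE hm 64 6983 _ hn a
  obtain ⟨a, h⟩ := cnd_eq h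
  have hn : ∀ e, e < 7111 → S.HE e := S.runE_HE hm 64 7047 _ hn a
  obtain ⟨a, h⟩ := cnd_eq h
  have hn : ∀ e, e < 7175 → S.HE e := S.runE_HE hm 64 7111 _ hn a
  obtain ⟨a, h⟩ := cnd_eq h
  have hn : ∀ e, e < 7239 → S.HE e := S.runE_HE hm 64 7175 _ hn a
  obtain ⟨a, h⟩ := cnd_eq h
  have hn : ∀ e, e < 7303 → S.HE e := S.runE_HE hm 64 7239 _ hn a
  exact ⟨hn, hm⟩

theorem c_29 (h : S.Q 7303 5086) : S.Q 7687 5086 := by
  obtain ⟨hn, hm⟩ := h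
  have h := run_29
  obtain ⟨a, h⟩ := cnd_eq h
  have hn : ∀ e, e < 7367 → S.HE e := S.runE_HE hm 64 7303 _ hn a
  obtain ⟨a, h⟩ := cnd_eq h
  have hn : ∀ e, e < 7431 → S.HE e := S.runE_HE hm 64 7367 _ hn a
  obtain ⟨a, h⟩ := cnd_eq h
  have hn : ∀ e, e < 7495 → S.HE e := S.runE_HE hm 64 7431 _ hn a
  obtain ⟨a, h⟩ := cnd_eq h
  have hn : ∀ e, e < 7559 → S.HE e := S.runE_HE hm 64 7495 _ hn a
  obtain ⟨a, h⟩ := cnd_eq h
  have hn : ∀ e, e < 7623 → S.HE e := S.runE_HE hm 64 7559 _ hn a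
  obtain ⟨a, h⟩ := cnd_eq h
  have hn : ∀ e, e < 7687 → S.HE e := S.runE_HE hm 64 7623 _ hn a
  exact ⟨hn, hm⟩

theorem c_30 (h : S.Q 7687 5086) : S.Q 8071 5086 := by
  obtain ⟨hn, hm⟩ := h
  have h := run_30
  obtain ⟨a, h⟩ := cnd_eq h
  have hn : ∀ e, e < 7751 → S.HE e := S.runE_HE hm 64 7687 _ hn a
  obtain ⟨a, h⟩ := cnd_eq h
  have hn : ∀ e, e < 7815 → S.HE e := S.runE_HE hm 64 7751 _ hn a
  obtain ⟨a, h⟩ := cnd_eq h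
  have hn : ∀ e, e < 7879 → S.HE e := S.runE_HE hm 64 7815 _ hn a
  obtain ⟨a, h⟩ := cnd_eq h
  have hn : ∀ e, e < 7943 → S.HE e := S.runE_HE hm 64 7879 _ hn a
  obtain ⟨a, h⟩ := cnd_eq h
  have hn : ∀ e, e < 8007 → S.HE e := S.runE_HE hm 64 7943 _ hn a
  obtain ⟨a, h⟩ := cnd_eq h
  have hn : ∀ e, e < 8071 → S.HE e := S.runE_HE hm 64 8007 _ hn a
  exact ⟨hn, hm⟩

theorem c_31 (h : S.Q 8071 5086) : S.Q 8455 5086 := by
  obtain ⟨hn, hm⟩ := h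
  have h := run_31
  obtain ⟨a, h⟩ := cnd_eq h
  have hn : ∀ e, e < 8135 → S.HE e := S.runE_HE hm 64 8071 _ hn a
  obtain ⟨a, h⟩ := cnd_eq h
  have hn : ∀ e, e < 8199 → S.HE e := S.runE_HE hm 64 8135 _ hn a
  obtain ⟨a, h⟩ := cnd_eq h
  have hn : ∀ e, e < 8263 → S.HE e := S.runE_HE hm 64 8199 _ hn a
  obtain ⟨a, h⟩ := cnd_eq h
  have hn : ∀ e, e < 8327 → S.HE e := S.runE_HE hm 64 8263 _ hn a
  obtain ⟨a, h⟩ := cnd_eq h
  have hn : ∀ e, e < 8391 → S.HE e := S.runE_HE hm 64 8327 _ hn a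
  obtain ⟨a, h⟩ := cnd_eq h
  have hn : ∀ e, e < 8455 → S.HE e := S.runE_HE hm 64 8391 _ hn a
  exact ⟨hn, hm⟩

theorem c_32 (h : S.Q 8455 5086) : S.Q 8839 5086 := by
  obtain ⟨hn, hm⟩ := h
  have h := run_32
  obtain ⟨a, h⟩ := cnd_eq h
  have hn : ∀ e, e < 8519 → S.HE e := S.runE_HE hm 64 8455 _ hn a
  obtain ⟨a, h⟩ := cnd_eq h
  have hn : ∀ e, e < 8583 → S.HE e := S.runE_HE hm 64 8519 _ hn a
  obtain ⟨a, h⟩ := cnd_eq h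
  have hn : ∀ e, e < 8647 → S.HE e := S.runE_HE hm 64 8583 _ hn a
  obtain ⟨a, h⟩ := cnd_eq h
  have hn : ∀ e, e < 8711 → S.HE e := S.runE_HE hm 64 8647 _ hn a
  obtain ⟨a, h⟩ := cnd_eq h
  have hn : ∀ e, e < 8775 → S.HE e := S.runE_HE hm 64 8711 _ hn a
  obtain ⟨a, h⟩ := cnd_eq h
  have hn : ∀ e, e < 8839 → S.HE e := S.runE_HE hm 64 8775 _ hn a
  exact ⟨hn, hm⟩

theorem c_33 (h : S.Q 8839 5086) : S.Q 9223 5086 := by
  obtain ⟨hn, hm⟩ := h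
  have h := run_33
  obtain ⟨a, h⟩ := cnd_eq h
  have hn : ∀ e, e < 8903 → S.HE e := S.runE_HE hm 64 8839 _ hn a
  obtain ⟨a, h⟩ := cnd_eq h
  have hn : ∀ e, e < 8967 → S.HE e := S.runE_HE hm 64 8903 _ hn a
  obtain ⟨a, h⟩ := cnd_eq h
  have hn : ∀ e, e < 9031 → S.HE e := S.runE_HE hm 64 8967 _ hn a
  obtain ⟨a, h⟩ := cnd_eq h
  have hn : ∀ e, e < 9095 → S.HE e := S.runE_HE hm 64 9031 _ hn a
  obtain ⟨a, h⟩ := cnd_eq h
  have hn : ∀ e, e < 9159 → S.HE e := S.runE_HE hm 64 9095 _ hn a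
  obtain ⟨a, h⟩ := cnd_eq h
  have hn : ∀ e, e < 9223 → S.HE e := S.runE_HE hm 64 9159 _ hn a
  exact ⟨hn, hm⟩

theorem c_34 (h : S.Q 9223 5086) : S.Q 9607 5086 := by
  obtain ⟨hn, hm⟩ := h
  have h := run_34
  obtain ⟨a, h⟩ := cnd_eq h
  have hn : ∀ e, e < 9287 → S.HE e := S.runE_HE hm 64 9223 _ hn a
  obtain ⟨a, h⟩ := cnd_eq h
  have hn : ∀ e, e < 9351 → S.HE e := S.runE_HE hm 64 9287 _ hn a
  obtain ⟨a, h⟩ := cnd_eq h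
  have hn : ∀ e, e < 9415 → S.HE e := S.runE_HE hm 64 9351 _ hn a
  obtain ⟨a, h⟩ := cnd_eq h
  have hn : ∀ e, e < 9479 → S.HE e := S.runE_HE hm 64 9415 _ hn a
  obtain ⟨a, h⟩ := cnd_eq h
  have hn : ∀ e, e < 9543 → S.HE e := S.runE_HE hm 64 9479 _ hn a
  obtain ⟨a, h⟩ := cnd_eq h
  have hn : ∀ e, e < 9607 → S.HE e := S.runE_HE hm 64 9543 _ hn a
  exact ⟨hn, hm⟩

theorem c_35 (h : S.Q 9607 5086) : S.Q 9991 5086 := by
  obtain ⟨hn, hm⟩ := h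
  have h := run_35
  obtain ⟨a, h⟩ := cnd_eq h
  have hn : ∀ e, e < 9671 → S.HE e := S.runE_HE hm 64 9607 _ hn a
  obtain ⟨a, h⟩ := cnd_eq h
  have hn : ∀ e, e < 9735 → S.HE e := S.runE_HE hm 64 9671 _ hn a
  obtain ⟨a, h⟩ := cnd_eq h
  have hn : ∀ e, e < 9799 → S.HE e := S.runE_HE hm 64 9735 _ hn a
  obtain ⟨a, h⟩ := cnd_eq h
  have hn : ∀ e, e < 9863 → S.HE e := S.runE_HE hm 64 9799 _ hn a
  obtain ⟨a, h⟩ := cnd_eq h
  have hn : ∀ e, e < 9927 → S.HE e := S.runE_HE hm 64 9863 _ hn a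
  obtain ⟨a, h⟩ := cnd_eq h
  have hn : ∀ e, e < 9991 → S.HE e := S.runE_HE hm 64 9927 _ hn a
  exact ⟨hn, hm⟩

theorem c_36 (h : S.Q 9991 5086) : S.Q 10375 5086 := by
  obtain ⟨hn, hm⟩ := h
  have h := run_36
  obtain ⟨a, h⟩ := cnd_eq h
  have hn : ∀ e, e < 10055 → S.HE e := S.runE_HE hm 64 9991 _ hn a
  obtain ⟨a, h⟩ := cnd_eq h
  have hn : ∀ e, e < 10119 → S.HE e := S.runE_HE hm 64 10055 _ hn a
  obtain ⟨a, h⟩ := cnd_eq h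
  have hn : ∀ e, e < 10183 → S.HE e := S.runE_HE hm 64 10119 _ hn a
  obtain ⟨a, h⟩ := cnd_eq h
  have hn : ∀ e, e < 10247 → S.HE e := S.runE_HE hm 64 10183 _ hn a
  obtain ⟨a, h⟩ := cnd_eq h
  have hn : ∀ e, e < 10311 → S.HE e := S.runE_HE hm 64 10247 _ hn a
  obtain ⟨a, h⟩ := cnd_eq h
  have hn : ∀ e, e < 10375 → S.HE e := S.runE_HE hm 64 10311 _ hn a
  exact ⟨hn, hm⟩

theorem c_37 (h : S.Q 10375 5086) : S.Q 10759 5086 := by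
  obtain ⟨hn, hm⟩ := h
  have h := run_37
  obtain ⟨a, h⟩ := cnd_eq h
  have hn : ∀ e, e < 10439 → S.HE e := S.runE_HE hm 64 10375 _ hn a
  obtain ⟨a, h⟩ := cnd_eq h
  have hn : ∀ e, e < 10503 → S.HE e := S.runE_HE hm 64 10439 _ hn a
  obtain ⟨a, h⟩ := cnd_eq h
  have hn : ∀ e, e < 10567 → S.HE e := S.runE_HE hm 64 10503 _ hn a
  obtain ⟨a, h⟩ := cnd_eq h
  have hn : ∀ e, e < 10631 → S.HE e := S.runE_HE hm 64 10567 _ hn a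
  obtain ⟨a, h⟩ := cnd_eq h
  have hn : ∀ e, e < 10695 → S.HE e := S.runE_HE hm 64 10631 _ hn a
  obtain ⟨a, h⟩ := cnd_eq h
  have hn : ∀ e, e < 10759 → S.HE e := S.runE_HE hm 64 10695 _ hn a
  exact ⟨hn, hm⟩

theorem c_38 (h : S.Q 10759 5086) : S.Q 11143 5086 := by
  obtain ⟨hn, hm⟩ := h
  have h := run_38
  obtain ⟨a, h⟩ := cnd_eq h
  have hn : ∀ e, e < 10823 → S.HE e := S.runE_HE hm 64 10759 _ hn a
  obtain ⟨a, h⟩ := cnd_eq h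
  have hn : ∀ e, e < 10887 → S.HE e := S.runE_HE hm 64 10823 _ hn a
  obtain ⟨a, h⟩ := cnd_eq h
  have hn : ∀ e, e < 10951 → S.HE e := S.runE_HE hm 64 10887 _ hn a
  obtain ⟨a, h⟩ := cnd_eq h
  have hn : ∀ e, e < 11015 → S.HE e := S.runE_HE hm 64 10951 _ hn a
  obtain ⟨a, h⟩ := cnd_eq h
  have hn : ∀ e, e < 11079 → S.HE e := S.runE_HE hm 64 11015 _ hn a
  obtain ⟨a, h⟩ := cnd_eq h
  have hn : ∀ e, e < 11143 → S.HE e := S.runE_HE hm 64 11079 _ hn a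
  exact ⟨hn, hm⟩

theorem c_39 (h : S.Q 11143 5086) : S.Q 11527 5086 := by
  obtain ⟨hn, hm⟩ := h
  have h := run_39
  obtain ⟨a, h⟩ := cnd_eq h
  have hn : ∀ e, e < 11207 → S.HE e := S.runE_HE hm 64 11143 _ hn a
  obtain ⟨a, h⟩ := cnd_eq h
  have hn : ∀ e, e < 11271 → S.HE e := S.runE_HE hm 64 11207 _ hn a
  obtain ⟨a, h⟩ := cnd_eq h
  have hn : ∀ e, e < 11335 → S.HE e := S.runE_HE hm 64 11271 _ hn a
  obtain ⟨a, h⟩ := cnd_eq h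
  have hn : ∀ e, e < 11399 → S.HE e := S.runE_HE hm 64 11335 _ hn a
  obtain ⟨a, h⟩ := cnd_eq h
  have hn : ∀ e, e < 11463 → S.HE e := S.runE_HE hm 64 11399 _ hn a
  obtain ⟨a, h⟩ := cnd_eq h
  have hn : ∀ e, e < 11527 → S.HE e := S.runE_HE hm 64 11463 _ hn a
  exact ⟨hn, hm⟩

theorem c_40 (h : S.Q 11527 5086) : S.Q 11911 5086 := by
  obtain ⟨hn, hm⟩ := h
  have h := run_40
  obtain ⟨a, h⟩ := cnd_eq h
  have hn : ∀ e, e < 11591 → S.HE e := S.runE_HE hm 64 11527 _ hn a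
  obtain ⟨a, h⟩ := cnd_eq h
  have hn : ∀ e, e < 11655 → S.HE e := S.runE_HE hm 64 11591 _ hn a
  obtain ⟨a, h⟩ := cnd_eq h
  have hn : ∀ e, e < 11719 → S.HE e := S.runE_HE hm 64 11655 _ hn a
  obtain ⟨a, h⟩ := cnd_eq h
  have hn : ∀ e, e < 11783 → S.HE e := S.runE_HE hm 64 11719 _ hn a
  obtain ⟨a, h⟩ := cnd_eq h
  have hn : ∀ e, e < 11847 → S.HE e := S.runE_HE hm 64 11783 _ hn a
  obtain ⟨a, h⟩ := cnd_eq h
  have hn : ∀ e, e < 11911 → S.HE e := S.runE_HE hm 64 11847 _ hn a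
  exact ⟨hn, hm⟩

theorem c_41 (h : S.Q 11911 5086) : S.Q 12295 5086 := by
  obtain ⟨hn, hm⟩ := h
  have h := run_41
  obtain ⟨a, h⟩ := cnd_eq h
  have hn : ∀ e, e < 11975 → S.HE e := S.runE_HE hm 64 11911 _ hn a
  obtain ⟨a, h⟩ := cnd_eq h
  have hn : ∀ e, e < 12039 → S.HE e := S.runE_HE hm 64 11975 _ hn a
  obtain ⟨a, h⟩ := cnd_eq h
  have hn : ∀ e, e < 12103 → S.HE e := S.runE_HE hm 64 12039 _ hn a
  obtain ⟨a, h⟩ := cnd_eq h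
  have hn : ∀ e, e < 12167 → S.HE e := S.runE_HE hm 64 12103 _ hn a
  obtain ⟨a, h⟩ := cnd_eq h
  have hn : ∀ e, e < 12231 → S.HE e := S.runE_HE hm 64 12167 _ hn a
  obtain ⟨a, h⟩ := cnd_eq h
  have hn : ∀ e, e < 12295 → S.HE e := S.runE_HE hm 64 12231 _ hn a
  exact ⟨hn, hm⟩

theorem c_42 (h : S.Q 12295 5086) : S.Q 12679 5086 := by
  obtain ⟨hn, hm⟩ := h
  have h := run_42
  obtain ⟨a, h⟩ := cnd_eq h
  have hn : ∀ e, e < 12359 → S.HE e := S.runE_HE hm 64 12295 _ hn a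
  obtain ⟨a, h⟩ := cnd_eq h
  have hn : ∀ e, e < 12423 → S.HE e := S.runE_HE hm 64 12359 _ hn a
  obtain ⟨a, h⟩ := cnd_eq h
  have hn : ∀ e, e < 12487 → S.HE e := S.runE_HE hm 64 12423 _ hn a
  obtain ⟨a, h⟩ := cnd_eq h
  have hn : ∀ e, e < 12551 → S.HE e := S.runE_HE hm 64 12487 _ hn a
  obtain ⟨a, h⟩ := cnd_eq h
  have hn : ∀ e, e < 12615 → S.HE e := S.runE_HE hm 64 12551 _ hn a
  obtain ⟨a, h⟩ := cnd_eq h
  have hn : ∀ e, e < 12679 → S.HE e := S.runE_HE hm 64 12615 _ hn a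
  exact ⟨hn, hm⟩

theorem c_43 (h : S.Q 12679 5086) : S.Q 12955 5086 := by
  obtain ⟨hn, hm⟩ := h
  have h := run_43
  obtain ⟨a, h⟩ := cnd_eq h
  have hn : ∀ e, e < 12743 → S.HE e := S.runE_HE hm 64 12679 _ hn a
  obtain ⟨a, h⟩ := cnd_eq h
  have hn : ∀ e, e < 12807 → S.HE e := S.runE_HE hm 64 12743 _ hn a
  obtain ⟨a, h⟩ := cnd_eq h
  have hn : ∀ e, e < 12871 → S.HE e := S.runE_HE hm 64 12807 _ hn a
  obtain ⟨a, h⟩ := cnd_eq h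
  have hn : ∀ e, e < 12935 → S.HE e := S.runE_HE hm 64 12871 _ hn a
  obtain ⟨a, h⟩ := cnd_eq h
  have hn : ∀ e, e < 12955 → S.HE e := S.runE_HE hm 20 12935 _ hn a
  exact ⟨hn, hm⟩

theorem c_44 (h : S.Q 12955 5086) : S.Q 12955 5470 := by
  obtain ⟨hn, hm⟩ := h
  have h := run_44
  obtain ⟨a, h⟩ := cnd_eq h
  have hm : ∀ e, e < 5150 → S.HS e := S.runS_HS (n := 12955) hn 64 5086 _ hm a
  obtain ⟨a, h⟩ := cnd_eq h
  have hm : ∀ e, e < 5214 → S.HS e := S.runS_HS (n := 12955) hn 64 5150 _ hm a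
  obtain ⟨a, h⟩ := cnd_eq h
  have hm : ∀ e, e < 5278 → S.HS e := S.runS_HS (n := 12955) hn 64 5214 _ hm a
  obtain ⟨a, h⟩ := cnd_eq h
  have hm : ∀ e, e < 5342 → S.HS e := S.runS_HS (n := 12955) hn 64 5278 _ hm a
  obtain ⟨a, h⟩ := cnd_eq h
  have hm : ∀ e, e < 5406 → S.HS e := S.runS_HS (n := 12955) hn 64 5342 _ hm a
  obtain ⟨a, h⟩ := cnd_eq h
  have hm : ∀ e, e < 5470 → S.HS e := S.runS_HS (n := 12955) hn 64 5406 _ hm a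
  exact ⟨hn, hm⟩

theorem c_45 (h : S.Q 12955 5470) : S.Q 12955 5501 := by
  obtain ⟨hn, hm⟩ := h
  have h := run_45
  obtain ⟨a, h⟩ := cnd_eq h
  have hm : ∀ e, e < 5501 → S.HS e := S.runS_HS (n := 12955) hn 31 5470 _ hm a
  exact ⟨hn, hm⟩

theorem c_46 (h : S.Q 12955 5501) : S.Q 13339 5501 := by
  obtain ⟨hn, hm⟩ := h
  have h := run_46
  obtain ⟨a, h⟩ := cnd_eq h
  have hn : ∀ e, e < 13019 → S.HE e := S.runE_HE hm 64 12955 _ hn a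
  obtain ⟨a, h⟩ := cnd_eq h
  have hn : ∀ e, e < 13083 → S.HE e := S.runE_HE hm 64 13019 _ hn a
  obtain ⟨a, h⟩ := cnd_eq h
  have hn : ∀ e, e < 13147 → S.HE e := S.runE_HE hm 64 13083 _ hn a
  obtain ⟨a, h⟩ := cnd_eq h
  have hn : ∀ e, e < 13211 → S.HE e := S.runE_HE hm 64 13147 _ hn a
  obtain ⟨a, h⟩ := cnd_eq h
  have hn : ∀ e, e < 13275 → S.HE e := S.runE_HE hm 64 13211 _ hn a
  obtain ⟨a, h⟩ := cnd_eq h
  have hn : ∀ e, e < 13339 → S.HE e := S.runE_HE hm 64 13275 _ hn a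
  exact ⟨hn, hm⟩

theorem c_47 (h : S.Q 13339 5501) : S.Q 13723 5501 := by
  obtain ⟨hn, hm⟩ := h
  have h := run_47
  obtain ⟨a, h⟩ := cnd_eq h
  have hn : ∀ e, e < 13403 → S.HE e := S.runE_HE hm 64 13339 _ hn a
  obtain ⟨a, h⟩ := cnd_eq h
  have hn : ∀ e, e < 13467 → S.HE e := S.runE_HE hm 64 13403 _ hn a
  obtain ⟨a, h⟩ := cnd_eq h
  have hn : ∀ e, e < 13531 → S.HE e := S.runE_HE hm 64 13467 _ hn a
  obtain ⟨a, h⟩ := cnd_eq h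
  have hn : ∀ e, e < 13595 → S.HE e := S.runE_HE hm 64 13531 _ hn a
  obtain ⟨a, h⟩ := cnd_eq h
  have hn : ∀ e, e < 13659 → S.HE e := S.runE_HE hm 64 13595 _ hn a
  obtain ⟨a, h⟩ := cnd_eq h
  have hn : ∀ e, e < 13723 → S.HE e := S.runE_HE hm 64 13659 _ hn a
  exact ⟨hn, hm⟩

theorem c_48 (h : S.Q 13723 5501) : S.Q 14107 5501 := by
  obtain ⟨hn, hm⟩ := h
  have h := run_48
  obtain ⟨a, h⟩ := cnd_eq h
  have hn : ∀ e, e < 13787 → S.HE e := S.runE_HE hm 64 13723 _ hn a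
  obtain ⟨a, h⟩ := cnd_eq h
  have hn : ∀ e, e < 13851 → S.HE e := S.runE_HE hm 64 13787 _ hn a
  obtain ⟨a, h⟩ := cnd_eq h
  have hn : ∀ e, e < 13915 → S.HE e := S.runE_HE hm 64 13851 _ hn a
  obtain ⟨a, h⟩ := cnd_eq h
  have hn : ∀ e, e < 13979 → S.HE e := S.runE_HE hm 64 13915 _ hn a
  obtain ⟨a, h⟩ := cnd_eq h
  have hn : ∀ e, e < 14043 → S.HE e := S.runE_HE hm 64 13979 _ hn a
  obtain ⟨a, h⟩ := cnd_eq h
  have hn : ∀ e, e < 14107 → S.HE e := S.runE_HE hm 64 14043 _ hn a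
  exact ⟨hn, hm⟩

theorem c_49 (h : S.Q 14107 5501) : S.Q 14491 5501 := by
  obtain ⟨hn, hm⟩ := h
  have h := run_49
  obtain ⟨a, h⟩ := cnd_eq h
  have hn : ∀ e, e < 14171 → S.HE e := S.runE_HE hm 64 14107 _ hn a
  obtain ⟨a, h⟩ := cnd_eq h
  have hn : ∀ e, e < 14235 → S.HE e := S.runE_HE hm 64 14171 _ hn a
  obtain ⟨a, h⟩ := cnd_eq h
  have hn : ∀ e, e < 14299 → S.HE e := S.runE_HE hm 64 14235 _ hn a
  obtain ⟨a, h⟩ := cnd_eq h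
  have hn : ∀ e, e < 14363 → S.HE e := S.runE_HE hm 64 14299 _ hn a
  obtain ⟨a, h⟩ := cnd_eq h
  have hn : ∀ e, e < 14427 → S.HE e := S.runE_HE hm 64 14363 _ hn a
  obtain ⟨a, h⟩ := cnd_eq h
  have hn : ∀ e, e < 14491 → S.HE e := S.runE_HE hm 64 14427 _ hn a
  exact ⟨hn, hm⟩

theorem c_50 (h : S.Q 14491 5501) : S.Q 14875 5501 := by
  obtain ⟨hn, hm⟩ := h
  have h := run_50
  obtain ⟨a, h⟩ := cnd_eq h
  have hn : ∀ e, e < 14555 → S.HE e := S.runE_HE hm 64 14491 _ hn a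
  obtain ⟨a, h⟩ := cnd_eq h
  have hn : ∀ e, e < 14619 → S.HE e := S.runE_HE hm 64 14555 _ hn a
  obtain ⟨a, h⟩ := cnd_eq h
  have hn : ∀ e, e < 14683 → S.HE e := S.runE_HE hm 64 14619 _ hn a
  obtain ⟨a, h⟩ := cnd_eq h
  have hn : ∀ e, e < 14747 → S.HE e := S.runE_HE hm 64 14683 _ hn a
  obtain ⟨a, h⟩ := cnd_eq h
  have hn : ∀ e, e < 14811 → S.HE e := S.runE_HE hm 64 14747 _ hn a
  obtain ⟨a, h⟩ := cnd_eq h
  have hn : ∀ e, e < 14875 → S.HE e := S.runE_HE hm 64 14811 _ hn a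
  exact ⟨hn, hm⟩

theorem c_51 (h : S.Q 14875 5501) : S.Q 15259 5501 := by
  obtain ⟨hn, hm⟩ := h
  have h := run_51
  obtain ⟨a, h⟩ := cnd_eq h
  have hn : ∀ e, e < 14939 → S.HE e := S.runE_HE hm 64 14875 _ hn a
  obtain ⟨a, h⟩ := cnd_eq h
  have hn : ∀ e, e < 15003 → S.HE e := S.runE_HE hm 64 14939 _ hn a
  obtain ⟨a, h⟩ := cnd_eq h
  have hn : ∀ e, e < 15067 → S.HE e := S.runE_HE hm 64 15003 _ hn a
  obtain ⟨a, h⟩ := cnd_eq h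
  have hn : ∀ e, e < 15131 → S.HE e := S.runE_HE hm 64 15067 _ hn a
  obtain ⟨a, h⟩ := cnd_eq h
  have hn : ∀ e, e < 15195 → S.HE e := S.runE_HE hm 64 15131 _ hn a
  obtain ⟨a, h⟩ := cnd_eq h
  have hn : ∀ e, e < 15259 → S.HE e := S.runE_HE hm 64 15195 _ hn a
  exact ⟨hn, hm⟩

theorem c_52 (h : S.Q 15259 5501) : S.Q 15643 5501 := by
  obtain ⟨hn, hm⟩ := h
  have h := run_52
  obtain ⟨a, h⟩ := cnd_eq h
  have hn : ∀ e, e < 15323 → S.HE e := S.runE_HE hm 64 15259 _ hn a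
  obtain ⟨a, h⟩ := cnd_eq h
  have hn : ∀ e, e < 15387 → S.HE e := S.runE_HE hm 64 15323 _ hn a
  obtain ⟨a, h⟩ := cnd_eq h
  have hn : ∀ e, e < 15451 → S.HE e := S.runE_HE hm 64 15387 _ hn a
  obtain ⟨a, h⟩ := cnd_eq h
  have hn : ∀ e, e < 15515 → S.HE e := S.runE_HE hm 64 15451 _ hn a
  obtain ⟨a, h⟩ := cnd_eq h
  have hn : ∀ e, e < 15579 → S.HE e := S.runE_HE hm 64 15515 _ hn a
  obtain ⟨a, h⟩ := cnd_eq h
  have hn : ∀ e, e < 15643 → S.HE e := S.runE_HE hm 64 15579 _ hn a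
  exact ⟨hn, hm⟩

theorem c_53 (h : S.Q 15643 5501) : S.Q 16027 5501 := by
  obtain ⟨hn, hm⟩ := h
  have h := run_53
  obtain ⟨a, h⟩ := cnd_eq h
  have hn : ∀ e, e < 15707 → S.HE e := S.runE_HE hm 64 15643 _ hn a
  obtain ⟨a, h⟩ := cnd_eq h
  have hn : ∀ e, e < 15771 → S.HE e := S.runE_HE hm 64 15707 _ hn a
  obtain ⟨a, h⟩ := cnd_eq h
  have hn : ∀ e, e < 15835 → S.HE e := S.runE_HE hm 64 15771 _ hn a
  obtain ⟨a, h⟩ := cnd_eq h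
  have hn : ∀ e, e < 15899 → S.HE e := S.runE_HE hm 64 15835 _ hn a
  obtain ⟨a, h⟩ := cnd_eq h
  have hn : ∀ e, e < 15963 → S.HE e := S.runE_HE hm 64 15899 _ hn a
  obtain ⟨a, h⟩ := cnd_eq h
  have hn : ∀ e, e < 16027 → S.HE e := S.runE_HE hm 64 15963 _ hn a
  exact ⟨hn, hm⟩

theorem c_54 (h : S.Q 16027 5501) : S.Q 16411 5501 := by
  obtain ⟨hn, hm⟩ := h
  have h := run_54
  obtain ⟨a, h⟩ := cnd_eq h
  have hn : ∀ e, e < 16091 → S.HE e := S.runE_HE hm 64 16027 _ hn a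
  obtain ⟨a, h⟩ := cnd_eq h
  have hn : ∀ e, e < 16155 → S.HE e := S.runE_HE hm 64 16091 _ hn a
  obtain ⟨a, h⟩ := cnd_eq h
  have hn : ∀ e, e < 16219 → S.HE e := S.runE_HE hm 64 16155 _ hn a
  obtain ⟨a, h⟩ := cnd_eq h
  have hn : ∀ e, e < 16283 → S.HE e := S.runE_HE hm 64 16219 _ hn a
  obtain ⟨a, h⟩ := cnd_eq h
  have hn : ∀ e, e < 16347 → S.HE e := S.runE_HE hm 64 16283 _ hn a
  obtain ⟨a, h⟩ := cnd_eq h
  have hn : ∀ e, e < 16411 → S.HE e := S.runE_HE hm 64 16347 _ hn a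
  exact ⟨hn, hm⟩

theorem c_55 (h : S.Q 16411 5501) : S.Q 16677 5501 := by
  obtain ⟨hn, hm⟩ := h
  have h := run_55
  obtain ⟨a, h⟩ := cnd_eq h
  have hn : ∀ e, e < 16475 → S.HE e := S.runE_HE hm 64 16411 _ hn a
  obtain ⟨a, h⟩ := cnd_eq h
  have hn : ∀ e, e < 16539 → S.HE e := S.runE_HE hm 64 16475 _ hn a
  obtain ⟨a, h⟩ := cnd_eq h
  have hn : ∀ e, e < 16603 → S.HE e := S.runE_HE hm 64 16539 _ hn a
  obtain ⟨a, h⟩ := cnd_eq h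
  have hn : ∀ e, e < 16667 → S.HE e := S.runE_HE hm 64 16603 _ hn a
  obtain ⟨a, h⟩ := cnd_eq h
  have hn : ∀ e, e < 16677 → S.HE e := S.runE_HE hm 10 16667 _ hn a
  exact ⟨hn, hm⟩

theorem c_56 (h : S.Q 16677 5501) : S.Q 16677 5700 := by
  obtain ⟨hn, hm⟩ := h
  have h := run_56
  obtain ⟨a, h⟩ := cnd_eq h
  have hm : ∀ e, e < 5565 → S.HS e := S.runS_HS (n := 16677) hn 64 5501 _ hm a
  obtain ⟨a, h⟩ := cnd_eq h
  have hm : ∀ e, e < 5629 → S.HS e := S.runS_HS (n := 16677) hn 64 5565 _ hm a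
  obtain ⟨a, h⟩ := cnd_eq h
  have hm : ∀ e, e < 5693 → S.HS e := S.runS_HS (n := 16677) hn 64 5629 _ hm a
  obtain ⟨a, h⟩ := cnd_eq h
  have hm : ∀ e, e < 5700 → S.HS e := S.runS_HS (n := 16677) hn 7 5693 _ hm a
  exact ⟨hn, hm⟩

theorem c_57 (h : S.Q 16677 5700) : S.Q 17061 5700 := by
  obtain ⟨hn, hm⟩ := h
  have h := run_57
  obtain ⟨a, h⟩ := cnd_eq h
  have hn : ∀ e, e < 16741 → S.HE e := S.runE_HE hm 64 16677 _ hn a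
  obtain ⟨a, h⟩ := cnd_eq h
  have hn : ∀ e, e < 16805 → S.HE e := S.runE_HE hm 64 16741 _ hn a
  obtain ⟨a, h⟩ := cnd_eq h
  have hn : ∀ e, e < 16869 → S.HE e := S.runE_HE hm 64 16805 _ hn a
  obtain ⟨a, h⟩ := cnd_eq h
  have hn : ∀ e, e < 16933 → S.HE e := S.runE_HE hm 64 16869 _ hn a
  obtain ⟨a, h⟩ := cnd_eq h
  have hn : ∀ e, e < 16997 → S.HE e := S.runE_HE hm 64 16933 _ hn a
  obtain ⟨a, h⟩ := cnd_eq h
  have hn : ∀ e, e < 17061 → S.HE e := S.runE_HE hm 64 16997 _ hn a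
  exact ⟨hn, hm⟩

theorem c_58 (h : S.Q 17061 5700) : S.Q 17445 5700 := by
  obtain ⟨hn, hm⟩ := h
  have h := run_58
  obtain ⟨a, h⟩ := cnd_eq h
  have hn : ∀ e, e < 17125 → S.HE e := S.runE_HE hm 64 17061 _ hn a
  obtain ⟨a, h⟩ := cnd_eq h
  have hn : ∀ e, e < 17189 → S.HE e := S.runE_HE hm 64 17125 _ hn a
  obtain ⟨a, h⟩ := cnd_eq h
  have hn : ∀ e, e < 17253 → S.HE e := S.runE_HE hm 64 17189 _ hn a
  obtain ⟨a, h⟩ := cnd_eq h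
  have hn : ∀ e, e < 17317 → S.HE e := S.runE_HE hm 64 17253 _ hn a
  obtain ⟨a, h⟩ := cnd_eq h
  have hn : ∀ e, e < 17381 → S.HE e := S.runE_HE hm 64 17317 _ hn a
  obtain ⟨a, h⟩ := cnd_eq h
  have hn : ∀ e, e < 17445 → S.HE e := S.runE_HE hm 64 17381 _ hn a
  exact ⟨hn, hm⟩

theorem c_59 (h : S.Q 17445 5700) : S.Q 17829 5700 := by
  obtain ⟨hn, hm⟩ := h
  have h := run_59
  obtain ⟨a, h⟩ := cnd_eq h
  have hn : ∀ e, e < 17509 → S.HE e := S.runE_HE hm 64 17445 _ hn a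
  obtain ⟨a, h⟩ := cnd_eq h
  have hn : ∀ e, e < 17573 → S.HE e := S.runE_HE hm 64 17509 _ hn a
  obtain ⟨a, h⟩ := cnd_eq h
  have hn : ∀ e, e < 17637 → S.HE e := S.runE_HE hm 64 17573 _ hn a
  obtain ⟨a, h⟩ := cnd_eq h
  have hn : ∀ e, e < 17701 → S.HE e := S.runE_HE hm 64 17637 _ hn a
  obtain ⟨a, h⟩ := cnd_eq h
  have hn : ∀ e, e < 17765 → S.HE e := S.runE_HE hm 64 17701 _ hn a
  obtain ⟨a, h⟩ := cnd_eq h
  have hn : ∀ e, e < 17829 → S.HE e := S.runE_HE hm 64 17765 _ hn a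
  exact ⟨hn, hm⟩

theorem c_60 (h : S.Q 17829 5700) : S.Q 18213 5700 := by
  obtain ⟨hn, hm⟩ := h
  have h := run_60
  obtain ⟨a, h⟩ := cnd_eq h
  have hn : ∀ e, e < 17893 → S.HE e := S.runE_HE hm 64 17829 _ hn a
  obtain ⟨a, h⟩ := cnd_eq h
  have hn : ∀ e, e < 17957 → S.HE e := S.runE_HE hm 64 17893 _ hn a
  obtain ⟨a, h⟩ := cnd_eq h
  have hn : ∀ e, e < 18021 → S.HE e := S.runE_HE hm 64 17957 _ hn a
  obtain ⟨a, h⟩ := cnd_eq h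
  have hn : ∀ e, e < 18085 → S.HE e := S.runE_HE hm 64 18021 _ hn a
  obtain ⟨a, h⟩ := cnd_eq h
  have hn : ∀ e, e < 18149 → S.HE e := S.runE_HE hm 64 18085 _ hn a
  obtain ⟨a, h⟩ := cnd_eq h
  have hn : ∀ e, e < 18213 → S.HE e := S.runE_HE hm 64 18149 _ hn a
  exact ⟨hn, hm⟩

theorem c_61 (h : S.Q 18213 5700) : S.Q 18597 5700 := by
  obtain ⟨hn, hm⟩ := h
  have h := run_61
  obtain ⟨a, h⟩ := cnd_eq h
  have hn : ∀ e, e < 18277 → S.HE e := S.runE_HE hm 64 18213 _ hn a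
  obtain ⟨a, h⟩ := cnd_eq h
  have hn : ∀ e, e < 18341 → S.HE e := S.runE_HE hm 64 18277 _ hn a
  obtain ⟨a, h⟩ := cnd_eq h
  have hn : ∀ e, e < 18405 → S.HE e := S.runE_HE hm 64 18341 _ hn a
  obtain ⟨a, h⟩ := cnd_eq h
  have hn : ∀ e, e < 18469 → S.HE e := S.runE_HE hm 64 18405 _ hn a
  obtain ⟨a, h⟩ := cnd_eq h
  have hn : ∀ e, e < 18533 → S.HE e := S.runE_HE hm 64 18469 _ hn a
  obtain ⟨a, h⟩ := cnd_eq h
  have hn : ∀ e, e < 18597 → S.HE e := S.runE_HE hm 64 18533 _ hn a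
  exact ⟨hn, hm⟩

theorem c_62 (h : S.Q 18597 5700) : S.Q 18981 5700 := by
  obtain ⟨hn, hm⟩ := h
  have h := run_62
  obtain ⟨a, h⟩ := cnd_eq h
  have hn : ∀ e, e < 18661 → S.HE e := S.runE_HE hm 64 18597 _ hn a
  obtain ⟨a, h⟩ := cnd_eq h
  have hn : ∀ e, e < 18725 → S.HE e := S.runE_HE hm 64 18661 _ hn a
  obtain ⟨a, h⟩ := cnd_eq h
  have hn : ∀ e, e < 18789 → S.HE e := S.runE_HE hm 64 18725 _ hn a
  obtain ⟨a, h⟩ := cnd_eq h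
  have hn : ∀ e, e < 18853 → S.HE e := S.runE_HE hm 64 18789 _ hn a
  obtain ⟨a, h⟩ := cnd_eq h
  have hn : ∀ e, e < 18917 → S.HE e := S.runE_HE hm 64 18853 _ hn a
  obtain ⟨a, h⟩ := cnd_eq h
  have hn : ∀ e, e < 18981 → S.HE e := S.runE_HE hm 64 18917 _ hn a
  exact ⟨hn, hm⟩

theorem c_63 (h : S.Q 18981 5700) : S.Q 19365 5700 := by
  obtain ⟨hn, hm⟩ := h
  have h := run_63
  obtain ⟨a, h⟩ := cnd_eq h
  have hn : ∀ e, e < 19045 → S.HE e := S.runE_HE hm 64 18981 _ hn a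
  obtain ⟨a, h⟩ := cnd_eq h
  have hn : ∀ e, e < 19109 → S.HE e := S.runE_HE hm 64 19045 _ hn a
  obtain ⟨a, h⟩ := cnd_eq h
  have hn : ∀ e, e < 19173 → S.HE e := S.runE_HE hm 64 19109 _ hn a
  obtain ⟨a, h⟩ := cnd_eq h
  have hn : ∀ e, e < 19237 → S.HE e := S.runE_HE hm 64 19173 _ hn a
  obtain ⟨a, h⟩ := cnd_eq h
  have hn : ∀ e, e < 19301 → S.HE e := S.runE_HE hm 64 19237 _ hn a
  obtain ⟨a, h⟩ := cnd_eq h
  have hn : ∀ e, e < 19365 → S.HE e := S.runE_HE hm 64 19301 _ hn a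
  exact ⟨hn, hm⟩

theorem c_64 (h : S.Q 19365 5700) : S.Q 19749 5700 := by
  obtain ⟨hn, hm⟩ := h
  have h := run_64
  obtain ⟨a, h⟩ := cnd_eq h
  have hn : ∀ e, e < 19429 → S.HE e := S.runE_HE hm 64 19365 _ hn a
  obtain ⟨a, h⟩ := cnd_eq h
  have hn : ∀ e, e < 19493 → S.HE e := S.runE_HE hm 64 19429 _ hn a
  obtain ⟨a, h⟩ := cnd_eq h
  have hn : ∀ e, e < 19557 → S.HE e := S.runE_HE hm 64 19493 _ hn a
  obtain ⟨a, h⟩ := cnd_eq h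
  have hn : ∀ e, e < 19621 → S.HE e := S.runE_HE hm 64 19557 _ hn a
  obtain ⟨a, h⟩ := cnd_eq h
  have hn : ∀ e, e < 19685 → S.HE e := S.runE_HE hm 64 19621 _ hn a
  obtain ⟨a, h⟩ := cnd_eq h
  have hn : ∀ e, e < 19749 → S.HE e := S.runE_HE hm 64 19685 _ hn a
  exact ⟨hn, hm⟩

theorem c_65 (h : S.Q 19749 5700) : S.Q 20133 5700 := by
  obtain ⟨hn, hm⟩ := h
  have h := run_65
  obtain ⟨a, h⟩ := cnd_eq h
  have hn : ∀ e, e < 19813 → S.HE e := S.runE_HE hm 64 19749 _ hn a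
  obtain ⟨a, h⟩ := cnd_eq h
  have hn : ∀ e, e < 19877 → S.HE e := S.runE_HE hm 64 19813 _ hn a
  obtain ⟨a, h⟩ := cnd_eq h
  have hn : ∀ e, e < 19941 → S.HE e := S.runE_HE hm 64 19877 _ hn a
  obtain ⟨a, h⟩ := cnd_eq h
  have hn : ∀ e, e < 20005 → S.HE e := S.runE_HE hm 64 19941 _ hn a
  obtain ⟨a, h⟩ := cnd_eq h
  have hn : ∀ e, e < 20069 → S.HE e := S.runE_HE hm 64 20005 _ hn a
  obtain ⟨a, h⟩ := cnd_eq h
  have hn : ∀ e, e < 20133 → S.HE e := S.runE_HE hm 64 20069 _ hn a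
  exact ⟨hn, hm⟩

theorem c_66 (h : S.Q 20133 5700) : S.Q 20517 5700 := by
  obtain ⟨hn, hm⟩ := h
  have h := run_66
  obtain ⟨a, h⟩ := cnd_eq h
  have hn : ∀ e, e < 20197 → S.HE e := S.runE_HE hm 64 20133 _ hn a
  obtain ⟨a, h⟩ := cnd_eq h
  have hn : ∀ e, e < 20261 → S.HE e := S.runE_HE hm 64 20197 _ hn a
  obtain ⟨a, h⟩ := cnd_eq h
  have hn : ∀ e, e < 20325 → S.HE e := S.runE_HE hm 64 20261 _ hn a
  obtain ⟨a, h⟩ := cnd_eq h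
  have hn : ∀ e, e < 20389 → S.HE e := S.runE_HE hm 64 20325 _ hn a
  obtain ⟨a, h⟩ := cnd_eq h
  have hn : ∀ e, e < 20453 → S.HE e := S.runE_HE hm 64 20389 _ hn a
  obtain ⟨a, h⟩ := cnd_eq h
  have hn : ∀ e, e < 20517 → S.HE e := S.runE_HE hm 64 20453 _ hn a
  exact ⟨hn, hm⟩

theorem c_67 (h : S.Q 20517 5700) : S.Q 20901 5700 := by
  obtain ⟨hn, hm⟩ := h
  have h := run_67
  obtain ⟨a, h⟩ := cnd_eq h
  have hn : ∀ e, e < 20581 → S.HE e := S.runE_HE hm 64 20517 _ hn a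
  obtain ⟨a, h⟩ := cnd_eq h
  have hn : ∀ e, e < 20645 → S.HE e := S.runE_HE hm 64 20581 _ hn a
  obtain ⟨a, h⟩ := cnd_eq h
  have hn : ∀ e, e < 20709 → S.HE e := S.runE_HE hm 64 20645 _ hn a
  obtain ⟨a, h⟩ := cnd_eq h
  have hn : ∀ e, e < 20773 → S.HE e := S.runE_HE hm 64 20709 _ hn a
  obtain ⟨a, h⟩ := cnd_eq h
  have hn : ∀ e, e < 20837 → S.HE e := S.runE_HE hm 64 20773 _ hn a
  obtain ⟨a, h⟩ := cnd_eq h
  have hn : ∀ e, e < 20901 → S.HE e := S.runE_HE hm 64 20837 _ hn a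
  exact ⟨hn, hm⟩

theorem c_68 (h : S.Q 20901 5700) : S.Q 21285 5700 := by
  obtain ⟨hn, hm⟩ := h
  have h := run_68
  obtain ⟨a, h⟩ := cnd_eq h
  have hn : ∀ e, e < 20965 → S.HE e := S.runE_HE hm 64 20901 _ hn a
  obtain ⟨a, h⟩ := cnd_eq h
  have hn : ∀ e, e < 21029 → S.HE e := S.runE_HE hm 64 20965 _ hn a
  obtain ⟨a, h⟩ := cnd_eq h
  have hn : ∀ e, e < 21093 → S.HE e := S.runE_HE hm 64 21029 _ hn a
  obtain ⟨a, h⟩ := cnd_eq h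
  have hn : ∀ e, e < 21157 → S.HE e := S.runE_HE hm 64 21093 _ hn a
  obtain ⟨a, h⟩ := cnd_eq h
  have hn : ∀ e, e < 21221 → S.HE e := S.runE_HE hm 64 21157 _ hn a
  obtain ⟨a, h⟩ := cnd_eq h
  have hn : ∀ e, e < 21285 → S.HE e := S.runE_HE hm 64 21221 _ hn a
  exact ⟨hn, hm⟩

theorem c_69 (h : S.Q 21285 5700) : S.Q 21669 5700 := by
  obtain ⟨hn, hm⟩ := h
  have h := run_69
  obtain ⟨a, h⟩ := cnd_eq h
  have hn : ∀ e, e < 21349 → S.HE e := S.runE_HE hm 64 21285 _ hn a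
  obtain ⟨a, h⟩ := cnd_eq h
  have hn : ∀ e, e < 21413 → S.HE e := S.runE_HE hm 64 21349 _ hn a
  obtain ⟨a, h⟩ := cnd_eq h
  have hn : ∀ e, e < 21477 → S.HE e := S.runE_HE hm 64 21413 _ hn a
  obtain ⟨a, h⟩ := cnd_eq h
  have hn : ∀ e, e < 21541 → S.HE e := S.runE_HE hm 64 21477 _ hn a
  obtain ⟨a, h⟩ := cnd_eq h
  have hn : ∀ e, e < 21605 → S.HE e := S.runE_HE hm 64 21541 _ hn a
  obtain ⟨a, h⟩ := cnd_eq h
  have hn : ∀ e, e < 21669 → S.HE e := S.runE_HE hm 64 21605 _ hn a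
  exact ⟨hn, hm⟩

theorem c_70 (h : S.Q 21669 5700) : S.Q 22053 5700 := by
  obtain ⟨hn, hm⟩ := h
  have h := run_70
  obtain ⟨a, h⟩ := cnd_eq h
  have hn : ∀ e, e < 21733 → S.HE e := S.runE_HE hm 64 21669 _ hn a
  obtain ⟨a, h⟩ := cnd_eq h
  have hn : ∀ e, e < 21797 → S.HE e := S.runE_HE hm 64 21733 _ hn a
  obtain ⟨a, h⟩ := cnd_eq h
  have hn : ∀ e, e < 21861 → S.HE e := S.runE_HE hm 64 21797 _ hn a
  obtain ⟨a, h⟩ := cnd_eq h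
  have hn : ∀ e, e < 21925 → S.HE e := S.runE_HE hm 64 21861 _ hn a
  obtain ⟨a, h⟩ := cnd_eq h
  have hn : ∀ e, e < 21989 → S.HE e := S.runE_HE hm 64 21925 _ hn a
  obtain ⟨a, h⟩ := cnd_eq h
  have hn : ∀ e, e < 22053 → S.HE e := S.runE_HE hm 64 21989 _ hn a
  exact ⟨hn, hm⟩

theorem c_71 (h : S.Q 22053 5700) : S.Q 22319 5700 := by
  obtain ⟨hn, hm⟩ := h
  have h := run_71
  obtain ⟨a, h⟩ := cnd_eq h
  have hn : ∀ e, e < 22117 → S.HE e := S.runE_HE hm 64 22053 _ hn a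
  obtain ⟨a, h⟩ := cnd_eq h
  have hn : ∀ e, e < 22181 → S.HE e := S.runE_HE hm 64 22117 _ hn a
  obtain ⟨a, h⟩ := cnd_eq h
  have hn : ∀ e, e < 22245 → S.HE e := S.runE_HE hm 64 22181 _ hn a
  obtain ⟨a, h⟩ := cnd_eq h
  have hn : ∀ e, e < 22309 → S.HE e := S.runE_HE hm 64 22245 _ hn a
  obtain ⟨a, h⟩ := cnd_eq h
  have hn : ∀ e, e < 22319 → S.HE e := S.runE_HE hm 10 22309 _ hn a
  exact ⟨hn, hm⟩

theorem c_72 (h : S.Q 22319 5700) : S.Q 22319 5951 := by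
  obtain ⟨hn, hm⟩ := h
  have h := run_72
  obtain ⟨a, h⟩ := cnd_eq h
  have hm : ∀ e, e < 5764 → S.HS e := S.runS_HS (n := 22319) hn 64 5700 _ hm a
  obtain ⟨a, h⟩ := cnd_eq h
  have hm : ∀ e, e < 5828 → S.HS e := S.runS_HS (n := 22319) hn 64 5764 _ hm a
  obtain ⟨a, h⟩ := cnd_eq h
  have hm : ∀ e, e < 5892 → S.HS e := S.runS_HS (n := 22319) hn 64 5828 _ hm a
  obtain ⟨a, h⟩ := cnd_eq h
  have hm : ∀ e, e < 5951 → S.HS e := S.runS_HS (n := 22319) hn 59 5892 _ hm a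
  exact ⟨hn, hm⟩

theorem c_73 (h : S.Q 22319 5951) : S.Q 22703 5951 := by
  obtain ⟨hn, hm⟩ := h
  have h := run_73
  obtain ⟨a, h⟩ := cnd_eq h
  have hn : ∀ e, e < 22383 → S.HE e := S.runE_HE hm 64 22319 _ hn a
  obtain ⟨a, h⟩ := cnd_eq h
  have hn : ∀ e, e < 22447 → S.HE e := S.runE_HE hm 64 22383 _ hn a
  obtain ⟨a, h⟩ := cnd_eq h
  have hn : ∀ e, e < 22511 → S.HE e := S.runE_HE hm 64 22447 _ hn a
  obtain ⟨a, h⟩ := cnd_eq h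
  have hn : ∀ e, e < 22575 → S.HE e := S.runE_HE hm 64 22511 _ hn a
  obtain ⟨a, h⟩ := cnd_eq h
  have hn : ∀ e, e < 22639 → S.HE e := S.runE_HE hm 64 22575 _ hn a
  obtain ⟨a, h⟩ := cnd_eq h
  have hn : ∀ e, e < 22703 → S.HE e := S.runE_HE hm 64 22639 _ hn a
  exact ⟨hn, hm⟩

theorem c_74 (h : S.Q 22703 5951) : S.Q 23087 5951 := by
  obtain ⟨hn, hm⟩ := h
  have h := run_74
  obtain ⟨a, h⟩ := cnd_eq h
  have hn : ∀ e, e < 22767 → S.HE e := S.runE_HE hm 64 22703 _ hn a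
  obtain ⟨a, h⟩ := cnd_eq h
  have hn : ∀ e, e < 22831 → S.HE e := S.runE_HE hm 64 22767 _ hn a
  obtain ⟨a, h⟩ := cnd_eq h
  have hn : ∀ e, e < 22895 → S.HE e := S.runE_HE hm 64 22831 _ hn a
  obtain ⟨a, h⟩ := cnd_eq h
  have hn : ∀ e, e < 22959 → S.HE e := S.runE_HE hm 64 22895 _ hn a
  obtain ⟨a, h⟩ := cnd_eq h
  have hn : ∀ e, e < 23023 → S.HE e := S.runE_HE hm 64 22959 _ hn a
  obtain ⟨a, h⟩ := cnd_eq h
  have hn : ∀ e, e < 23087 → S.HE e := S.runE_HE hm 64 23023 _ hn a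
  exact ⟨hn, hm⟩

theorem c_75 (h : S.Q 23087 5951) : S.Q 23471 5951 := by
  obtain ⟨hn, hm⟩ := h
  have h := run_75
  obtain ⟨a, h⟩ := cnd_eq h
  have hn : ∀ e, e < 23151 → S.HE e := S.runE_HE hm 64 23087 _ hn a
  obtain ⟨a, h⟩ := cnd_eq h
  have hn : ∀ e, e < 23215 → S.HE e := S.runE_HE hm 64 23151 _ hn a
  obtain ⟨a, h⟩ := cnd_eq h
  have hn : ∀ e, e < 23279 → S.HE e := S.runE_HE hm 64 23215 _ hn a
  obtain ⟨a, h⟩ := cnd_eq h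
  have hn : ∀ e, e < 23343 → S.HE e := S.runE_HE hm 64 23279 _ hn a
  obtain ⟨a, h⟩ := cnd_eq h
  have hn : ∀ e, e < 23407 → S.HE e := S.runE_HE hm 64 23343 _ hn a
  obtain ⟨a, h⟩ := cnd_eq h
  have hn : ∀ e, e < 23471 → S.HE e := S.runE_HE hm 64 23407 _ hn a
  exact ⟨hn, hm⟩

theorem c_76 (h : S.Q 23471 5951) : S.Q 23855 5951 := by
  obtain ⟨hn, hm⟩ := h
  have h := run_76
  obtain ⟨a, h⟩ := cnd_eq h
  have hn : ∀ e, e < 23535 → S.HE e := S.runE_HE hm 64 23471 _ hn a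
  obtain ⟨a, h⟩ := cnd_eq h
  have hn : ∀ e, e < 23599 → S.HE e := S.runE_HE hm 64 23535 _ hn a
  obtain ⟨a, h⟩ := cnd_eq h
  have hn : ∀ e, e < 23663 → S.HE e := S.runE_HE hm 64 23599 _ hn a
  obtain ⟨a, h⟩ := cnd_eq h
  have hn : ∀ e, e < 23727 → S.HE e := S.runE_HE hm 64 23663 _ hn a
  obtain ⟨a, h⟩ := cnd_eq h
  have hn : ∀ e, e < 23791 → S.HE e := S.runE_HE hm 64 23727 _ hn a
  obtain ⟨a, h⟩ := cnd_eq h
  have hn : ∀ e, e < 23855 → S.HE e := S.runE_HE hm 64 23791 _ hn a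
  exact ⟨hn, hm⟩

theorem c_77 (h : S.Q 23855 5951) : S.Q 24239 5951 := by
  obtain ⟨hn, hm⟩ := h
  have h := run_77
  obtain ⟨a, h⟩ := cnd_eq h
  have hn : ∀ e, e < 23919 → S.HE e := S.runE_HE hm 64 23855 _ hn a
  obtain ⟨a, h⟩ := cnd_eq h
  have hn : ∀ e, e < 23983 → S.HE e := S.runE_HE hm 64 23919 _ hn a
  obtain ⟨a, h⟩ := cnd_eq h
  have hn : ∀ e, e < 24047 → S.HE e := S.runE_HE hm 64 23983 _ hn a
  obtain ⟨a, h⟩ := cnd_eq h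
  have hn : ∀ e, e < 24111 → S.HE e := S.runE_HE hm 64 24047 _ hn a
  obtain ⟨a, h⟩ := cnd_eq h
  have hn : ∀ e, e < 24175 → S.HE e := S.runE_HE hm 64 24111 _ hn a
  obtain ⟨a, h⟩ := cnd_eq h
  have hn : ∀ e, e < 24239 → S.HE e := S.runE_HE hm 64 24175 _ hn a
  exact ⟨hn, hm⟩

theorem c_78 (h : S.Q 24239 5951) : S.Q 24623 5951 := by
  obtain ⟨hn, hm⟩ := h
  have h := run_78
  obtain ⟨a, h⟩ := cnd_eq h
  have hn : ∀ e, e < 24303 → S.HE e := S.runE_HE hm 64 24239 _ hn a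
  obtain ⟨a, h⟩ := cnd_eq h
  have hn : ∀ e, e < 24367 → S.HE e := S.runE_HE hm 64 24303 _ hn a
  obtain ⟨a, h⟩ := cnd_eq h
  have hn : ∀ e, e < 24431 → S.HE e := S.runE_HE hm 64 24367 _ hn a
  obtain ⟨a, h⟩ := cnd_eq h
  have hn : ∀ e, e < 24495 → S.HE e := S.runE_HE hm 64 24431 _ hn a
  obtain ⟨a, h⟩ := cnd_eq h
  have hn : ∀ e, e < 24559 → S.HE e := S.runE_HE hm 64 24495 _ hn a
  obtain ⟨a, h⟩ := cnd_eq h
  have hn : ∀ e, e < 24623 → S.HE e := S.runE_HE hm 64 24559 _ hn a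
  exact ⟨hn, hm⟩

theorem c_79 (h : S.Q 24623 5951) : S.Q 25007 5951 := by
  obtain ⟨hn, hm⟩ := h
  have h := run_79
  obtain ⟨a, h⟩ := cnd_eq h
  have hn : ∀ e, e < 24687 → S.HE e := S.runE_HE hm 64 24623 _ hn a
  obtain ⟨a, h⟩ := cnd_eq h
  have hn : ∀ e, e < 24751 → S.HE e := S.runE_HE hm 64 24687 _ hn a
  obtain ⟨a, h⟩ := cnd_eq h
  have hn : ∀ e, e < 24815 → S.HE e := S.runE_HE hm 64 24751 _ hn a
  obtain ⟨a, h⟩ := cnd_eq h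
  have hn : ∀ e, e < 24879 → S.HE e := S.runE_HE hm 64 24815 _ hn a
  obtain ⟨a, h⟩ := cnd_eq h
  have hn : ∀ e, e < 24943 → S.HE e := S.runE_HE hm 64 24879 _ hn a
  obtain ⟨a, h⟩ := cnd_eq h
  have hn : ∀ e, e < 25007 → S.HE e := S.runE_HE hm 64 24943 _ hn a
  exact ⟨hn, hm⟩

theorem c_80 (h : S.Q 25007 5951) : S.Q 25391 5951 := by
  obtain ⟨hn, hm⟩ := h
  have h := run_80
  obtain ⟨a, h⟩ := cnd_eq h
  have hn : ∀ e, e < 25071 → S.HE e := S.runE_HE hm 64 25007 _ hn a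
  obtain ⟨a, h⟩ := cnd_eq h
  have hn : ∀ e, e < 25135 → S.HE e := S.runE_HE hm 64 25071 _ hn a
  obtain ⟨a, h⟩ := cnd_eq h
  have hn : ∀ e, e < 25199 → S.HE e := S.runE_HE hm 64 25135 _ hn a
  obtain ⟨a, h⟩ := cnd_eq h
  have hn : ∀ e, e < 25263 → S.HE e := S.runE_HE hm 64 25199 _ hn a
  obtain ⟨a, h⟩ := cnd_eq h
  have hn : ∀ e, e < 25327 → S.HE e := S.runE_HE hm 64 25263 _ hn a
  obtain ⟨a, h⟩ := cnd_eq h
  have hn : ∀ e, e < 25391 → S.HE e := S.runE_HE hm 64 25327 _ hn a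
  exact ⟨hn, hm⟩

theorem c_81 (h : S.Q 25391 5951) : S.Q 25775 5951 := by
  obtain ⟨hn, hm⟩ := h
  have h := run_81
  obtain ⟨a, h⟩ := cnd_eq h
  have hn : ∀ e, e < 25455 → S.HE e := S.runE_HE hm 64 25391 _ hn a
  obtain ⟨a, h⟩ := cnd_eq h
  have hn : ∀ e, e < 25519 → S.HE e := S.runE_HE hm 64 25455 _ hn a
  obtain ⟨a, h⟩ := cnd_eq h
  have hn : ∀ e, e < 25583 → S.HE e := S.runE_HE hm 64 25519 _ hn a
  obtain ⟨a, h⟩ := cnd_eq h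
  have hn : ∀ e, e < 25647 → S.HE e := S.runE_HE hm 64 25583 _ hn a
  obtain ⟨a, h⟩ := cnd_eq h
  have hn : ∀ e, e < 25711 → S.HE e := S.runE_HE hm 64 25647 _ hn a
  obtain ⟨a, h⟩ := cnd_eq h
  have hn : ∀ e, e < 25775 → S.HE e := S.runE_HE hm 64 25711 _ hn a
  exact ⟨hn, hm⟩

theorem c_82 (h : S.Q 25775 5951) : S.Q 26159 5951 := by
  obtain ⟨hn, hm⟩ := h
  have h := run_82
  obtain ⟨a, h⟩ := cnd_eq h
  have hn : ∀ e, e < 25839 → S.HE e := S.runE_HE hm 64 25775 _ hn a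
  obtain ⟨a, h⟩ := cnd_eq h
  have hn : ∀ e, e < 25903 → S.HE e := S.runE_HE hm 64 25839 _ hn a
  obtain ⟨a, h⟩ := cnd_eq h
  have hn : ∀ e, e < 25967 → S.HE e := S.runE_HE hm 64 25903 _ hn a
  obtain ⟨a, h⟩ := cnd_eq h
  have hn : ∀ e, e < 26031 → S.HE e := S.runE_HE hm 64 25967 _ hn a
  obtain ⟨a, h⟩ := cnd_eq h
  have hn : ∀ e, e < 26095 → S.HE e := S.runE_HE hm 64 26031 _ hn a
  obtain ⟨a, h⟩ := cnd_eq h
  have hn : ∀ e, e < 26159 → S.HE e := S.runE_HE hm 64 26095 _ hn a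
  exact ⟨hn, hm⟩

theorem c_83 (h : S.Q 26159 5951) : S.Q 26543 5951 := by
  obtain ⟨hn, hm⟩ := h
  have h := run_83
  obtain ⟨a, h⟩ := cnd_eq h
  have hn : ∀ e, e < 26223 → S.HE e := S.runE_HE hm 64 26159 _ hn a
  obtain ⟨a, h⟩ := cnd_eq h
  have hn : ∀ e, e < 26287 → S.HE e := S.runE_HE hm 64 26223 _ hn a
  obtain ⟨a, h⟩ := cnd_eq h
  have hn : ∀ e, e < 26351 → S.HE e := S.runE_HE hm 64 26287 _ hn a
  obtain ⟨a, h⟩ := cnd_eq h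
  have hn : ∀ e, e < 26415 → S.HE e := S.runE_HE hm 64 26351 _ hn a
  obtain ⟨a, h⟩ := cnd_eq h
  have hn : ∀ e, e < 26479 → S.HE e := S.runE_HE hm 64 26415 _ hn a
  obtain ⟨a, h⟩ := cnd_eq h
  have hn : ∀ e, e < 26543 → S.HE e := S.runE_HE hm 64 26479 _ hn a
  exact ⟨hn, hm⟩

theorem c_84 (h : S.Q 26543 5951) : S.Q 26927 5951 := by
  obtain ⟨hn, hm⟩ := h
  have h := run_84
  obtain ⟨a, h⟩ := cnd_eq h
  have hn : ∀ e, e < 26607 → S.HE e := S.runE_HE hm 64 26543 _ hn a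
  obtain ⟨a, h⟩ := cnd_eq h
  have hn : ∀ e, e < 26671 → S.HE e := S.runE_HE hm 64 26607 _ hn a
  obtain ⟨a, h⟩ := cnd_eq h
  have hn : ∀ e, e < 26735 → S.HE e := S.runE_HE hm 64 26671 _ hn a
  obtain ⟨a, h⟩ := cnd_eq h
  have hn : ∀ e, e < 26799 → S.HE e := S.runE_HE hm 64 26735 _ hn a
  obtain ⟨a, h⟩ := cnd_eq h
  have hn : ∀ e, e < 26863 → S.HE e := S.runE_HE hm 64 26799 _ hn a
  obtain ⟨a, h⟩ := cnd_eq h
  have hn : ∀ e, e < 26927 → S.HE e := S.runE_HE hm 64 26863 _ hn a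
  exact ⟨hn, hm⟩

theorem c_85 (h : S.Q 26927 5951) : S.Q 27311 5951 := by
  obtain ⟨hn, hm⟩ := h
  have h := run_85
  obtain ⟨a, h⟩ := cnd_eq h
  have hn : ∀ e, e < 26991 → S.HE e := S.runE_HE hm 64 26927 _ hn a
  obtain ⟨a, h⟩ := cnd_eq h
  have hn : ∀ e, e < 27055 → S.HE e := S.runE_HE hm 64 26991 _ hn a
  obtain ⟨a, h⟩ := cnd_eq h
  have hn : ∀ e, e < 27119 → S.HE e := S.runE_HE hm 64 27055 _ hn a
  obtain ⟨a, h⟩ := cnd_eq h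
  have hn : ∀ e, e < 27183 → S.HE e := S.runE_HE hm 64 27119 _ hn a
  obtain ⟨a, h⟩ := cnd_eq h
  have hn : ∀ e, e < 27247 → S.HE e := S.runE_HE hm 64 27183 _ hn a
  obtain ⟨a, h⟩ := cnd_eq h
  have hn : ∀ e, e < 27311 → S.HE e := S.runE_HE hm 64 27247 _ hn a
  exact ⟨hn, hm⟩

theorem c_86 (h : S.Q 27311 5951) : S.Q 27695 5951 := by
  obtain ⟨hn, hm⟩ := h
  have h := run_86
  obtain ⟨a, h⟩ := cnd_eq h
  have hn : ∀ e, e < 27375 → S.HE e := S.runE_HE hm 64 27311 _ hn a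
  obtain ⟨a, h⟩ := cnd_eq h
  have hn : ∀ e, e < 27439 → S.HE e := S.runE_HE hm 64 27375 _ hn a
  obtain ⟨a, h⟩ := cnd_eq h
  have hn : ∀ e, e < 27503 → S.HE e := S.runE_HE hm 64 27439 _ hn a
  obtain ⟨a, h⟩ := cnd_eq h
  have hn : ∀ e, e < 27567 → S.HE e := S.runE_HE hm 64 27503 _ hn a
  obtain ⟨a, h⟩ := cnd_eq h
  have hn : ∀ e, e < 27631 → S.HE e := S.runE_HE hm 64 27567 _ hn a
  obtain ⟨a, h⟩ := cnd_eq h
  have hn : ∀ e, e < 27695 → S.HE e := S.runE_HE hm 64 27631 _ hn a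
  exact ⟨hn, hm⟩

theorem c_87 (h : S.Q 27695 5951) : S.Q 28079 5951 := by
  obtain ⟨hn, hm⟩ := h
  have h := run_87
  obtain ⟨a, h⟩ := cnd_eq h
  have hn : ∀ e, e < 27759 → S.HE e := S.runE_HE hm 64 27695 _ hn a
  obtain ⟨a, h⟩ := cnd_eq h
  have hn : ∀ e, e < 27823 → S.HE e := S.runE_HE hm 64 27759 _ hn a
  obtain ⟨a, h⟩ := cnd_eq h
  have hn : ∀ e, e < 27887 → S.HE e := S.runE_HE hm 64 27823 _ hn a
  obtain ⟨a, h⟩ := cnd_eq h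
  have hn : ∀ e, e < 27951 → S.HE e := S.runE_HE hm 64 27887 _ hn a
  obtain ⟨a, h⟩ := cnd_eq h
  have hn : ∀ e, e < 28015 → S.HE e := S.runE_HE hm 64 27951 _ hn a
  obtain ⟨a, h⟩ := cnd_eq h
  have hn : ∀ e, e < 28079 → S.HE e := S.runE_HE hm 64 28015 _ hn a
  exact ⟨hn, hm⟩

theorem c_88 (h : S.Q 28079 5951) : S.Q 28463 5951 := by
  obtain ⟨hn, hm⟩ := h
  have h := run_88
  obtain ⟨a, h⟩ := cnd_eq h
  have hn : ∀ e, e < 28143 → S.HE e := S.runE_HE hm 64 28079 _ hn a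
  obtain ⟨a, h⟩ := cnd_eq h
  have hn : ∀ e, e < 28207 → S.HE e := S.runE_HE hm 64 28143 _ hn a
  obtain ⟨a, h⟩ := cnd_eq h
  have hn : ∀ e, e < 28271 → S.HE e := S.runE_HE hm 64 28207 _ hn a
  obtain ⟨a, h⟩ := cnd_eq h
  have hn : ∀ e, e < 28335 → S.HE e := S.runE_HE hm 64 28271 _ hn a
  obtain ⟨a, h⟩ := cnd_eq h
  have hn : ∀ e, e < 28399 → S.HE e := S.runE_HE hm 64 28335 _ hn a
  obtain ⟨a, h⟩ := cnd_eq h
  have hn : ∀ e, e < 28463 → S.HE e := S.runE_HE hm 64 28399 _ hn a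
  exact ⟨hn, hm⟩

theorem c_89 (h : S.Q 28463 5951) : S.Q 28847 5951 := by
  obtain ⟨hn, hm⟩ := h
  have h := run_89
  obtain ⟨a, h⟩ := cnd_eq h
  have hn : ∀ e, e < 28527 → S.HE e := S.runE_HE hm 64 28463 _ hn a
  obtain ⟨a, h⟩ := cnd_eq h
  have hn : ∀ e, e < 28591 → S.HE e := S.runE_HE hm 64 28527 _ hn a
  obtain ⟨a, h⟩ := cnd_eq h
  have hn : ∀ e, e < 28655 → S.HE e := S.runE_HE hm 64 28591 _ hn a
  obtain ⟨a, h⟩ := cnd_eq h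
  have hn : ∀ e, e < 28719 → S.HE e := S.runE_HE hm 64 28655 _ hn a
  obtain ⟨a, h⟩ := cnd_eq h
  have hn : ∀ e, e < 28783 → S.HE e := S.runE_HE hm 64 28719 _ hn a
  obtain ⟨a, h⟩ := cnd_eq h
  have hn : ∀ e, e < 28847 → S.HE e := S.runE_HE hm 64 28783 _ hn a
  exact ⟨hn, hm⟩

theorem c_90 (h : S.Q 28847 5951) : S.Q 29231 5951 := by
  obtain ⟨hn, hm⟩ := h
  have h := run_90
  obtain ⟨a, h⟩ := cnd_eq h
  have hn : ∀ e, e < 28911 → S.HE e := S.runE_HE hm 64 28847 _ hn a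
  obtain ⟨a, h⟩ := cnd_eq h
  have hn : ∀ e, e < 28975 → S.HE e := S.runE_HE hm 64 28911 _ hn a
  obtain ⟨a, h⟩ := cnd_eq h
  have hn : ∀ e, e < 29039 → S.HE e := S.runE_HE hm 64 28975 _ hn a
  obtain ⟨a, h⟩ := cnd_eq h
  have hn : ∀ e, e < 29103 → S.HE e := S.runE_HE hm 64 29039 _ hn a
  obtain ⟨a, h⟩ := cnd_eq h
  have hn : ∀ e, e < 29167 → S.HE e := S.runE_HE hm 64 29103 _ hn a
  obtain ⟨a, h⟩ := cnd_eq h
  have hn : ∀ e, e < 29231 → S.HE e := S.runE_HE hm 64 29167 _ hn a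
  exact ⟨hn, hm⟩

theorem c_91 (h : S.Q 29231 5951) : S.Q 29615 5951 := by
  obtain ⟨hn, hm⟩ := h
  have h := run_91
  obtain ⟨a, h⟩ := cnd_eq h
  have hn : ∀ e, e < 29295 → S.HE e := S.runE_HE hm 64 29231 _ hn a
  obtain ⟨a, h⟩ := cnd_eq h
  have hn : ∀ e, e < 29359 → S.HE e := S.runE_HE hm 64 29295 _ hn a
  obtain ⟨a, h⟩ := cnd_eq h
  have hn : ∀ e, e < 29423 → S.HE e := S.runE_HE hm 64 29359 _ hn a
  obtain ⟨a, h⟩ := cnd_eq h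
  have hn : ∀ e, e < 29487 → S.HE e := S.runE_HE hm 64 29423 _ hn a
  obtain ⟨a, h⟩ := cnd_eq h
  have hn : ∀ e, e < 29551 → S.HE e := S.runE_HE hm 64 29487 _ hn a
  obtain ⟨a, h⟩ := cnd_eq h
  have hn : ∀ e, e < 29615 → S.HE e := S.runE_HE hm 64 29551 _ hn a
  exact ⟨hn, hm⟩

theorem c_92 (h : S.Q 29615 5951) : S.Q 29999 5951 := by
  obtain ⟨hn, hm⟩ := h
  have h := run_92
  obtain ⟨a, h⟩ := cnd_eq h
  have hn : ∀ e, e < 29679 → S.HE e := S.runE_HE hm 64 29615 _ hn a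
  obtain ⟨a, h⟩ := cnd_eq h
  have hn : ∀ e, e < 29743 → S.HE e := S.runE_HE hm 64 29679 _ hn a
  obtain ⟨a, h⟩ := cnd_eq h
  have hn : ∀ e, e < 29807 → S.HE e := S.runE_HE hm 64 29743 _ hn a
  obtain ⟨a, h⟩ := cnd_eq h
  have hn : ∀ e, e < 29871 → S.HE e := S.runE_HE hm 64 29807 _ hn a
  obtain ⟨a, h⟩ := cnd_eq h
  have hn : ∀ e, e < 29935 → S.HE e := S.runE_HE hm 64 29871 _ hn a
  obtain ⟨a, h⟩ := cnd_eq h
  have hn : ∀ e, e < 29999 → S.HE e := S.runE_HE hm 64 29935 _ hn a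
  exact ⟨hn, hm⟩

theorem c_93 (h : S.Q 29999 5951) : S.Q 30383 5951 := by
  obtain ⟨hn, hm⟩ := h
  have h := run_93
  obtain ⟨a, h⟩ := cnd_eq h
  have hn : ∀ e, e < 30063 → S.HE e := S.runE_HE hm 64 29999 _ hn a
  obtain ⟨a, h⟩ := cnd_eq h
  have hn : ∀ e, e < 30127 → S.HE e := S.runE_HE hm 64 30063 _ hn a
  obtain ⟨a, h⟩ := cnd_eq h
  have hn : ∀ e, e < 30191 → S.HE e := S.runE_HE hm 64 30127 _ hn a
  obtain ⟨a, h⟩ := cnd_eq h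
  have hn : ∀ e, e < 30255 → S.HE e := S.runE_HE hm 64 30191 _ hn a
  obtain ⟨a, h⟩ := cnd_eq h
  have hn : ∀ e, e < 30319 → S.HE e := S.runE_HE hm 64 30255 _ hn a
  obtain ⟨a, h⟩ := cnd_eq h
  have hn : ∀ e, e < 30383 → S.HE e := S.runE_HE hm 64 30319 _ hn a
  exact ⟨hn, hm⟩

theorem c_94 (h : S.Q 30383 5951) : S.Q 30767 5951 := by
  obtain ⟨hn, hm⟩ := h
  have h := run_94
  obtain ⟨a, h⟩ := cnd_eq h
  have hn : ∀ e, e < 30447 → S.HE e := S.runE_HE hm 64 30383 _ hn a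
  obtain ⟨a, h⟩ := cnd_eq h
  have hn : ∀ e, e < 30511 → S.HE e := S.runE_HE hm 64 30447 _ hn a
  obtain ⟨a, h⟩ := cnd_eq h
  have hn : ∀ e, e < 30575 → S.HE e := S.runE_HE hm 64 30511 _ hn a
  obtain ⟨a, h⟩ := cnd_eq h
  have hn : ∀ e, e < 30639 → S.HE e := S.runE_HE hm 64 30575 _ hn a
  obtain ⟨a, h⟩ := cnd_eq h
  have hn : ∀ e, e < 30703 → S.HE e := S.runE_HE hm 64 30639 _ hn a
  obtain ⟨a, h⟩ := cnd_eq h
  have hn : ∀ e, e < 30767 → S.HE e := S.runE_HE hm 64 30703 _ hn a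
  exact ⟨hn, hm⟩

theorem c_95 (h : S.Q 30767 5951) : S.Q 31151 5951 := by
  obtain ⟨hn, hm⟩ := h
  have h := run_95
  obtain ⟨a, h⟩ := cnd_eq h
  have hn : ∀ e, e < 30831 → S.HE e := S.runE_HE hm 64 30767 _ hn a
  obtain ⟨a, h⟩ := cnd_eq h
  have hn : ∀ e, e < 30895 → S.HE e := S.runE_HE hm 64 30831 _ hn a
  obtain ⟨a, h⟩ := cnd_eq h
  have hn : ∀ e, e < 30959 → S.HE e := S.runE_HE hm 64 30895 _ hn a
  obtain ⟨a, h⟩ := cnd_eq h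
  have hn : ∀ e, e < 31023 → S.HE e := S.runE_HE hm 64 30959 _ hn a
  obtain ⟨a, h⟩ := cnd_eq h
  have hn : ∀ e, e < 31087 → S.HE e := S.runE_HE hm 64 31023 _ hn a
  obtain ⟨a, h⟩ := cnd_eq h
  have hn : ∀ e, e < 31151 → S.HE e := S.runE_HE hm 64 31087 _ hn a
  exact ⟨hn, hm⟩

theorem c_96 (h : S.Q 31151 5951) : S.Q 31535 5951 := by
  obtain ⟨hn, hm⟩ := h
  have h := run_96
  obtain ⟨a, h⟩ := cnd_eq h
  have hn : ∀ e, e < 31215 → S.HE e := S.runE_HE hm 64 31151 _ hn a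
  obtain ⟨a, h⟩ := cnd_eq h
  have hn : ∀ e, e < 31279 → S.HE e := S.runE_HE hm 64 31215 _ hn a
  obtain ⟨a, h⟩ := cnd_eq h
  have hn : ∀ e, e < 31343 → S.HE e := S.runE_HE hm 64 31279 _ hn a
  obtain ⟨a, h⟩ := cnd_eq h
  have hn : ∀ e, e < 31407 → S.HE e := S.runE_HE hm 64 31343 _ hn a
  obtain ⟨a, h⟩ := cnd_eq h
  have hn : ∀ e, e < 31471 → S.HE e := S.runE_HE hm 64 31407 _ hn a
  obtain ⟨a, h⟩ := cnd_eq h
  have hn : ∀ e, e < 31535 → S.HE e := S.runE_HE hm 64 31471 _ hn a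
  exact ⟨hn, hm⟩

theorem c_97 (h : S.Q 31535 5951) : S.Q 31919 5951 := by
  obtain ⟨hn, hm⟩ := h
  have h := run_97
  obtain ⟨a, h⟩ := cnd_eq h
  have hn : ∀ e, e < 31599 → S.HE e := S.runE_HE hm 64 31535 _ hn a
  obtain ⟨a, h⟩ := cnd_eq h
  have hn : ∀ e, e < 31663 → S.HE e := S.runE_HE hm 64 31599 _ hn a
  obtain ⟨a, h⟩ := cnd_eq h
  have hn : ∀ e, e < 31727 → S.HE e := S.runE_HE hm 64 31663 _ hn a
  obtain ⟨a, h⟩ := cnd_eq h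
  have hn : ∀ e, e < 31791 → S.HE e := S.runE_HE hm 64 31727 _ hn a
  obtain ⟨a, h⟩ := cnd_eq h
  have hn : ∀ e, e < 31855 → S.HE e := S.runE_HE hm 64 31791 _ hn a
  obtain ⟨a, h⟩ := cnd_eq h
  have hn : ∀ e, e < 31919 → S.HE e := S.runE_HE hm 64 31855 _ hn a
  exact ⟨hn, hm⟩

theorem c_98 (h : S.Q 31919 5951) : S.Q 32303 5951 := by
  obtain ⟨hn, hm⟩ := h
  have h := run_98
  obtain ⟨a, h⟩ := cnd_eq h
  have hn : ∀ e, e < 31983 → S.HE e := S.runE_HE hm 64 31919 _ hn a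
  obtain ⟨a, h⟩ := cnd_eq h
  have hn : ∀ e, e < 32047 → S.HE e := S.runE_HE hm 64 31983 _ hn a
  obtain ⟨a, h⟩ := cnd_eq h
  have hn : ∀ e, e < 32111 → S.HE e := S.runE_HE hm 64 32047 _ hn a
  obtain ⟨a, h⟩ := cnd_eq h
  have hn : ∀ e, e < 32175 → S.HE e := S.runE_HE hm 64 32111 _ hn a
  obtain ⟨a, h⟩ := cnd_eq h
  have hn : ∀ e, e < 32239 → S.HE e := S.runE_HE hm 64 32175 _ hn a
  obtain ⟨a, h⟩ := cnd_eq h
  have hn : ∀ e, e < 32303 → S.HE e := S.runE_HE hm 64 32239 _ hn a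
  exact ⟨hn, hm⟩

theorem c_99 (h : S.Q 32303 5951) : S.Q 32687 5951 := by
  obtain ⟨hn, hm⟩ := h
  have h := run_99
  obtain ⟨a, h⟩ := cnd_eq h
  have hn : ∀ e, e < 32367 → S.HE e := S.runE_HE hm 64 32303 _ hn a
  obtain ⟨a, h⟩ := cnd_eq h
  have hn : ∀ e, e < 32431 → S.HE e := S.runE_HE hm 64 32367 _ hn a
  obtain ⟨a, h⟩ := cnd_eq h
  have hn : ∀ e, e < 32495 → S.HE e := S.runE_HE hm 64 32431 _ hn a
  obtain ⟨a, h⟩ := cnd_eq h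
  have hn : ∀ e, e < 32559 → S.HE e := S.runE_HE hm 64 32495 _ hn a
  obtain ⟨a, h⟩ := cnd_eq h
  have hn : ∀ e, e < 32623 → S.HE e := S.runE_HE hm 64 32559 _ hn a
  obtain ⟨a, h⟩ := cnd_eq h
  have hn : ∀ e, e < 32687 → S.HE e := S.runE_HE hm 64 32623 _ hn a
  exact ⟨hn, hm⟩

theorem c_100 (h : S.Q 32687 5951) : S.Q 33071 5951 := by
  obtain ⟨hn, hm⟩ := h
  have h := run_100
  obtain ⟨a, h⟩ := cnd_eq h
  have hn : ∀ e, e < 32751 → S.HE e := S.runE_HE hm 64 32687 _ hn a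
  obtain ⟨a, h⟩ := cnd_eq h
  have hn : ∀ e, e < 32815 → S.HE e := S.runE_HE hm 64 32751 _ hn a
  obtain ⟨a, h⟩ := cnd_eq h
  have hn : ∀ e, e < 32879 → S.HE e := S.runE_HE hm 64 32815 _ hn a
  obtain ⟨a, h⟩ := cnd_eq h
  have hn : ∀ e, e < 32943 → S.HE e := S.runE_HE hm 64 32879 _ hn a
  obtain ⟨a, h⟩ := cnd_eq h
  have hn : ∀ e, e < 33007 → S.HE e := S.runE_HE hm 64 32943 _ hn a
  obtain ⟨a, h⟩ := cnd_eq h
  have hn : ∀ e, e < 33071 → S.HE e := S.runE_HE hm 64 33007 _ hn a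
  exact ⟨hn, hm⟩

theorem c_101 (h : S.Q 33071 5951) : S.Q 33455 5951 := by
  obtain ⟨hn, hm⟩ := h
  have h := run_101
  obtain ⟨a, h⟩ := cnd_eq h
  have hn : ∀ e, e < 33135 → S.HE e := S.runE_HE hm 64 33071 _ hn a
  obtain ⟨a, h⟩ := cnd_eq h
  have hn : ∀ e, e < 33199 → S.HE e := S.runE_HE hm 64 33135 _ hn a
  obtain ⟨a, h⟩ := cnd_eq h
  have hn : ∀ e, e < 33263 → S.HE e := S.runE_HE hm 64 33199 _ hn a
  obtain ⟨a, h⟩ := cnd_eq h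
  have hn : ∀ e, e < 33327 → S.HE e := S.runE_HE hm 64 33263 _ hn a
  obtain ⟨a, h⟩ := cnd_eq h
  have hn : ∀ e, e < 33391 → S.HE e := S.runE_HE hm 64 33327 _ hn a
  obtain ⟨a, h⟩ := cnd_eq h
  have hn : ∀ e, e < 33455 → S.HE e := S.runE_HE hm 64 33391 _ hn a
  exact ⟨hn, hm⟩

theorem c_102 (h : S.Q 33455 5951) : S.Q 33803 5951 := by
  obtain ⟨hn, hm⟩ := h
  have h := run_102
  obtain ⟨a, h⟩ := cnd_eq h
  have hn : ∀ e, e < 33519 → S.HE e := S.runE_HE hm 64 33455 _ hn a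
  obtain ⟨a, h⟩ := cnd_eq h
  have hn : ∀ e, e < 33583 → S.HE e := S.runE_HE hm 64 33519 _ hn a
  obtain ⟨a, h⟩ := cnd_eq h
  have hn : ∀ e, e < 33647 → S.HE e := S.runE_HE hm 64 33583 _ hn a
  obtain ⟨a, h⟩ := cnd_eq h
  have hn : ∀ e, e < 33711 → S.HE e := S.runE_HE hm 64 33647 _ hn a
  obtain ⟨a, h⟩ := cnd_eq h
  have hn : ∀ e, e < 33775 → S.HE e := S.runE_HE hm 64 33711 _ hn a
  obtain ⟨a, h⟩ := cnd_eq h
  have hn : ∀ e, e < 33803 → S.HE e := S.runE_HE hm 28 33775 _ hn a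
  exact ⟨hn, hm⟩

theorem c_103 (h : S.Q 33803 5951) : S.Q 33803 6281 := by
  obtain ⟨hn, hm⟩ := h
  have h := run_103
  obtain ⟨a, h⟩ := cnd_eq h
  have hm : ∀ e, e < 6015 → S.HS e := S.runS_HS (n := 33803) hn 64 5951 _ hm a
  obtain ⟨a, h⟩ := cnd_eq h
  have hm : ∀ e, e < 6079 → S.HS e := S.runS_HS (n := 33803) hn 64 6015 _ hm a
  obtain ⟨a, h⟩ := cnd_eq h
  have hm : ∀ e, e < 6143 → S.HS e := S.runS_HS (n := 33803) hn 64 6079 _ hm a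
  obtain ⟨a, h⟩ := cnd_eq h
  have hm : ∀ e, e < 6207 → S.HS e := S.runS_HS (n := 33803) hn 64 6143 _ hm a
  obtain ⟨a, h⟩ := cnd_eq h
  have hm : ∀ e, e < 6271 → S.HS e := S.runS_HS (n := 33803) hn 64 6207 _ hm a
  obtain ⟨a, h⟩ := cnd_eq h
  have hm : ∀ e, e < 6281 → S.HS e := S.runS_HS (n := 33803) hn 10 6271 _ hm a
  exact ⟨hn, hm⟩

theorem c_104 (h : S.Q 33803 6281) : S.Q 34187 6281 := by
  obtain ⟨hn, hm⟩ := h
  have h := run_104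
  obtain ⟨a, h⟩ := cnd_eq h
  have hn : ∀ e, e < 33867 → S.HE e := S.runE_HE hm 64 33803 _ hn a
  obtain ⟨a, h⟩ := cnd_eq h
  have hn : ∀ e, e < 33931 → S.HE e := S.runE_HE hm 64 33867 _ hn a
  obtain ⟨a, h⟩ := cnd_eq h
  have hn : ∀ e, e < 33995 → S.HE e := S.runE_HE hm 64 33931 _ hn a
  obtain ⟨a, h⟩ := cnd_eq h
  have hn : ∀ e, e < 34059 → S.HE e := S.runE_HE hm 64 33995 _ hn a
  obtain ⟨a, h⟩ := cnd_eq h
  have hn : ∀ e, e < 34123 → S.HE e := S.runE_HE hm 64 34059 _ hn a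
  obtain ⟨a, h⟩ := cnd_eq h
  have hn : ∀ e, e < 34187 → S.HE e := S.runE_HE hm 64 34123 _ hn a
  exact ⟨hn, hm⟩

theorem c_105 (h : S.Q 34187 6281) : S.Q 34571 6281 := by
  obtain ⟨hn, hm⟩ := h
  have h := run_105
  obtain ⟨a, h⟩ := cnd_eq h
  have hn : ∀ e, e < 34251 → S.HE e := S.runE_HE hm 64 34187 _ hn a
  obtain ⟨a, h⟩ := cnd_eq h
  have hn : ∀ e, e < 34315 → S.HE e := S.runE_HE hm 64 34251 _ hn a
  obtain ⟨a, h⟩ := cnd_eq h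
  have hn : ∀ e, e < 34379 → S.HE e := S.runE_HE hm 64 34315 _ hn a
  obtain ⟨a, h⟩ := cnd_eq h
  have hn : ∀ e, e < 34443 → S.HE e := S.runE_HE hm 64 34379 _ hn a
  obtain ⟨a, h⟩ := cnd_eq h
  have hn : ∀ e, e < 34507 → S.HE e := S.runE_HE hm 64 34443 _ hn a
  obtain ⟨a, h⟩ := cnd_eq h
  have hn : ∀ e, e < 34571 → S.HE e := S.runE_HE hm 64 34507 _ hn a
  exact ⟨hn, hm⟩

theorem c_106 (h : S.Q 34571 6281) : S.Q 34955 6281 := by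
  obtain ⟨hn, hm⟩ := h
  have h := run_106
  obtain ⟨a, h⟩ := cnd_eq h
  have hn : ∀ e, e < 34635 → S.HE e := S.runE_HE hm 64 34571 _ hn a
  obtain ⟨a, h⟩ := cnd_eq h
  have hn : ∀ e, e < 34699 → S.HE e := S.runE_HE hm 64 34635 _ hn a
  obtain ⟨a, h⟩ := cnd_eq h
  have hn : ∀ e, e < 34763 → S.HE e := S.runE_HE hm 64 34699 _ hn a
  obtain ⟨a, h⟩ := cnd_eq h
  have hn : ∀ e, e < 34827 → S.HE e := S.runE_HE hm 64 34763 _ hn a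
  obtain ⟨a, h⟩ := cnd_eq h
  have hn : ∀ e, e < 34891 → S.HE e := S.runE_HE hm 64 34827 _ hn a
  obtain ⟨a, h⟩ := cnd_eq h
  have hn : ∀ e, e < 34955 → S.HE e := S.runE_HE hm 64 34891 _ hn a
  exact ⟨hn, hm⟩

theorem c_107 (h : S.Q 34955 6281) : S.Q 35339 6281 := by
  obtain ⟨hn, hm⟩ := h
  have h := run_107
  obtain ⟨a, h⟩ := cnd_eq h
  have hn : ∀ e, e < 35019 → S.HE e := S.runE_HE hm 64 34955 _ hn a
  obtain ⟨a, h⟩ := cnd_eq h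
  have hn : ∀ e, e < 35083 → S.HE e := S.runE_HE hm 64 35019 _ hn a
  obtain ⟨a, h⟩ := cnd_eq h
  have hn : ∀ e, e < 35147 → S.HE e := S.runE_HE hm 64 35083 _ hn a
  obtain ⟨a, h⟩ := cnd_eq h
  have hn : ∀ e, e < 35211 → S.HE e := S.runE_HE hm 64 35147 _ hn a
  obtain ⟨a, h⟩ := cnd_eq h
  have hn : ∀ e, e < 35275 → S.HE e := S.runE_HE hm 64 35211 _ hn a
  obtain ⟨a, h⟩ := cnd_eq h
  have hn : ∀ e, e < 35339 → S.HE e := S.runE_HE hm 64 35275 _ hn a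
  exact ⟨hn, hm⟩

theorem c_108 (h : S.Q 35339 6281) : S.Q 35723 6281 := by
  obtain ⟨hn, hm⟩ := h
  have h := run_108
  obtain ⟨a, h⟩ := cnd_eq h
  have hn : ∀ e, e < 35403 → S.HE e := S.runE_HE hm 64 35339 _ hn a
  obtain ⟨a, h⟩ := cnd_eq h
  have hn : ∀ e, e < 35467 → S.HE e := S.runE_HE hm 64 35403 _ hn a
  obtain ⟨a, h⟩ := cnd_eq h
  have hn : ∀ e, e < 35531 → S.HE e := S.runE_HE hm 64 35467 _ hn a
  obtain ⟨a, h⟩ := cnd_eq h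
  have hn : ∀ e, e < 35595 → S.HE e := S.runE_HE hm 64 35531 _ hn a
  obtain ⟨a, h⟩ := cnd_eq h
  have hn : ∀ e, e < 35659 → S.HE e := S.runE_HE hm 64 35595 _ hn a
  obtain ⟨a, h⟩ := cnd_eq h
  have hn : ∀ e, e < 35723 → S.HE e := S.runE_HE hm 64 35659 _ hn a
  exact ⟨hn, hm⟩

theorem c_109 (h : S.Q 35723 6281) : S.Q 36107 6281 := by
  obtain ⟨hn, hm⟩ := h
  have h := run_109
  obtain ⟨a, h⟩ := cnd_eq h
  have hn : ∀ e, e < 35787 → S.HE e := S.runE_HE hm 64 35723 _ hn a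
  obtain ⟨a, h⟩ := cnd_eq h
  have hn : ∀ e, e < 35851 → S.HE e := S.runE_HE hm 64 35787 _ hn a
  obtain ⟨a, h⟩ := cnd_eq h
  have hn : ∀ e, e < 35915 → S.HE e := S.runE_HE hm 64 35851 _ hn a
  obtain ⟨a, h⟩ := cnd_eq h
  have hn : ∀ e, e < 35979 → S.HE e := S.runE_HE hm 64 35915 _ hn a
  obtain ⟨a, h⟩ := cnd_eq h
  have hn : ∀ e, e < 36043 → S.HE e := S.runE_HE hm 64 35979 _ hn a
  obtain ⟨a, h⟩ := cnd_eq h
  have hn : ∀ e, e < 36107 → S.HE e := S.runE_HE hm 64 36043 _ hn a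
  exact ⟨hn, hm⟩

theorem c_110 (h : S.Q 36107 6281) : S.Q 36491 6281 := by
  obtain ⟨hn, hm⟩ := h
  have h := run_110
  obtain ⟨a, h⟩ := cnd_eq h
  have hn : ∀ e, e < 36171 → S.HE e := S.runE_HE hm 64 36107 _ hn a
  obtain ⟨a, h⟩ := cnd_eq h
  have hn : ∀ e, e < 36235 → S.HE e := S.runE_HE hm 64 36171 _ hn a
  obtain ⟨a, h⟩ := cnd_eq h
  have hn : ∀ e, e < 36299 → S.HE e := S.runE_HE hm 64 36235 _ hn a
  obtain ⟨a, h⟩ := cnd_eq h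
  have hn : ∀ e, e < 36363 → S.HE e := S.runE_HE hm 64 36299 _ hn a
  obtain ⟨a, h⟩ := cnd_eq h
  have hn : ∀ e, e < 36427 → S.HE e := S.runE_HE hm 64 36363 _ hn a
  obtain ⟨a, h⟩ := cnd_eq h
  have hn : ∀ e, e < 36491 → S.HE e := S.runE_HE hm 64 36427 _ hn a
  exact ⟨hn, hm⟩

theorem c_111 (h : S.Q 36491 6281) : S.Q 36875 6281 := by
  obtain ⟨hn, hm⟩ := h
  have h := run_111
  obtain ⟨a, h⟩ := cnd_eq h
  have hn : ∀ e, e < 36555 → S.HE e := S.runE_HE hm 64 36491 _ hn a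
  obtain ⟨a, h⟩ := cnd_eq h
  have hn : ∀ e, e < 36619 → S.HE e := S.runE_HE hm 64 36555 _ hn a
  obtain ⟨a, h⟩ := cnd_eq h
  have hn : ∀ e, e < 36683 → S.HE e := S.runE_HE hm 64 36619 _ hn a
  obtain ⟨a, h⟩ := cnd_eq h
  have hn : ∀ e, e < 36747 → S.HE e := S.runE_HE hm 64 36683 _ hn a
  obtain ⟨a, h⟩ := cnd_eq h
  have hn : ∀ e, e < 36811 → S.HE e := S.runE_HE hm 64 36747 _ hn a
  obtain ⟨a, h⟩ := cnd_eq h
  have hn : ∀ e, e < 36875 → S.HE e := S.runE_HE hm 64 36811 _ hn a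
  exact ⟨hn, hm⟩

theorem c_112 (h : S.Q 36875 6281) : S.Q 37259 6281 := by
  obtain ⟨hn, hm⟩ := h
  have h := run_112
  obtain ⟨a, h⟩ := cnd_eq h
  have hn : ∀ e, e < 36939 → S.HE e := S.runE_HE hm 64 36875 _ hn a
  obtain ⟨a, h⟩ := cnd_eq h
  have hn : ∀ e, e < 37003 → S.HE e := S.runE_HE hm 64 36939 _ hn a
  obtain ⟨a, h⟩ := cnd_eq h
  have hn : ∀ e, e < 37067 → S.HE e := S.runE_HE hm 64 37003 _ hn a
  obtain ⟨a, h⟩ := cnd_eq h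
  have hn : ∀ e, e < 37131 → S.HE e := S.runE_HE hm 64 37067 _ hn a
  obtain ⟨a, h⟩ := cnd_eq h
  have hn : ∀ e, e < 37195 → S.HE e := S.runE_HE hm 64 37131 _ hn a
  obtain ⟨a, h⟩ := cnd_eq h
  have hn : ∀ e, e < 37259 → S.HE e := S.runE_HE hm 64 37195 _ hn a
  exact ⟨hn, hm⟩

theorem c_113 (h : S.Q 37259 6281) : S.Q 37643 6281 := by
  obtain ⟨hn, hm⟩ := h
  have h := run_113
  obtain ⟨a, h⟩ := cnd_eq h
  have hn : ∀ e, e < 37323 → S.HE e := S.runE_HE hm 64 37259 _ hn a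
  obtain ⟨a, h⟩ := cnd_eq h
  have hn : ∀ e, e < 37387 → S.HE e := S.runE_HE hm 64 37323 _ hn a
  obtain ⟨a, h⟩ := cnd_eq h
  have hn : ∀ e, e < 37451 → S.HE e := S.runE_HE hm 64 37387 _ hn a
  obtain ⟨a, h⟩ := cnd_eq h
  have hn : ∀ e, e < 37515 → S.HE e := S.runE_HE hm 64 37451 _ hn a
  obtain ⟨a, h⟩ := cnd_eq h
  have hn : ∀ e, e < 37579 → S.HE e := S.runE_HE hm 64 37515 _ hn a
  obtain ⟨a, h⟩ := cnd_eq h
  have hn : ∀ e, e < 37643 → S.HE e := S.runE_HE hm 64 37579 _ hn a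
  exact ⟨hn, hm⟩

theorem c_114 (h : S.Q 37643 6281) : S.Q 38027 6281 := by
  obtain ⟨hn, hm⟩ := h
  have h := run_114
  obtain ⟨a, h⟩ := cnd_eq h
  have hn : ∀ e, e < 37707 → S.HE e := S.runE_HE hm 64 37643 _ hn a
  obtain ⟨a, h⟩ := cnd_eq h
  have hn : ∀ e, e < 37771 → S.HE e := S.runE_HE hm 64 37707 _ hn a
  obtain ⟨a, h⟩ := cnd_eq h
  have hn : ∀ e, e < 37835 → S.HE e := S.runE_HE hm 64 37771 _ hn a
  obtain ⟨a, h⟩ := cnd_eq h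
  have hn : ∀ e, e < 37899 → S.HE e := S.runE_HE hm 64 37835 _ hn a
  obtain ⟨a, h⟩ := cnd_eq h
  have hn : ∀ e, e < 37963 → S.HE e := S.runE_HE hm 64 37899 _ hn a
  obtain ⟨a, h⟩ := cnd_eq h
  have hn : ∀ e, e < 38027 → S.HE e := S.runE_HE hm 64 37963 _ hn a
  exact ⟨hn, hm⟩

theorem c_115 (h : S.Q 38027 6281) : S.Q 38142 6281 := by
  obtain ⟨hn, hm⟩ := h
  have h := run_115
  obtain ⟨a, h⟩ := cnd_eq h
  have hn : ∀ e, e < 38091 → S.HE e := S.runE_HE hm 64 38027 _ hn a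
  obtain ⟨a, h⟩ := cnd_eq h
  have hn : ∀ e, e < 38142 → S.HE e := S.runE_HE hm 51 38091 _ hn a
  exact ⟨hn, hm⟩

theorem c_116 (h : S.Q 38142 6281) : S.Q 38142 6376 := by
  obtain ⟨hn, hm⟩ := h
  have h := run_116
  obtain ⟨a, h⟩ := cnd_eq h
  have hm : ∀ e, e < 6345 → S.HS e := S.runS_HS (n := 38142) hn 64 6281 _ hm a
  obtain ⟨a, h⟩ := cnd_eq h
  have hm : ∀ e, e < 6376 → S.HS e := S.runS_HS (n := 38142) hn 31 6345 _ hm a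
  exact ⟨hn, hm⟩

theorem c_117 (h : S.Q 38142 6376) : S.Q 38526 6376 := by
  obtain ⟨hn, hm⟩ := h
  have h := run_117
  obtain ⟨a, h⟩ := cnd_eq h
  have hn : ∀ e, e < 38206 → S.HE e := S.runE_HE hm 64 38142 _ hn a
  obtain ⟨a, h⟩ := cnd_eq h
  have hn : ∀ e, e < 38270 → S.HE e := S.runE_HE hm 64 38206 _ hn a
  obtain ⟨a, h⟩ := cnd_eq h
  have hn : ∀ e, e < 38334 → S.HE e := S.runE_HE hm 64 38270 _ hn a
  obtain ⟨a, h⟩ := cnd_eq h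
  have hn : ∀ e, e < 38398 → S.HE e := S.runE_HE hm 64 38334 _ hn a
  obtain ⟨a, h⟩ := cnd_eq h
  have hn : ∀ e, e < 38462 → S.HE e := S.runE_HE hm 64 38398 _ hn a
  obtain ⟨a, h⟩ := cnd_eq h
  have hn : ∀ e, e < 38526 → S.HE e := S.runE_HE hm 64 38462 _ hn a
  exact ⟨hn, hm⟩

theorem c_118 (h : S.Q 38526 6376) : S.Q 38788 6376 := by
  obtain ⟨hn, hm⟩ := h
  have h := run_118
  obtain ⟨a, h⟩ := cnd_eq h
  have hn : ∀ e, e < 38590 → S.HE e := S.runE_HE hm 64 38526 _ hn a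
  obtain ⟨a, h⟩ := cnd_eq h
  have hn : ∀ e, e < 38654 → S.HE e := S.runE_HE hm 64 38590 _ hn a
  obtain ⟨a, h⟩ := cnd_eq h
  have hn : ∀ e, e < 38718 → S.HE e := S.runE_HE hm 64 38654 _ hn a
  obtain ⟨a, h⟩ := cnd_eq h
  have hn : ∀ e, e < 38782 → S.HE e := S.runE_HE hm 64 38718 _ hn a
  obtain ⟨a, h⟩ := cnd_eq h
  have hn : ∀ e, e < 38788 → S.HE e := S.runE_HE hm 6 38782 _ hn a
  exact ⟨hn, hm⟩

theorem c_119 (h : S.Q 38788 6376) : S.Q 38788 6387 := by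
  obtain ⟨hn, hm⟩ := h
  have h := run_119
  obtain ⟨a, h⟩ := cnd_eq h
  have hm : ∀ e, e < 6387 → S.HS e := S.runS_HS (n := 38788) hn 11 6376 _ hm a
  exact ⟨hn, hm⟩

theorem c_120 (h : S.Q 38788 6387) : S.Q 38822 6387 := by
  obtain ⟨hn, hm⟩ := h
  have h := run_120
  obtain ⟨a, h⟩ := cnd_eq h
  have hn : ∀ e, e < 38822 → S.HE e := S.runE_HE hm 34 38788 _ hn a
  exact ⟨hn, hm⟩

/-- all facts -/
theorem Sem.all (h1 : S.HE 1799) (h2 : S.HE 1800) (h : ∀ s, s < 4 → S.HS s) : S.Q 38822 6387 := by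
  have q : S.Q 1801 4 := by
    refine ⟨fun e he => ?_, h⟩
    by_cases h3 : e < 1799
    · exact S.runD_HE 1799 0 run_def e (Nat.zero_le e) (by omega)
    · by_cases h4 : e = 1799
      · rw [h4]; exact h1
      · have h5 : e = 1800 := by omega
        rw [h5]; exact h2
  have q := c_0 S q
  have q := c_1 S q
  have q := c_2 S q
  have q := c_3 S q
  have q := c_4 S q
  have q := c_5 S q
  have q := c_6 S q
  have q := c_7 S q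
  have q := c_8 S q
  have q := c_9 S q
  have q := c_10 S q
  have q := c_11 S q
  have q := c_12 S q
  have q := c_13 S q
  have q := c_14 S q
  have q := c_15 S q
  have q := c_16 S q
  have q := c_17 S q
  have q := c_18 S q
  have q := c_19 S q
  have q := c_20 S q
  have q := c_21 S q
  have q := c_22 S q
  have q := c_23 S q
  have q := c_24 S q
  have q := c_25 S q
  have q := c_26 S q
  have q := c_27 S q
  have q := c_28 S q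
  have q := c_29 S q
  have q := c_30 S q
  have q := c_31 S q
  have q := c_32 S q
  have q := c_33 S q
  have q := c_34 S q
  have q := c_35 S q
  have q := c_36 S q
  have q := c_37 S q
  have q := c_38 S q
  have q := c_39 S q
  have q := c_40 S q
  have q := c_41 S q
  have q := c_42 S q
  have q := c_43 S q
  have q := c_44 S q
  have q := c_45 S q
  have q := c_46 S q
  have q := c_47 S q
  have q := c_48 S q
  have q := c_49 S q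
  have q := c_50 S q
  have q := c_51 S q
  have q := c_52 S q
  have q := c_53 S q
  have q := c_54 S q
  have q := c_55 S q
  have q := c_56 S q
  have q := c_57 S q
  have q := c_58 S q
  have q := c_59 S q
  have q := c_60 S q
  have q := c_61 S q
  have q := c_62 S q
  have q := c_63 S q
  have q := c_64 S q
  have q := c_65 S q
  have q := c_66 S q
  have q := c_67 S q
  have q := c_68 S q
  have q := c_69 S q
  have q := c_70 S q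
  have q := c_71 S q
  have q := c_72 S q
  have q := c_73 S q
  have q := c_74 S q
  have q := c_75 S q
  have q := c_76 S q
  have q := c_77 S q
  have q := c_78 S q
  have q := c_79 S q
  have q := c_80 S q
  have q := c_81 S q
  have q := c_82 S q
  have q := c_83 S q
  have q := c_84 S q
  have q := c_85 S q
  have q := c_86 S q
  have q := c_87 S q
  have q := c_88 S q
  have q := c_89 S q
  have q := c_90 S q
  have q := c_91 S q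
  have q := c_92 S q
  have q := c_93 S q
  have q := c_94 S q
  have q := c_95 S q
  have q := c_96 S q
  have q := c_97 S q
  have q := c_98 S q
  have q := c_99 S q
  have q := c_100 S q
  have q := c_101 S q
  have q := c_102 S q
  have q := c_103 S q
  have q := c_104 S q
  have q := c_105 S q
  have q := c_106 S q
  have q := c_107 S q
  have q := c_108 S q
  have q := c_109 S q
  have q := c_110 S q
  have q := c_111 S q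
  have q := c_112 S q
  have q := c_113 S q
  have q := c_114 S q
  have q := c_115 S q
  have q := c_116 S q
  have q := c_117 S q
  have q := c_118 S q
  have q := c_119 S q
  have q := c_120 S q
  exact q

end Pool.Agent.Lib.MP_c2d01e_co.Four
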