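import Pool.Agent.Lib.MP_c2d01e_co.Four.VM

/-!
# Coverage: every `(vertex, translation)` is reached
-/

set_option autoImplicit false
set_option linter.all false

namespace Pool.Agent.Lib.MP_c2d01e_co.Four

/-- codes of all translations, as a set -/
noncomputable def FULL : Nat := 539646733048488177118805690300430624113810229105509989863851225326160448782742479265625376059746178502415

/-- mark the code `t` -/
noncomputable def mark (mask t : Nat) : Nat := Nat.lor mask (Nat.shiftLeft 1 t)

/-- edge item, forwards -/
noncomputable def cF (v r mask : Nat) (ih : Nat → Bool) : Bool :=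
  cnd (Nat.beq (Nat.div r 4398046511104) v)
    (cnd (Nat.ble (Nat.div (Nat.mod r 4294967296) 2097152) 1799)
      (ih (mark mask (Nat.mod (Nat.div r 4294967296) 1024))))

/-- edge item, backwards -/
noncomputable def cB (v r mask : Nat) (ih : Nat → Bool) : Bool :=
  cnd (Nat.beq (Nat.div (Nat.mod r 4294967296) 2097152) v)
    (cnd (Nat.ble (Nat.div r 4398046511104) 1799)
      (ih (mark mask (Nat.mod (Nat.div (Nat.mod r 4294967296) 2048) 1024))))

/-- stabilizer item -/
noncomputable def cS (v s t mask : Nat) (ih : Nat → Bool) : Bool :=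
  cnd (Nat.beq (Nat.div s 2097152) v)
    (cnd (Nat.beq (Nat.mod (Nat.shiftRight mask t) 2) 1)
      (ih (mark mask (add (Nat.mod (Nat.div s 2048) 1024) (act (Nat.mod s 2048) t)))))

/-- `k` items for the vertex `v` -/
noncomputable def cI (v k : Nat) : Nat → Nat → Bool :=
  Nat.rec (motive := fun _ => Nat → Nat → Bool) (fun mask _ => Nat.beq mask FULL) (fun _ ih mask L =>
    iteb (Nat.beq (Nat.mod L 2) 0)
      (cnd (Nat.ble (Nat.succ (Nat.mod (Nat.div L 2) 131072)) 77644)
        (iteb (Nat.beq (Nat.mod (Nat.div L 2) 2) 0)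
          (cF v (ETf (Nat.mod (Nat.div L 4) 65536)) mask (fun m => ih m (Nat.div L 262144)))
          (cB v (ETf (Nat.mod (Nat.div L 4) 65536)) mask (fun m => ih m (Nat.div L 262144)))))
      (cnd (Nat.ble (Nat.succ (Nat.mod (Nat.div L 2) 8192)) 6387)
        (cS v (STf (Nat.mod (Nat.div L 2) 8192)) (Nat.mod (Nat.div L 16384) 512) mask
          (fun m => ih m (Nat.div L 8388608))))) k

/-- all vertices from `v` on -/
noncomputable def cV (l : List Nat) : Nat → Bool :=
  List.rec (motive := fun _ => Nat → Bool) (fun _ => true) (fun L _ ih v =>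
    cnd (cI v 64 0 L) (ih (Nat.succ v))) l

end Pool.Agent.Lib.MP_c2d01e_co.Four
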