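import Pool.Agent.Lib.MP_c2d01e_co.Four.Inst
import Pool.Agent.Lib.MP_c2d01e_co.Four.CovVM
import Pool.Agent.Lib.MP_c2d01e_co.Four.Chain
import Pool.Agent.Lib.MP_c2d01e_co.Dce.Close

/-!
# Finiteness
-/

set_option autoImplicit false
set_option linter.all false

namespace Pool.Agent.Lib.MP_c2d01e_co.Four

open Pool.Agent.Lib.MP_c2d01e_co.Dce (getT TW F4t lp EE Z4 s1 w1 lin wdl WD)

theorem testBit_mark {mask t u : ℕ} (h : (mark mask t).testBit u = true) :
    mask.testBit u = true ∨ u = t := by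
  have h' : (mask ||| (1 <<< t)).testBit u = true := h
  rw [Nat.testBit_or, Nat.testBit_shiftLeft, Bool.or_eq_true, Bool.and_eq_true] at h'
  rcases h' with h' | ⟨h1, h2⟩
  · exact Or.inl h'
  · right
    have h1 : t ≤ u := by simpa using h1
    have := Nat.testBit_one_eq_true_iff_self_eq_zero.1 h2
    omega

namespace Sem

variable {G : Type*} [Group G] (S : Sem G)

/-- the image of `(v, t)` under `z` is known -/
def Cv (v t : ℕ) : Prop :=
  ∃ j y w, j < 1800 ∧ okT y ∧ w < 1152 ∧ S.cc (S.g v * S.E t * S.z) = S.cc (S.g j * S.E y * S.om w)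

theorem om_inv_z {w : ℕ} (hw : w < 1152) : S.z * (S.om w)⁻¹ = (S.om w)⁻¹ * S.z := by
  have h1 := S.zom _ hw
  rw [eq_inv_mul_iff_mul_eq, ← mul_assoc, ← h1, mul_assoc, mul_inv_cancel, mul_one]

theorem om_inv {w : ℕ} (hw : w < 1152) : (S.om w)⁻¹ = S.om (IVf w) :=
  (eq_inv_of_mul_eq_one_left (S.iv_spec w hw)).symm

theorem Cv_fwd {n v : ℕ} (h : S.HE n) (h1 : ETf n / 4398046511104 = v)
    (h2 : ETf n % 4294967296 / 2097152 < 1800) :
    okT (ETf n / 4294967296 % 1024) ∧ S.Cv v (ETf n / 4294967296 % 1024) := by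
  obtain ⟨a1, a2, a3⟩ := h
  refine ⟨a1, ETf n % 4294967296 / 2097152, ETf n % 4294967296 / 2048 % 1024,
    ETf n % 4294967296 % 2048, h2, a2.1, a2.2, ?_⟩
  rw [← h1, a3]
  rfl

theorem Cv_bwd {n v : ℕ} (h : S.HE n) (h1 : ETf n % 4294967296 / 2097152 = v)
    (h2 : ETf n / 4398046511104 < 1800) :
    okT (ETf n % 4294967296 / 2048 % 1024) ∧ S.Cv v (ETf n % 4294967296 / 2048 % 1024) := by
  obtain ⟨a1, a2, a3⟩ := h
  have hw : ETf n % 4294967296 % 2048 < 1152 := a2.2
  refine ⟨a2.1, ETf n / 4398046511104, ETf n / 4294967296 % 1024,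
    IVf (ETf n % 4294967296 % 2048), h2, a1, S.iv_lt _ hw, ?_⟩
  rw [← S.om_inv hw]
  have f2 := S.cc_mul_congr a3 ((S.om (ETf n % 4294967296 % 2048))⁻¹ * S.z)
  have l1 : S.g (ETf n / 4398046511104) * S.E (ETf n / 4294967296 % 1024) * S.z *
      ((S.om (ETf n % 4294967296 % 2048))⁻¹ * S.z) =
      S.g (ETf n / 4398046511104) * S.E (ETf n / 4294967296 % 1024) *
        (S.om (ETf n % 4294967296 % 2048))⁻¹ := by
    have : S.z * ((S.om (ETf n % 4294967296 % 2048))⁻¹ * S.z) =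
        (S.om (ETf n % 4294967296 % 2048))⁻¹ := by
      rw [← mul_assoc, S.om_inv_z hw, mul_assoc, S.zz, mul_one]
    rw [mul_assoc (S.g (ETf n / 4398046511104) * S.E (ETf n / 4294967296 % 1024)), this]
  rw [l1] at f2
  rw [f2]
  congr 1
  unfold pos
  rw [h1]
  simp only [mul_assoc]
  rw [mul_inv_cancel_left]

theorem Cv_stab {n v t : ℕ} (h : S.HS n) (h1 : STf n / 2097152 = v) (ht : okT t) (hc : S.Cv v t) :
    S.Cv v (add (STf n / 2048 % 1024) (act (STf n % 2048) t)) := by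
  obtain ⟨⟨a1, a1'⟩, a2⟩ := h
  obtain ⟨j, y, w, hj, hy, hw, hc⟩ := hc
  have hm := S.mul_lt w (IVf (STf n % 2048)) hw (S.iv_lt _ a1')
  refine ⟨j, y, mul w (IVf (STf n % 2048)), hj, hy, hm, ?_⟩
  rw [S.mul_spec w _ hw (S.iv_lt _ a1'), ← S.om_inv a1']
  have f1 := S.cc_mul_congr a2 (S.E t * S.z * (S.om (STf n % 2048))⁻¹)
  have e1 : S.pos (STf n) * (S.E t * S.z * (S.om (STf n % 2048))⁻¹) =
      S.g v * S.E (add (STf n / 2048 % 1024) (act (STf n % 2048) t)) * S.z := by
    unfold pos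
    rw [h1, S.add_spec _ _ a1 (okT_act _ _)]
    have := S.act_spec (STf n % 2048) t a1' ht
    calc S.g v * S.E (STf n / 2048 % 1024) * S.om (STf n % 2048) *
          (S.E t * S.z * (S.om (STf n % 2048))⁻¹)
        = S.g v * S.E (STf n / 2048 % 1024) * (S.om (STf n % 2048) * S.E t) *
            (S.z * (S.om (STf n % 2048))⁻¹) := by simp only [mul_assoc]
      _ = S.g v * S.E (STf n / 2048 % 1024) * (S.E (act (STf n % 2048) t) * S.om (STf n % 2048)) *
            ((S.om (STf n % 2048))⁻¹ * S.z) := by rw [this, S.om_inv_z a1']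
      _ = _ := by
        simp only [mul_assoc]
        rw [mul_inv_cancel_left]
  rw [e1, h1] at f1
  have e2 : S.g v * (S.E t * S.z * (S.om (STf n % 2048))⁻¹) =
      S.g v * S.E t * S.z * (S.om (STf n % 2048))⁻¹ := by simp only [mul_assoc]
  rw [f1, e2, S.cc_mul_congr hc]
  simp only [mul_assoc]

theorem cI_succ (v k mask L : ℕ) : cI v (k + 1) mask L =
    iteb (Nat.beq (L % 2) 0)
      (cnd (Nat.ble (Nat.succ (L / 2 % 131072)) 77644)
        (iteb (Nat.beq (L / 2 % 2) 0)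
          (cF v (ETf (L / 4 % 65536)) mask (fun m => cI v k m (L / 262144)))
          (cB v (ETf (L / 4 % 65536)) mask (fun m => cI v k m (L / 262144)))))
      (cnd (Nat.ble (Nat.succ (L / 2 % 8192)) 6387)
        (cS v (STf (L / 2 % 8192)) (L / 16384 % 512) mask
          (fun m => cI v k m (L / 8388608)))) := rfl

/-- all marked codes are known -/
def MK (v mask : ℕ) : Prop := ∀ t, mask.testBit t = true → okT t ∧ S.Cv v t

theorem MK_mark {v mask t : ℕ} (h : S.MK v mask) (ht : okT t ∧ S.Cv v t) : S.MK v (mark mask t) := by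
  intro u hu
  rcases testBit_mark hu with h1 | h1
  · exact h u h1
  · rw [h1]; exact ht

theorem cI_sound (hn : ∀ e, e < 38822 → S.HE e) (hm : ∀ s, s < 6387 → S.HS s) (v k : ℕ) :
    ∀ mask L : ℕ, S.MK v mask → cI v k mask L = true → S.MK v FULL := by
  induction k with
  | zero =>
    intro mask L h1 h2
    have h2 : mask = FULL := Nat.eq_of_beq_eq_true h2
    rw [← h2]; exact h1
  | succ k ih =>
    intro mask L h1 h2
    rw [cI_succ] at h2
    cases b1 : Nat.beq (L % 2) 0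
    · rw [b1] at h2
      obtain ⟨c1, h2⟩ := cnd_eq h2
      have c1 : L / 2 % 8192 + 1 ≤ 6387 := Nat.le_of_ble_eq_true c1
      obtain ⟨c2, h2⟩ := cnd_eq h2
      obtain ⟨c3, h2⟩ := cnd_eq h2
      have c2 : STf (L / 2 % 8192) / 2097152 = v := Nat.eq_of_beq_eq_true c2
      have c3 : (mask >>> (L / 16384 % 512)) % 2 = 1 := Nat.eq_of_beq_eq_true c3
      have c4 : mask.testBit (L / 16384 % 512) = true := by
        rw [Nat.testBit_eq_decide_div_mod_eq, ← Nat.shiftRight_eq_div_pow, c3]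
        rfl
      obtain ⟨d1, d2⟩ := h1 _ c4
      exact ih _ _ (S.MK_mark h1 ⟨okT_add _ _, S.Cv_stab (hm _ (by omega)) c2 d1 d2⟩) h2
    · rw [b1] at h2
      obtain ⟨c1, h2⟩ := cnd_eq h2
      have c1 : L / 2 % 131072 + 1 ≤ 77644 := Nat.le_of_ble_eq_true c1
      have c0 : L / 4 % 65536 < 38822 := by omega
      cases b2 : Nat.beq (L / 2 % 2) 0
      · rw [b2] at h2
        obtain ⟨c2, h2⟩ := cnd_eq h2
        obtain ⟨c3, h2⟩ := cnd_eq h2
        have c2 : ETf (L / 4 % 65536) % 4294967296 / 2097152 = v := Nat.eq_of_beq_eq_true c2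
        have c3 : ETf (L / 4 % 65536) / 4398046511104 ≤ 1799 := Nat.le_of_ble_eq_true c3
        exact ih _ _ (S.MK_mark h1 (S.Cv_bwd (hn _ c0) c2 (by omega))) h2
      · rw [b2] at h2
        obtain ⟨c2, h2⟩ := cnd_eq h2
        obtain ⟨c3, h2⟩ := cnd_eq h2
        have c2 : ETf (L / 4 % 65536) / 4398046511104 = v := Nat.eq_of_beq_eq_true c2
        have c3 : ETf (L / 4 % 65536) % 4294967296 / 2097152 ≤ 1799 := Nat.le_of_ble_eq_true c3
        exact ih _ _ (S.MK_mark h1 (S.Cv_fwd (hn _ c0) c2 (by omega))) h2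

theorem cV_cons (L : ℕ) (l : List ℕ) (v : ℕ) : cV (L :: l) v = cnd (cI v 64 0 L) (cV l (v + 1)) := rfl

theorem cV_sound (hn : ∀ e, e < 38822 → S.HE e) (hm : ∀ s, s < 6387 → S.HS s) (l : List ℕ) :
    ∀ v : ℕ, cV l v = true → ∀ u, v ≤ u → u < v + l.length → S.MK u FULL := by
  induction l with
  | nil => intro v h u h1 h2; simp at h2; omega
  | cons L l ih =>
    intro v h u h1 h2
    rw [cV_cons] at h
    obtain ⟨h3, h4⟩ := cnd_eq h
    rcases Nat.eq_or_lt_of_le h1 with h5 | h5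
    · subst h5
      refine S.cI_sound hn hm v 64 0 L (fun t ht => ?_) h3
      simp at ht
    · refine ih (v + 1) h4 u h5 ?_
      rw [List.length_cons] at h2
      omega

end Sem

end Pool.Agent.Lib.MP_c2d01e_co.Four
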