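import Pool.Agent.Lib.MP_c2d01e_co.Four.CovS
import Pool.Agent.Lib.MP_c2d01e_co.Four.K00
import Pool.Agent.Lib.MP_c2d01e_co.Four.K01
import Pool.Agent.Lib.MP_c2d01e_co.Four.K02
import Pool.Agent.Lib.MP_c2d01e_co.Four.K03
import Pool.Agent.Lib.MP_c2d01e_co.Four.K04
import Pool.Agent.Lib.MP_c2d01e_co.Four.K05

/-!
# All vertices are covered

Generated.
-/

set_option autoImplicit false
set_option linter.all false

namespace Pool.Agent.Lib.MP_c2d01e_co.Four

variable {G : Type*} [Group G] (S : Sem G)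

theorem Sem.cstep {a c : ℕ} {l : List ℕ} (hn : ∀ e, e < 38822 → S.HE e)
    (hm : ∀ s, s < 6387 → S.HS s) (h : ∀ u, u < a → S.MK u FULL) (hc : cV l a = true)
    (hl : l.length = c) : ∀ u, u < a + c → S.MK u FULL := by
  intro u hu
  by_cases h1 : u < a
  · exact h u h1
  · exact S.cV_sound hn hm l a hc u (by omega) (by rw [hl]; exact hu)

theorem Sem.cover (q : S.Q 38822 6387) : ∀ u, u < 1800 → S.MK u FULL := by
  obtain ⟨hn, hm⟩ := q
  have k : ∀ u, u < 0 → S.MK u FULL := fun u h => absurd h (Nat.not_lt_zero u)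
  have k : ∀ u, u < 50 → S.MK u FULL := S.cstep hn hm (c := 50) k cov_0 rfl
  have k : ∀ u, u < 100 → S.MK u FULL := S.cstep hn hm (c := 50) k cov_1 rfl
  have k : ∀ u, u < 150 → S.MK u FULL := S.cstep hn hm (c := 50) k cov_2 rfl
  have k : ∀ u, u < 200 → S.MK u FULL := S.cstep hn hm (c := 50) k cov_3 rfl
  have k : ∀ u, u < 250 → S.MK u FULL := S.cstep hn hm (c := 50) k cov_4 rfl
  have k : ∀ u, u < 300 → S.MK u FULL := S.cstep hn hm (c := 50) k cov_5 rfl
  have k : ∀ u, u < 350 → S.MK u FULL := S.cstep hn hm (c := 50) k cov_6 rfl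
  have k : ∀ u, u < 400 → S.MK u FULL := S.cstep hn hm (c := 50) k cov_7 rfl
  have k : ∀ u, u < 450 → S.MK u FULL := S.cstep hn hm (c := 50) k cov_8 rfl
  have k : ∀ u, u < 500 → S.MK u FULL := S.cstep hn hm (c := 50) k cov_9 rfl
  have k : ∀ u, u < 550 → S.MK u FULL := S.cstep hn hm (c := 50) k cov_10 rfl
  have k : ∀ u, u < 600 → S.MK u FULL := S.cstep hn hm (c := 50) k cov_11 rfl
  have k : ∀ u, u < 650 → S.MK u FULL := S.cstep hn hm (c := 50) k cov_12 rfl
  have k : ∀ u, u < 700 → S.MK u FULL := S.cstep hn hm (c := 50) k cov_13 rfl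
  have k : ∀ u, u < 750 → S.MK u FULL := S.cstep hn hm (c := 50) k cov_14 rfl
  have k : ∀ u, u < 800 → S.MK u FULL := S.cstep hn hm (c := 50) k cov_15 rfl
  have k : ∀ u, u < 850 → S.MK u FULL := S.cstep hn hm (c := 50) k cov_16 rfl
  have k : ∀ u, u < 900 → S.MK u FULL := S.cstep hn hm (c := 50) k cov_17 rfl
  have k : ∀ u, u < 950 → S.MK u FULL := S.cstep hn hm (c := 50) k cov_18 rfl
  have k : ∀ u, u < 1000 → S.MK u FULL := S.cstep hn hm (c := 50) k cov_19 rfl
  have k : ∀ u, u < 1050 → S.MK u FULL := S.cstep hn hm (c := 50) k cov_20 rfl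
  have k : ∀ u, u < 1100 → S.MK u FULL := S.cstep hn hm (c := 50) k cov_21 rfl
  have k : ∀ u, u < 1150 → S.MK u FULL := S.cstep hn hm (c := 50) k cov_22 rfl
  have k : ∀ u, u < 1200 → S.MK u FULL := S.cstep hn hm (c := 50) k cov_23 rfl
  have k : ∀ u, u < 1250 → S.MK u FULL := S.cstep hn hm (c := 50) k cov_24 rfl
  have k : ∀ u, u < 1300 → S.MK u FULL := S.cstep hn hm (c := 50) k cov_25 rfl
  have k : ∀ u, u < 1350 → S.MK u FULL := S.cstep hn hm (c := 50) k cov_26 rfl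
  have k : ∀ u, u < 1400 → S.MK u FULL := S.cstep hn hm (c := 50) k cov_27 rfl
  have k : ∀ u, u < 1450 → S.MK u FULL := S.cstep hn hm (c := 50) k cov_28 rfl
  have k : ∀ u, u < 1500 → S.MK u FULL := S.cstep hn hm (c := 50) k cov_29 rfl
  have k : ∀ u, u < 1550 → S.MK u FULL := S.cstep hn hm (c := 50) k cov_30 rfl
  have k : ∀ u, u < 1600 → S.MK u FULL := S.cstep hn hm (c := 50) k cov_31 rfl
  have k : ∀ u, u < 1650 → S.MK u FULL := S.cstep hn hm (c := 50) k cov_32 rfl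
  have k : ∀ u, u < 1700 → S.MK u FULL := S.cstep hn hm (c := 50) k cov_33 rfl
  have k : ∀ u, u < 1750 → S.MK u FULL := S.cstep hn hm (c := 50) k cov_34 rfl
  have k : ∀ u, u < 1800 → S.MK u FULL := S.cstep hn hm (c := 50) k cov_35 rfl
  exact k

end Pool.Agent.Lib.MP_c2d01e_co.Four
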