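import Pool.Agent.Lib.MP_c2d01e_co.Four.Cover

/-!
# Finiteness of a group with the relations `Rels`
-/

set_option autoImplicit false
set_option linter.all false

namespace Pool.Agent.Lib.MP_c2d01e_co.Four

open Pool.Agent.Lib.MP_c2d01e_co.Dce (getT TW F4t lp EE Z4 s1 w1 lin wdl WD)

theorem full_spec : allT (fun t => Nat.beq (Nat.mod (Nat.shiftRight FULL t) 2) 1) = true := by
  decide +kernel

theorem ET1799 : ETf 1799 = 0 := by decide +kernel
theorem ET1800 : ETf 1800 = 4294969344 := by decide +kernel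
theorem ST0 : STf 0 = 2 := by decide +kernel
theorem ST1 : STf 1 = 1 := by decide +kernel
theorem ST2 : STf 2 = 6 := by decide +kernel
theorem ST3 : STf 3 = 48 := by decide +kernel
theorem okT1 : okT 1 := by unfold okT; decide

section

variable {G : Type*} [Group G] {r : ℕ → G} {z : G}

theorem HS_w (R : Rels r z) {n w : ℕ} (hw : w < 1152) (h : STf n = w) : (mkSem R).HS n := by
  have q1 : w / 2097152 = 0 := by omega
  have q2 : w / 2048 % 1024 = 0 := by omega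
  have q3 : w % 2048 = w := by omega
  refine ⟨?_, ?_⟩
  · rw [h]
    exact ⟨by rw [q2]; exact okT_zero, by rw [q3]; exact hw⟩
  · rw [h]
    unfold Sem.pos
    rw [q1, q2, q3, (mkSem R).g_zero, (mkSem R).E0]
    have hz := (mkSem R).zom w hw
    unfold Sem.cc
    rw [one_mul, one_mul, inv_one, one_mul, mul_one, mul_assoc, hz, inv_mul_cancel_left]

theorem HE1799 (R : Rels r z) : (mkSem R).HE 1799 := by
  unfold Sem.HE
  rw [ET1799]
  refine ⟨?_, ⟨?_, ?_⟩, ?_⟩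
  · norm_num; exact okT_zero
  · norm_num; exact okT_zero
  · norm_num
  · unfold Sem.pos
    norm_num
    rw [(mkSem R).g_zero, (mkSem R).E0, (mkSem R).om0]
    unfold Sem.cc
    group

theorem HE1800 (R : Rels r z) : (mkSem R).HE 1800 := by
  have p1 : (4294969344 : ℕ) / 4294967296 % 1024 = 1 := by norm_num
  have p2 : (4294969344 : ℕ) % 4294967296 = 2048 := by norm_num
  have p3 : (4294969344 : ℕ) / 4398046511104 = 0 := by norm_num
  have p4 : (2048 : ℕ) / 2048 % 1024 = 1 := by norm_num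
  have p5 : (2048 : ℕ) % 2048 = 0 := by norm_num
  have p6 : (2048 : ℕ) / 2097152 = 0 := by norm_num
  unfold Sem.HE okS Sem.pos
  rw [ET1800]
  simp only [p1, p2, p3, p4, p5, p6]
  refine ⟨okT1, ⟨okT1, by norm_num⟩, ?_⟩
  rw [(mkSem R).g_zero, (mkSem R).om0, one_mul, mul_one]
  change (Ec r 1 * z)⁻¹ * z * (Ec r 1 * z) = (Ec r 1)⁻¹ * z * Ec r 1
  -- `z` commutes with `E⁻¹ z E`
  have hE : Ec r 1 * omc r 1104 = r 1 := by
    have := val_r1 R.f
    have q1 : 3152 / 2048 = 1 := by norm_num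
    have q2 : 3152 % 2048 = 1104 := by norm_num
    unfold val at this
    rwa [q1, q2] at this
  have hs : z * omc r 1104 = omc r 1104 * z := zomc R (by norm_num)
  have hr1 : (r 1)⁻¹ = r 1 := inv_eq_of_mul_eq_one_left (R.f.sq 1 le_rfl (by norm_num))
  have hz1 : z⁻¹ = z := inv_eq_of_mul_eq_one_left R.zz
  set u := r 1 * z * r 1 with hu
  have huu : u * u = 1 := by
    calc u * u = r 1 * z * (r 1 * r 1) * z * r 1 := by rw [hu]; simp only [mul_assoc]
      _ = r 1 * (z * z) * r 1 := by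
        rw [R.f.sq 1 le_rfl (by norm_num)]; simp only [mul_assoc, one_mul, mul_one]
      _ = 1 := by rw [R.zz, mul_one, R.f.sq 1 le_rfl (by norm_num)]
  have h1 : u * z * u = z := by
    have ha := rel4 R.zz R.a
    rw [hu]
    simpa only [mul_assoc] using ha
  have hc : u * z = z * u := by
    calc u * z = u * z * (u * u) := by rw [huu, mul_one]
      _ = (u * z * u) * u := by simp only [mul_assoc]
      _ = z * u := by rw [h1]
  have hE2 : Ec r 1 = r 1 * (omc r 1104)⁻¹ := eq_mul_inv_of_mul_eq hE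
  have h2 : (Ec r 1)⁻¹ * z * Ec r 1 = omc r 1104 * u * (omc r 1104)⁻¹ := by
    rw [hE2, mul_inv_rev, inv_inv, hr1, hu]; simp only [mul_assoc]
  have hs' : z * (omc r 1104)⁻¹ = (omc r 1104)⁻¹ * z := by
    rw [eq_inv_mul_iff_mul_eq, ← mul_assoc, ← hs, mul_assoc, mul_inv_cancel, mul_one]
  calc (Ec r 1 * z)⁻¹ * z * (Ec r 1 * z) = z * ((Ec r 1)⁻¹ * z * Ec r 1) * z := by
        rw [mul_inv_rev, hz1]; simp only [mul_assoc]
    _ = z * (omc r 1104 * u * (omc r 1104)⁻¹) * z := by rw [h2]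
    _ = (z * omc r 1104) * u * ((omc r 1104)⁻¹ * z) := by simp only [mul_assoc]
    _ = omc r 1104 * (z * u) * z * (omc r 1104)⁻¹ := by rw [hs, ← hs']; simp only [mul_assoc]
    _ = omc r 1104 * u * (z * z) * (omc r 1104)⁻¹ := by rw [← hc]; simp only [mul_assoc]
    _ = (Ec r 1)⁻¹ * z * Ec r 1 := by rw [R.zz, mul_one, h2]

theorem all_facts (R : Rels r z) : (mkSem R).Q 38822 6387 := by
  refine (mkSem R).all (HE1799 R) (HE1800 R) (fun s hs => ?_)
  have h : s = 0 ∨ s = 1 ∨ s = 2 ∨ s = 3 := by omega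
  rcases h with rfl | rfl | rfl | rfl
  · exact HS_w R (by norm_num) ST0
  · exact HS_w R (by norm_num) ST1
  · exact HS_w R (by norm_num) ST2
  · exact HS_w R (by norm_num) ST3

theorem covered (R : Rels r z) {v t : ℕ} (hv : v < 1800) (ht : okT t) : (mkSem R).Cv v t := by
  have h1 := (mkSem R).cover (all_facts R) v hv
  have h2 : (FULL >>> t) % 2 = 1 := Nat.eq_of_beq_eq_true (allT_spec full_spec t ht)
  refine (h1 t ?_).2
  rw [Nat.testBit_eq_decide_div_mod_eq, ← Nat.shiftRight_eq_div_pow, h2]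
  rfl

/-- the conjugates of `z` -/
def TT (R : Rels r z) : Set G :=
  {x | ∃ v t w, v < 1800 ∧ okT t ∧ w < 1152 ∧
    x = (mkSem R).cc ((mkSem R).g v * Ec r t * omc r w)}

theorem TT_finite (R : Rels r z) : (TT R).Finite := by
  have h : TT R ⊆ (fun p : ℕ × ℕ × ℕ => (mkSem R).cc ((mkSem R).g p.1 * Ec r p.2.1 * omc r p.2.2)) ''
      ((Set.Iio 1800) ×ˢ ((Set.Iio 348) ×ˢ (Set.Iio 1152))) := by
    rintro x ⟨v, t, w, hv, ht, hw, rfl⟩
    exact ⟨(v, t, w), ⟨hv, okT_lt ht, hw⟩, rfl⟩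
  exact (((Set.finite_Iio _).prod ((Set.finite_Iio _).prod (Set.finite_Iio _))).image _).subset h

theorem TT_z (R : Rels r z) : z ∈ TT R := by
  refine ⟨0, 0, 0, by norm_num, okT_zero, by norm_num, ?_⟩
  rw [(mkSem R).g_zero, Ec_zero, omc_zero]
  change z = (1 * 1 * 1)⁻¹ * z * (1 * 1 * 1)
  group

theorem TT_conj_z (R : Rels r z) {x : G} (hx : x ∈ TT R) : z * x * z ∈ TT R := by
  obtain ⟨v, t, w, hv, ht, hw, rfl⟩ := hx
  obtain ⟨j, y, w', hj, hy, hw', h⟩ := covered R hv ht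
  have hm := (mul_spec' R.f hw' hw)
  refine ⟨j, y, mul w' w, hj, hy, hm.1, ?_⟩
  have hz1 : z⁻¹ = z := inv_eq_of_mul_eq_one_left R.zz
  have e1 : z * (mkSem R).cc ((mkSem R).g v * Ec r t * omc r w) * z =
      (mkSem R).cc ((mkSem R).g v * Ec r t * omc r w * z) := by
    rw [Sem.cc_mul (mkSem R) _ z, hz1]
  have e2 : (mkSem R).g v * Ec r t * omc r w * z = (mkSem R).g v * Ec r t * z * omc r w := by
    have := zomc R hw
    simp only [mul_assoc]
    rw [this]
  rw [e1, e2, hm.2, ← mul_assoc]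
  exact (mkSem R).cc_mul_congr h (omc r w)

theorem TT_conj_g (R : Rels r z) {g : ℕ} (h2 : 2 ≤ g) (h5 : g ≤ 5) {x : G} (hx : x ∈ TT R) :
    r g * x * r g ∈ TT R := by
  obtain ⟨v, t, w, hv, ht, hw, rfl⟩ := hx
  obtain ⟨m1, m2⟩ := Rf_spec R.f h2 h5 hw
  refine ⟨v, t, Rf g w, hv, ht, m1, ?_⟩
  have hg1 : (r g)⁻¹ = r g := inv_eq_of_mul_eq_one_left (R.f.sq g (by omega) h5)
  rw [m2, ← mul_assoc, Sem.cc_mul (mkSem R) _ (r g), hg1]

theorem TT_conj_1 (R : Rels r z) {x : G} (hx : x ∈ TT R) : r 1 * x * r 1 ∈ TT R := by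
  obtain ⟨v, t, w, hv, ht, hw, rfl⟩ := hx
  obtain ⟨⟨p1, p2⟩, p3⟩ := PT_of R (vA R).1 (vA R).2 K7A w hw
  refine ⟨v, add t (PAf w / 2048), PAf w % 2048, hv, okT_add _ _, p2, ?_⟩
  have hg1 : (r 1)⁻¹ = r 1 := inv_eq_of_mul_eq_one_left (R.f.sq 1 le_rfl (by norm_num))
  rw [Ec_add R.f R.k ht p1]
  have e : (mkSem R).g v * (Ec r t * Ec r (PAf w / 2048)) * omc r (PAf w % 2048) =
      (mkSem R).g v * Ec r t * omc r w * r 1 := by
    simp only [mul_assoc]
    rw [p3]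
  rw [e, Sem.cc_mul (mkSem R) _ (r 1), hg1]

/-- the elements of `P` -/
def PP (r : ℕ → G) : Set G := {x | ∃ t w, okT t ∧ w < 1152 ∧ x = Ec r t * omc r w}

theorem PP_finite : (PP r).Finite := by
  have h : PP r ⊆ (fun p : ℕ × ℕ => Ec r p.1 * omc r p.2) '' ((Set.Iio 348) ×ˢ (Set.Iio 1152)) := by
    rintro x ⟨t, w, ht, hw, rfl⟩
    exact ⟨(t, w), ⟨okT_lt ht, hw⟩, rfl⟩
  exact (((Set.finite_Iio _).prod (Set.finite_Iio _)).image _).subset h

theorem PP_one : (1 : G) ∈ PP r := ⟨0, 0, okT_zero, by norm_num, by rw [Ec_zero, omc_zero, mul_one]⟩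

theorem PP_mul (R : Rels r z) {i : ℕ} (h1 : 1 ≤ i) (h5 : i ≤ 5) {x : G} (hx : x ∈ PP r) :
    x * r i ∈ PP r := by
  obtain ⟨t, w, ht, hw, rfl⟩ := hx
  rcases Nat.eq_or_lt_of_le h1 with h | h
  · subst h
    obtain ⟨⟨p1, p2⟩, p3⟩ := PT_of R (vA R).1 (vA R).2 K7A w hw
    refine ⟨add t (PAf w / 2048), PAf w % 2048, okT_add _ _, p2, ?_⟩
    rw [Ec_add R.f R.k ht p1]
    simp only [mul_assoc]
    rw [p3]
  · obtain ⟨m1, m2⟩ := Rf_spec R.f h h5 hw
    exact ⟨t, Rf i w, ht, m1, by rw [m2, mul_assoc]⟩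

/-- **A group generated by elements satisfying the relations `Rels` is finite.** -/
theorem finite_of_rels (R : Rels r z)
    (hgen : Subgroup.closure (insert z (r '' Set.Icc 1 5)) = ⊤) : Finite G := by
  have hA2 : ∀ a ∈ insert z (r '' Set.Icc 1 5), a * a = 1 := by
    intro a ha
    rcases ha with rfl | ⟨i, ⟨h1, h5⟩, rfl⟩
    · exact R.zz
    · exact R.f.sq i h1 h5
  obtain ⟨N, hN, hnorm, hz⟩ := Dce.closure_normal_finite hgen hA2 (TT_finite R)
    (fun a ha g hg => by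
      rcases ha with rfl | ⟨i, ⟨h1, h5⟩, rfl⟩
      · exact TT_conj_z R hg
      · rcases Nat.eq_or_lt_of_le h1 with h | h
        · subst h; exact TT_conj_1 R hg
        · exact TT_conj_g R h h5 hg) (TT_z R) R.zz
  have : Finite N := hN
  have : Finite (G ⧸ N) := by
    refine Dce.finite_of_closed (G := G ⧸ N) (A := (QuotientGroup.mk' N) '' (insert z (r '' Set.Icc 1 5)))
      (T := (QuotientGroup.mk' N) '' PP r) ?_ ?_ (PP_finite.image _) ⟨1, PP_one, map_one _⟩ ?_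
    · rw [← MonoidHom.map_closure, hgen, ← MonoidHom.range_eq_map]
      exact MonoidHom.range_eq_top.2 (QuotientGroup.mk'_surjective N)
    · rintro _ ⟨a, ha, rfl⟩
      rw [← map_mul, hA2 a ha, map_one]
    · rintro _ ⟨x, hx, rfl⟩ _ ⟨a, ha, rfl⟩
      rcases ha with rfl | ⟨i, ⟨h1, h5⟩, rfl⟩
      · refine ⟨x, hx, ?_⟩
        have : (QuotientGroup.mk' N) a = 1 := (QuotientGroup.eq_one_iff a).2 hz
        rw [this, mul_one]
      · exact ⟨x * r i, PP_mul R h1 h5 hx, map_mul _ _ _⟩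
  exact Finite.of_equiv _ (Subgroup.groupEquivQuotientProdSubgroup (s := N)).symm

end

end Pool.Agent.Lib.MP_c2d01e_co.Four
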