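import Pool.Agent.Lib.MP_c2d01e_co.Four.Trans

/-!
# The group with parameter vector `(4,0,0,0)` is finite: end of the proof
-/

set_option autoImplicit false

namespace Pool.Agent.Lib.MP_c2d01e_co.Four

open Pool.Agent.Lib.MP_c2d01e_co.Dce (getT TW F4t EE Z4 s1 w1 lin wdl WD om fl cx)

section

variable {G K : Type*} [Group G] [Group K] (f : G →* K)

theorem map_lp (r : ℕ → G) (l : List ℕ) : f (Dce.lp r l) = Dce.lp (fun i => f (r i)) l := by
  induction l with
  | nil => simp [Dce.lp]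
  | cons a l ih => rw [Dce.lp_cons, Dce.lp_cons, map_mul, ih]

theorem map_EE (r : ℕ → G) (v : Z4) : f (EE r v) = EE (fun i => f (r i)) v := by
  simp only [Dce.EE, Dce.ev, Dce.e1, Dce.s1, Dce.om, map_mul, map_zpow, map_inv, map_lp]

theorem rels_of_map (hf : Function.Injective f) {r : ℕ → G} {z : G}
    (h : Rels (fun i => f (r i)) (f z)) : Rels r z where
  f := by
    refine ⟨fun i h1 h5 => hf ?_, fun i j h1 h5 g1 g5 hij => hf ?_⟩
    · rw [map_mul, map_one]; exact h.f.sq i h1 h5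
    · rw [map_pow, map_mul, map_one]; exact h.f.cox i j h1 h5 g1 g5 hij
  k := by
    refine ⟨hf ?_, hf ?_, hf ?_, hf ?_⟩ <;> rw [map_EE, map_one]
    · exact h.k.k1
    · exact h.k.k2
    · exact h.k.k3
    · exact h.k.k4
  zz := hf (by rw [map_mul, map_one]; exact h.zz)
  zr i h2 h5 := hf (by rw [map_mul, map_mul]; exact h.zr i h2 h5)
  a := hf (by simpa only [map_pow, map_mul, map_one] using h.a)
  b := hf (by simpa only [map_pow, map_mul, map_one] using h.b)
  c := hf (by simpa only [map_pow, map_mul, map_one] using h.c)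

end

variable {G : Type*} [Group G] {p : ℕ → G}

/-- the subgroup of index at most 10 -/
def HH (p : ℕ → G) : Subgroup G := Subgroup.closure (insert (p 0) (q p '' Set.Icc 1 5))

theorem q_mem (i : ℕ) : q p i ∈ HH p := by
  by_cases h : 1 ≤ i ∧ i ≤ 5
  · exact Subgroup.subset_closure (Or.inr ⟨i, h, rfl⟩)
  · have e : q p i = q p 5 := by
      unfold q sub
      rw [if_neg (by omega), if_neg (by omega), if_neg (by omega), if_neg (by omega)]
      rfl
    rw [e]
    exact Subgroup.subset_closure (Or.inr ⟨5, by simp, rfl⟩)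

theorem p0_mem : p 0 ∈ HH p := Subgroup.subset_closure (Or.inl rfl)

theorem HH_finite (h : Rel41 p) : Finite (HH p) := by
  have R : Rels (G := HH p) (fun i => ⟨q p i, q_mem i⟩) ⟨p 0, p0_mem⟩ :=
    rels_of_map (HH p).subtype (HH p).subtype_injective (relsq h)
  refine finite_of_rels R ?_
  have hc : Subgroup.closure ((Subtype.val : HH p → G) ⁻¹' (insert (p 0) (q p '' Set.Icc 1 5))) = ⊤ :=
    Subgroup.closure_closure_coe_preimage
  rw [eq_top_iff, ← hc]
  refine Subgroup.closure_mono ?_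
  rintro ⟨x, hx⟩ hx2
  rcases hx2 with hx2 | ⟨i, hi, hx2⟩
  · left
    exact Subtype.ext hx2
  · right
    exact ⟨i, hi, Subtype.ext hx2⟩

theorem single (i : ℕ) : Dce.lp p [i] = p i := by rw [Dce.lp_cons, Dce.lp_nil, mul_one]

theorem typeA (h : Rel41 p) : Sym.TypeA p 3 where
  sq i hi := by
    rcases Nat.eq_zero_or_pos i with rfl | h1
    · exact h.sq0
    · exact h.sq i h1 (by omega)
  braid i hi := by
    have hi' : i = 0 ∨ i = 1 ∨ i = 2 := by omega
    rcases hi' with rfl | rfl | rfl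
    · exact braid_of _ _ h.sq0 (h.sq 1 le_rfl (by norm_num)) h.braid0
    · exact braid_of _ _ (h.sq 1 le_rfl (by norm_num)) (h.sq 2 (by norm_num) (by norm_num))
        (h.cox 1 2 (by norm_num) (by norm_num) (by norm_num) (by norm_num) (by norm_num))
    · exact braid_of _ _ (h.sq 2 (by norm_num) (by norm_num)) (h.sq 3 (by norm_num) (by norm_num))
        (h.cox 2 3 (by norm_num) (by norm_num) (by norm_num) (by norm_num) (by norm_num))
  comm i j hij hj := by
    rcases Nat.eq_zero_or_pos i with rfl | h1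
    · exact h.comm0 j (by omega) (by omega)
    · exact Dce.comm_of_cox2 h.toF4t h1 (by omega) (by omega) (by omega) (by omega) (by
        unfold cx; split_ifs <;> omega)

/-- the leaves -/
def leaf (p : ℕ → G) (j : ℕ) : G :=
  match j with
  | 0 => p 4
  | 1 => p 3 * p 4 * p 3
  | 2 => p 2 * (p 3 * p 4 * p 3) * p 2
  | 3 => p 1 * (p 2 * (p 3 * p 4 * p 3) * p 2) * p 1
  | _ => p 0 * (p 1 * (p 2 * (p 3 * p 4 * p 3) * p 2) * p 1) * p 0

theorem conj_fix {a x : G} (ha : a * a = 1) (h : a * x = x * a) : a * x * a = x := by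
  rw [h, mul_assoc, ha, mul_one]

theorem conj_conj {a x : G} (ha : a * a = 1) : a * (a * x * a) * a = x := by
  have : a * (a * x * a) * a = (a * a) * x * (a * a) := by simp only [mul_assoc]
  rw [this, ha, one_mul, mul_one]

theorem leaf_conj (h : Rel41 p) {i j : ℕ} (hi : i ≤ 3) (hj : j ≤ 4) :
    ∃ j', j' ≤ 4 ∧ p i * leaf p j * p i = leaf p j' := by
  have A := typeA h
  have s : ∀ i, i ≤ 3 → p i * p i = 1 := A.sq
  have c04 : p 0 * p 4 = p 4 * p 0 := h.comm0 4 (by norm_num) (by norm_num)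
  have c14 : p 1 * p 4 = p 4 * p 1 := comm13 h (by norm_num) (by norm_num)
  have c24 : p 2 * p 4 = p 4 * p 2 := Dce.comm_of_cox2 h.toF4t (by norm_num) (by norm_num)
    (by norm_num) (by norm_num) (by norm_num) rfl
  have c02 := A.comm 0 2 (by norm_num) (by norm_num)
  have c03 := A.comm 0 3 (by norm_num) (by norm_num)
  have c13 := A.comm 1 3 (by norm_num) (by norm_num)
  have b01 := A.braid 0 (by norm_num)
  have b12 := A.braid 1 (by norm_num)
  have b23 := A.braid 2 (by norm_num)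
  simp only [Nat.zero_add, Nat.reduceAdd] at b01 b12 b23
  have s0 := s 0 (by norm_num)
  have s1 := s 1 (by norm_num)
  have s2 := s 2 (by norm_num)
  have s3 := s 3 (by norm_num)
  -- general facts
  have comm3 : ∀ a b x : G, a * b = b * a → a * x = x * a → a * (b * x * b) = (b * x * b) * a := by
    intro a b x h1 h2
    calc a * (b * x * b) = (a * b) * x * b := by simp only [mul_assoc]
      _ = b * (a * x) * b := by rw [h1]; simp only [mul_assoc]
      _ = b * x * (a * b) := by rw [h2]; simp only [mul_assoc]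
      _ = (b * x * b) * a := by rw [h1]; simp only [mul_assoc]
  -- `a` commutes with `b a x a b` if `a b a = b a b` and `b x = x b`
  have braid3 : ∀ a b x : G, a * b * a = b * a * b → b * x = x * b →
      a * (b * (a * x * a) * b) = (b * (a * x * a) * b) * a := by
    intro a b x h1 h2
    calc a * (b * (a * x * a) * b) = (a * b * a) * x * (a * b) := by simp only [mul_assoc]
      _ = b * a * (b * x) * (a * b) := by rw [h1]; simp only [mul_assoc]
      _ = b * a * x * (b * a * b) := by rw [h2]; simp only [mul_assoc]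
      _ = (b * (a * x * a) * b) * a := by rw [← h1]; simp only [mul_assoc]
  have e1 : ∀ a : G, a * p 3 = p 3 * a → a * p 4 = p 4 * a →
      a * (p 3 * p 4 * p 3) = (p 3 * p 4 * p 3) * a := fun a h1 h2 => comm3 a _ _ h1 h2
  have hi' : i = 0 ∨ i = 1 ∨ i = 2 ∨ i = 3 := by omega
  have hj' : j = 0 ∨ j = 1 ∨ j = 2 ∨ j = 3 ∨ j = 4 := by omega
  have l0_1 : p 0 * (p 3 * p 4 * p 3) = (p 3 * p 4 * p 3) * p 0 := e1 _ c03 c04
  have l1_1 : p 1 * (p 3 * p 4 * p 3) = (p 3 * p 4 * p 3) * p 1 := e1 _ c13 c14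
  have l0_2 := comm3 (p 0) (p 2) _ c02 l0_1
  have l3_2 := braid3 (p 3) (p 2) (p 4) b23.symm c24
  have l2_3 := braid3 (p 2) (p 1) (p 3 * p 4 * p 3) b12.symm l1_1
  have l3_3 := comm3 (p 3) (p 1) _ c13.symm l3_2
  have l1_4 := braid3 (p 1) (p 0) _ b01.symm l0_2
  have l2_4 := comm3 (p 2) (p 0) _ c02.symm l2_3
  have l3_4 := comm3 (p 3) (p 0) _ c03.symm l3_3
  rcases hi' with rfl | rfl | rfl | rfl
  · rcases hj' with rfl | rfl | rfl | rfl | rfl
    · exact ⟨0, by norm_num, conj_fix s0 c04⟩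
    · exact ⟨1, by norm_num, conj_fix s0 l0_1⟩
    · exact ⟨2, by norm_num, conj_fix s0 l0_2⟩
    · exact ⟨4, by norm_num, rfl⟩
    · exact ⟨3, by norm_num, conj_conj s0⟩
  · rcases hj' with rfl | rfl | rfl | rfl | rfl
    · exact ⟨0, by norm_num, conj_fix s1 c14⟩
    · exact ⟨1, by norm_num, conj_fix s1 l1_1⟩
    · exact ⟨3, by norm_num, rfl⟩
    · exact ⟨2, by norm_num, conj_conj s1⟩
    · exact ⟨4, by norm_num, conj_fix s1 l1_4⟩
  · rcases hj' with rfl | rfl | rfl | rfl | rfl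
    · exact ⟨0, by norm_num, conj_fix s2 c24⟩
    · exact ⟨2, by norm_num, rfl⟩
    · exact ⟨1, by norm_num, conj_conj s2⟩
    · exact ⟨3, by norm_num, conj_fix s2 l2_3⟩
    · exact ⟨4, by norm_num, conj_fix s2 l2_4⟩
  · rcases hj' with rfl | rfl | rfl | rfl | rfl
    · exact ⟨1, by norm_num, rfl⟩
    · exact ⟨0, by norm_num, conj_conj s3⟩
    · exact ⟨2, by norm_num, conj_fix s3 l3_2⟩
    · exact ⟨3, by norm_num, conj_fix s3 l3_3⟩
    · exact ⟨4, by norm_num, conj_fix s3 l3_4⟩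

theorem p_mem : p 2 ∈ HH p ∧ p 3 ∈ HH p ∧ p 4 ∈ HH p ∧ p 5 ∈ HH p := by
  have h5 := q_mem (p := p) 5
  have h4 := q_mem (p := p) 4
  have h3 := q_mem (p := p) 3
  have h2 := q_mem (p := p) 2
  have e5 : q p 5 = p 2 := single 2
  have e4 : q p 4 = p 3 := single 3
  have e3 : q p 3 = p 4 := single 4
  have e2 : q p 2 = p 5 := single 5
  rw [e5] at h5
  rw [e4] at h4
  rw [e3] at h3
  rw [e2] at h2
  exact ⟨h5, h4, h3, h2⟩

theorem leaf_mem {j : ℕ} (hj : j ≤ 4) : leaf p j ∈ HH p := by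
  obtain ⟨h2, h3, h4, h5⟩ := p_mem (p := p)
  have l1 : p 3 * p 4 * p 3 ∈ HH p := mul_mem (mul_mem h3 h4) h3
  have l2 : p 2 * (p 3 * p 4 * p 3) * p 2 ∈ HH p := mul_mem (mul_mem h2 l1) h2
  have l3 : p 1 * (p 2 * (p 3 * p 4 * p 3) * p 2) * p 1 ∈ HH p := by
    have e : q p 1 = p 1 * (p 2 * (p 3 * p 4 * p 3) * p 2) * p 1 := by
      change Dce.lp p [1, 2, 3, 4, 3, 2, 1] = _
      simp only [Dce.lp_cons, Dce.lp_nil, mul_one, mul_assoc]
    rw [← e]
    exact q_mem 1
  have l4 : p 0 * (p 1 * (p 2 * (p 3 * p 4 * p 3) * p 2) * p 1) * p 0 ∈ HH p :=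
    mul_mem (mul_mem p0_mem l3) p0_mem
  have hj' : j = 0 ∨ j = 1 ∨ j = 2 ∨ j = 3 ∨ j = 4 := by omega
  rcases hj' with rfl | rfl | rfl | rfl | rfl
  · exact h4
  · exact l1
  · exact l2
  · exact l3
  · exact l4

theorem conj_leaf (h : Rel41 p) {k : G} (hk : k ∈ Sym.K p 3 0) :
    ∀ j, j ≤ 4 → ∃ j', j' ≤ 4 ∧ k * leaf p j * k⁻¹ = leaf p j' := by
  induction hk using Subgroup.closure_induction_right with
  | one => intro j hj; exact ⟨j, hj, by group⟩
  | mul_right x _ y hy ih =>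
    obtain ⟨i, -, hi, rfl⟩ := hy
    intro j hj
    obtain ⟨j1, h1, e1⟩ := leaf_conj h hi hj
    obtain ⟨j2, h2, e2⟩ := ih j1 h1
    refine ⟨j2, h2, ?_⟩
    have hinv : (p i)⁻¹ = p i := inv_eq_of_mul_eq_one_left ((typeA h).sq i hi)
    rw [← e2, ← e1, mul_inv_rev, hinv]
    simp only [mul_assoc]
  | mul_inv_cancel x _ y hy ih =>
    obtain ⟨i, -, hi, rfl⟩ := hy
    intro j hj
    obtain ⟨j1, h1, e1⟩ := leaf_conj h hi hj
    obtain ⟨j2, h2, e2⟩ := ih j1 h1
    refine ⟨j2, h2, ?_⟩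
    have hinv : (p i)⁻¹ = p i := inv_eq_of_mul_eq_one_left ((typeA h).sq i hi)
    rw [← e2, ← e1, mul_inv_rev, hinv, hinv]
    simp only [mul_assoc]

theorem comm5 (h : Rel41 p) {k : G} (hk : k ∈ Sym.K p 3 0) : k * p 5 = p 5 * k := by
  have h1 : Sym.K p 3 0 ≤ Subgroup.centralizer {p 5} := by
    rw [Sym.K, Subgroup.closure_le]
    rintro x ⟨i, -, hi, rfl⟩
    rw [SetLike.mem_coe, Subgroup.mem_centralizer_singleton_iff]
    rcases Nat.eq_zero_or_pos i with rfl | h1
    · exact (h.comm0 5 (by norm_num) le_rfl)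
    · exact Dce.comm_of_cox2 h.toF4t h1 (by omega) (by norm_num) le_rfl (by omega) (by
        unfold cx; split_ifs <;> omega)
  exact Subgroup.mem_centralizer_singleton_iff.1 (h1 hk)

/-- **Finiteness for the vector `(4,0,0,0)`.** -/
theorem finite_of_rel41 (h : Rel41 p) (hgen : Subgroup.closure {g | ∃ i, i ≤ 5 ∧ g = p i} = ⊤) :
    Finite G := by
  have hH := HH_finite h
  have hHf : (HH p : Set G).Finite := hH
  have hKf : (Sym.K p 3 0 : Set G).Finite := Sym.K0_finite (typeA h)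
  have sq : ∀ i, i ≤ 5 → p i * p i = 1 := by
    intro i hi
    rcases Nat.eq_zero_or_pos i with rfl | h1
    · exact h.sq0
    · exact h.sq i h1 hi
  refine Dce.finite_of_closed (A := {g | ∃ i, i ≤ 5 ∧ g = p i})
    (T := {x | ∃ y k, y ∈ HH p ∧ k ∈ Sym.K p 3 0 ∧ x = y * k}) hgen ?_ ?_ ?_ ?_
  · rintro a ⟨i, hi, rfl⟩; exact sq i hi
  · have : {x | ∃ y k, y ∈ HH p ∧ k ∈ Sym.K p 3 0 ∧ x = y * k} ⊆
        (fun u : G × G => u.1 * u.2) '' ((HH p : Set G) ×ˢ (Sym.K p 3 0 : Set G)) := by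
      rintro x ⟨y, k, hy, hk, rfl⟩
      exact ⟨(y, k), ⟨hy, hk⟩, rfl⟩
    exact ((hHf.prod hKf).image _).subset this
  · exact ⟨1, 1, one_mem _, one_mem _, (mul_one 1).symm⟩
  · rintro _ ⟨y, k, hy, hk, rfl⟩ _ ⟨i, hi, rfl⟩
    rcases Nat.lt_or_ge i 4 with h1 | h1
    · exact ⟨y, k * p i, hy, mul_mem hk (Sym.mem_K (Nat.zero_le i) (by omega)), by rw [mul_assoc]⟩
    · rcases Nat.eq_or_lt_of_le h1 with h2 | h2
      · subst h2
        obtain ⟨j', hj', e⟩ := conj_leaf h hk 0 (by norm_num)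
        refine ⟨y * leaf p j', k, mul_mem hy (leaf_mem hj'), hk, ?_⟩
        rw [← e]
        change y * k * p 4 = y * (k * p 4 * k⁻¹) * k
        group
      · have : i = 5 := by omega
        subst this
        refine ⟨y * p 5, k, mul_mem hy p_mem.2.2.2, hk, ?_⟩
        rw [mul_assoc, comm5 h hk, mul_assoc]

end Pool.Agent.Lib.MP_c2d01e_co.Four
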