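import Pool.Agent.Lib.MP_c2d01e_co.Four.Calc

/-!
# The relations
-/

set_option autoImplicit false
set_option linter.all false

namespace Pool.Agent.Lib.MP_c2d01e_co.Four

open Pool.Agent.Lib.MP_c2d01e_co.Dce (getT TW F4t lp EE Z4 s1 w1 lin wdl WD)

variable {G : Type*} [Group G] {r : ℕ → G} {z : G}

/-- the relations of the enumeration -/
structure Rels (r : ℕ → G) (z : G) : Prop where
  f : F4t r
  k : Kill r
  zz : z * z = 1
  zr : ∀ i, 2 ≤ i → i ≤ 5 → z * r i = r i * z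
  a : (r 1 * z) ^ 4 = 1
  b : (r 1 * r 2 * r 3 * r 4 * r 3 * r 2 * r 1 * z) ^ 4 = 1
  c : (r 4 * r 3 * r 2 * r 1 * z) ^ 8 = 1

theorem zlp (R : Rels r z) (l : List ℕ) (hl : ∀ i ∈ l, 2 ≤ i ∧ i ≤ 5) :
    z * lp r l = lp r l * z := by
  induction l with
  | nil => rw [Dce.lp_nil, mul_one, one_mul]
  | cons a l ih =>
    obtain ⟨h2, h5⟩ := hl a (by simp)
    rw [Dce.lp_cons, ← mul_assoc, R.zr a h2 h5, mul_assoc, ih (fun i hi => hl i (by simp [hi])),
      mul_assoc]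

theorem zomc (R : Rels r z) {w : ℕ} (hw : w < 1152) : z * omc r w = omc r w * z :=
  zlp R _ (Dce.word_letters _ (BFf_lt hw))

theorem rel4 {p : G} (hz : z * z = 1) (h : (p * z) ^ 4 = 1) : p * z * p * z * p * z * p = z := by
  have e : (p * z) ^ 4 = p * z * p * z * p * z * p * z := by
    simp only [pow_succ, pow_zero, one_mul, mul_assoc]
  rw [e] at h
  have hz' : z⁻¹ = z := inv_eq_of_mul_eq_one_left hz
  have := eq_inv_of_mul_eq_one_left h
  rw [this, hz']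

theorem rel8 {p : G} (hz : z * z = 1) (h : (p * z) ^ 8 = 1) :
    p * z * p * z * p * z * p * z * p * z * p * z * p * z * p = z := by
  have e : (p * z) ^ 8 = p * z * p * z * p * z * p * z * p * z * p * z * p * z * p * z := by
    simp only [pow_succ, pow_zero, one_mul, mul_assoc]
  rw [e] at h
  have hz' : z⁻¹ = z := inv_eq_of_mul_eq_one_left hz
  have := eq_inv_of_mul_eq_one_left h
  rw [this, hz']

theorem okX_g {g : ℕ} (h2 : 2 ≤ g) (h5 : g ≤ 5) : okX (ga g) := by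
  have hg : g = 2 ∨ g = 3 ∨ g = 4 ∨ g = 5 := by omega
  apply okX_w
  rcases hg with rfl | rfl | rfl | rfl
  · change 48 < 1152; norm_num
  · change 6 < 1152; norm_num
  · change 1 < 1152; norm_num
  · change 2 < 1152; norm_num

theorem val_g (h : F4t r) {g : ℕ} (h2 : 2 ≤ g) (h5 : g ≤ 5) : val r (ga g) = r g := by
  have hlt : ga g < 1152 := by
    have hg : g = 2 ∨ g = 3 ∨ g = 4 ∨ g = 5 := by omega
    rcases hg with rfl | rfl | rfl | rfl
    · change 48 < 1152; norm_num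
    · change 6 < 1152; norm_num
    · change 1 < 1152; norm_num
    · change 2 < 1152; norm_num
  rw [val_w hlt, omc_ga h h2 h5]

theorem v48 (h : F4t r) : val r 48 = r 2 := val_g h (g := 2) (by norm_num) (by norm_num)
theorem v6 (h : F4t r) : val r 6 = r 3 := val_g h (g := 3) (by norm_num) (by norm_num)
theorem v1 (h : F4t r) : val r 1 = r 4 := val_g h (g := 4) (by norm_num) (by norm_num)
theorem v2 (h : F4t r) : val r 2 = r 5 := val_g h (g := 5) (by norm_num) (by norm_num)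
theorem o48 : okX 48 := okX_g (g := 2) (by norm_num) (by norm_num)
theorem o6 : okX 6 := okX_g (g := 3) (by norm_num) (by norm_num)
theorem o1 : okX 1 := okX_g (g := 4) (by norm_num) (by norm_num)
theorem o2 : okX 2 := okX_g (g := 5) (by norm_num) (by norm_num)
theorem o0 : okX 0 := okX_w (by norm_num)
theorem v0 : val r 0 = 1 := by rw [val_w (by norm_num), omc_zero]

theorem vA (R : Rels r z) : okX (xm 3152 0) ∧ val r (xm 3152 0) = r 1 := by
  obtain ⟨h1, h2⟩ := xm_spec R.f R.k okX_r1 o0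
  exact ⟨h1, by rw [h2, val_r1 R.f, v0, mul_one]⟩

theorem vB (R : Rels r z) : okX (xm 3152 (xm 48 (xm 6 (xm 1 (xm 6 (xm 48 3152)))))) ∧
    val r (xm 3152 (xm 48 (xm 6 (xm 1 (xm 6 (xm 48 3152)))))) =
      r 1 * r 2 * r 3 * r 4 * r 3 * r 2 * r 1 := by
  obtain ⟨a1, a2⟩ := xm_spec R.f R.k o48 okX_r1
  obtain ⟨b1, b2⟩ := xm_spec R.f R.k o6 a1
  obtain ⟨c1, c2⟩ := xm_spec R.f R.k o1 b1
  obtain ⟨d1, d2⟩ := xm_spec R.f R.k o6 c1
  obtain ⟨e1, e2⟩ := xm_spec R.f R.k o48 d1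
  obtain ⟨f1, f2⟩ := xm_spec R.f R.k okX_r1 e1
  refine ⟨f1, ?_⟩
  rw [f2, e2, d2, c2, b2, a2, val_r1 R.f, v48 R.f, v6 R.f, v1 R.f]
  simp only [mul_assoc]

theorem vC (R : Rels r z) : okX (xm 3152 (xm 48 (xm 6 1))) ∧
    val r (xm 3152 (xm 48 (xm 6 1))) = r 1 * r 2 * r 3 * r 4 := by
  obtain ⟨b1, b2⟩ := xm_spec R.f R.k o6 o1
  obtain ⟨c1, c2⟩ := xm_spec R.f R.k o48 b1
  obtain ⟨d1, d2⟩ := xm_spec R.f R.k okX_r1 c1
  refine ⟨d1, ?_⟩
  rw [d2, c2, b2, val_r1 R.f, v48 R.f, v6 R.f, v1 R.f]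
  simp only [mul_assoc]

theorem relc (R : Rels r z) : (r 1 * r 2 * r 3 * r 4 * z) ^ 8 = 1 := by
  have h := R.c
  have i : ∀ g, 1 ≤ g → g ≤ 5 → (r g)⁻¹ = r g := fun g h1 h5 =>
    inv_eq_of_mul_eq_one_left (R.f.sq g h1 h5)
  have iz : z⁻¹ = z := inv_eq_of_mul_eq_one_left R.zz
  have e1 : (r 4 * r 3 * r 2 * r 1 * z)⁻¹ = z * (r 1 * r 2 * r 3 * r 4) := by
    simp only [mul_inv_rev]
    rw [iz, i 1 (by norm_num) (by norm_num), i 2 (by norm_num) (by norm_num),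
      i 3 (by norm_num) (by norm_num), i 4 (by norm_num) (by norm_num)]
    simp only [mul_assoc]
  have e2 : (z * (r 1 * r 2 * r 3 * r 4)) ^ 8 = 1 := by
    rw [← e1, inv_pow, h, inv_one]
  have e3 : r 1 * r 2 * r 3 * r 4 * z = z⁻¹ * (z * (r 1 * r 2 * r 3 * r 4)) * z := by
    group
  have e4 : (z⁻¹ * (z * (r 1 * r 2 * r 3 * r 4)) * z) ^ 8 =
      z⁻¹ * (z * (r 1 * r 2 * r 3 * r 4)) ^ 8 * z := by
    have := conj_pow (i := 8) (a := z⁻¹) (b := z * (r 1 * r 2 * r 3 * r 4))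
    rwa [inv_inv] at this
  rw [e3, e4, e2]
  group

theorem PT_of (R : Rels r z) {tb : ℕ → ℕ} {X : ℕ} {p : G} (hX : okX X) (hv : val r X = p)
    (ht : allN (fun w => Nat.beq (tb w) (xm w X)) 1152 = true) :
    ∀ w, w < 1152 → (okT (tb w / 2048) ∧ tb w % 2048 < 1152) ∧
      omc r w * p = Ec r (tb w / 2048) * omc r (tb w % 2048) := by
  intro w hw
  have h1 : tb w = xm w X := Nat.eq_of_beq_eq_true (allN_spec ht w hw)
  obtain ⟨h2, h3⟩ := xm_spec R.f R.k (okX_w hw) hX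
  rw [h1]
  refine ⟨h2, ?_⟩
  rw [← hv, ← val_w hw, ← h3]
  rfl

/-- the semantic structure given by the relations -/
noncomputable def mkSem (R : Rels r z) : Sem G where
  z := z
  om := omc r
  E := Ec r
  pA := r 1
  pB := r 1 * r 2 * r 3 * r 4 * r 3 * r 2 * r 1
  pC := r 1 * r 2 * r 3 * r 4
  zz := R.zz
  zom := fun w hw => zomc R hw
  om0 := omc_zero
  E0 := Ec_zero
  mul_lt := fun a b ha hb => (mul_spec' R.f ha hb).1
  mul_spec := fun a b ha hb => (mul_spec' R.f ha hb).2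
  add_spec := fun x y hx hy => Ec_add R.f R.k hx hy
  act_spec := fun w t hw ht => act_spec' R.f R.k hw ht
  iv_lt := fun w hw => (iv_spec' R.f hw).1
  iv_spec := fun w hw => (iv_spec' R.f hw).2
  PA_ok := fun w hw => (PT_of R (vA R).1 (vA R).2 K7A w hw).1
  PB_ok := fun w hw => (PT_of R (vB R).1 (vB R).2 K7B w hw).1
  PC_ok := fun w hw => (PT_of R (vC R).1 (vC R).2 K7C w hw).1
  PA_spec := fun w hw => (PT_of R (vA R).1 (vA R).2 K7A w hw).2
  PB_spec := fun w hw => (PT_of R (vB R).1 (vB R).2 K7B w hw).2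
  PC_spec := fun w hw => (PT_of R (vC R).1 (vC R).2 K7C w hw).2
  relA := rel4 R.zz R.a
  relB := rel4 R.zz R.b
  relC := rel8 R.zz (relc R)

end Pool.Agent.Lib.MP_c2d01e_co.Four
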