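import Pool.Agent.Lib.MP_c2d01e_co.Dce.Dietzmann

/-!
# Elements with the relations of a symmetric group generate a finite group
-/

set_option autoImplicit false

namespace Pool.Agent.Lib.MP_c2d01e_co.Four.Sym

variable {G : Type*} [Group G]

/-- the product `a j * a (j+1) * ⋯ * a (j+i-1)` -/
def c (a : ℕ → G) (j : ℕ) : ℕ → G
  | 0 => 1
  | i + 1 => c a j i * a (j + i)

/-- Coxeter relations of type `A` on the letters `0, …, m` -/
structure TypeA (a : ℕ → G) (m : ℕ) : Prop where
  sq : ∀ i, i ≤ m → a i * a i = 1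
  braid : ∀ i, i + 1 ≤ m → a i * a (i + 1) * a i = a (i + 1) * a i * a (i + 1)
  comm : ∀ i j, i + 2 ≤ j → j ≤ m → a i * a j = a j * a i

variable {a : ℕ → G} {m : ℕ}

theorem c_far (h : TypeA a m) (j i k : ℕ) (hk : j + i + 1 ≤ k) (hm : k ≤ m) :
    c a j i * a k = a k * c a j i := by
  induction i with
  | zero => simp [c]
  | succ i ih =>
    rw [c, mul_assoc, h.comm (j + i) k (by omega) hm, ← mul_assoc, ih (by omega), mul_assoc]

theorem c_near (h : TypeA a m) (j i k : ℕ) (hk : j ≤ k) (hk2 : k + 2 ≤ j + i) (hm : j + i ≤ m + 1) :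
    c a j i * a k = a (k + 1) * c a j i := by
  induction i with
  | zero => omega
  | succ i ih =>
    rcases Nat.lt_or_ge (k + 2) (j + (i + 1)) with h1 | h1
    · rw [c, mul_assoc, ← h.comm k (j + i) (by omega) (by omega), ← mul_assoc,
        ih (by omega) (by omega), mul_assoc]
    · have hki : k + 1 = j + i := by omega
      obtain ⟨i', rfl⟩ : ∃ i', i = i' + 1 := ⟨i - 1, by omega⟩
      have hk' : k = j + i' := by omega
      subst hk'
      have hb := h.braid (j + i') (by omega)
      have hf := c_far h j i' (j + i' + 1) (by omega) (by omega)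
      have e : j + (i' + 1) = j + i' + 1 := by omega
      rw [c, c, e]
      calc c a j i' * a (j + i') * a (j + i' + 1) * a (j + i')
          = c a j i' * (a (j + i') * a (j + i' + 1) * a (j + i')) := by simp only [mul_assoc]
        _ = c a j i' * a (j + i' + 1) * (a (j + i') * a (j + i' + 1)) := by
          rw [hb]; simp only [mul_assoc]
        _ = _ := by rw [hf]; simp only [mul_assoc]

/-- the subgroup generated by `a j, …, a m` -/
def K (a : ℕ → G) (m j : ℕ) : Subgroup G := Subgroup.closure {x | ∃ i, j ≤ i ∧ i ≤ m ∧ x = a i}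

theorem mem_K {j i : ℕ} (h1 : j ≤ i) (h2 : i ≤ m) : a i ∈ K a m j :=
  Subgroup.subset_closure ⟨i, h1, h2, rfl⟩

theorem K_finite_step (h : TypeA a m) (j : ℕ) (hf : (K a m (j + 1) : Set G).Finite) (hj : j ≤ m) :
    (K a m j : Set G).Finite := by
  set T : Set G := {x | ∃ y i, y ∈ K a m (j + 1) ∧ i ≤ m + 1 - j ∧ x = y * c a j i} with hT
  have hTf : T.Finite := by
    have : T ⊆ (fun p : G × ℕ => p.1 * c a j p.2) ''
        ((K a m (j + 1) : Set G) ×ˢ (Set.Iic (m + 1 - j))) := by
      rintro x ⟨y, i, hy, hi, rfl⟩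
      exact ⟨(y, i), ⟨hy, hi⟩, rfl⟩
    exact ((hf.prod (Set.finite_Iic _)).image _).subset this
  have h1 : (1 : G) ∈ T := ⟨1, 0, one_mem _, by omega, by simp [c]⟩
  have hcl : ∀ t ∈ T, ∀ k, j ≤ k → k ≤ m → t * a k ∈ T := by
    rintro _ ⟨y, i, hy, hi, rfl⟩ k hk hkm
    rcases Nat.lt_trichotomy k (j + i) with h2 | h2 | h2
    · rcases Nat.lt_or_ge (k + 1) (j + i) with h3 | h3
      · refine ⟨y * a (k + 1), i, mul_mem hy (mem_K (by omega) (by omega)), hi, ?_⟩
        rw [mul_assoc, c_near h j i k hk (by omega) (by omega), mul_assoc]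
      · obtain ⟨i', rfl⟩ : ∃ i', i = i' + 1 := ⟨i - 1, by omega⟩
        have hk' : k = j + i' := by omega
        subst hk'
        refine ⟨y, i', hy, by omega, ?_⟩
        rw [c, mul_assoc, mul_assoc, h.sq _ hkm, mul_one]
    · subst h2
      exact ⟨y, i + 1, hy, by omega, by rw [c, mul_assoc]⟩
    · refine ⟨y * a k, i, mul_mem hy (mem_K (by omega) hkm), hi, ?_⟩
      rw [mul_assoc, c_far h j i k (by omega) hkm, mul_assoc]
  refine hTf.subset ?_
  intro x hx
  induction hx using Subgroup.closure_induction_right with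
  | one => exact h1
  | mul_right x _ y hy ih =>
    obtain ⟨k, hk1, hk2, rfl⟩ := hy
    exact hcl _ ih k hk1 hk2
  | mul_inv_cancel x _ y hy ih =>
    obtain ⟨k, hk1, hk2, rfl⟩ := hy
    rw [inv_eq_of_mul_eq_one_left (h.sq k hk2)]
    exact hcl _ ih k hk1 hk2

theorem K_finite (h : TypeA a m) : ∀ n j : ℕ, n + j = m + 1 → (K a m j : Set G).Finite := by
  intro n
  induction n with
  | zero =>
    intro j hj
    have : K a m j = ⊥ := by
      rw [K, Subgroup.closure_eq_bot_iff]
      rintro x ⟨i, h1, h2, rfl⟩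
      omega
    rw [this]
    exact Set.finite_singleton _
  | succ n ih =>
    intro j hj
    exact K_finite_step h j (ih (j + 1) (by omega)) (by omega)

theorem K0_finite (h : TypeA a m) : (K a m 0 : Set G).Finite := K_finite h (m + 1) 0 rfl

end Pool.Agent.Lib.MP_c2d01e_co.Four.Sym
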