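import Pool.Agent.Lib.MP_c2d01e_co.Dce.PCalc

/-!
# Words in the affine group of type `{3,3,4,3}`

Copied from `Dce/Inst.lean` (helper7), without the certificate data.
-/

set_option autoImplicit false
set_option maxRecDepth 100000

namespace Pool.Agent.Lib.MP_c2d01e_co.Four.W

open Pool.Agent.Lib.MP_c2d01e_co.Dce

variable {G : Type*} [Group G] {r : ℕ → G}

/-- one step on the translation part -/
def stp (g : ℕ) (v : Z4) : Z4 := if g = 1 then lin 1 v + (2, -1, -1, -1) else lin g v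

theorem col1 : ∀ k < 1152, fl TW w1 k = getT TW k 1 := by
  have h : (List.range 1152).all (fun k => Nat.beq (fl TW w1 k) (getT TW k 1)) = true := by
    decide +kernel
  intro k hk
  have := List.all_eq_true.1 h k (List.mem_range.2 hk)
  rwa [Nat.beq_eq] at this

theorem EE_fold (h : F4t r) (l : List ℕ) (hl : ∀ i ∈ l, 2 ≤ i ∧ i ≤ 5) (v : Z4) :
    EE r v * lp r l = lp r l * EE r (l.foldl (fun v g => lin g v) v) := by
  induction l generalizing v with
  | nil => simp [Pool.Agent.Lib.MP_c2d01e_co.Dce.lp]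
  | cons a l ih =>
    have ha := hl a (by simp)
    rw [lp_cons, ← mul_assoc, EE_lin h ha.1 ha.2, mul_assoc, ih (fun i hi => hl i (by simp [hi])),
      mul_assoc]
    rfl

theorem lin_sig (v0 v1 v2 v3 : ℤ) : lin 2 (lin 3 (lin 4 (lin 3 (lin 2 (v0, v1, v2, v3))))) =
    (v0 + 2 * v1, -v1, -v1 + v2, -v1 + v3) := by
  simp only [lin, Prod.mk.injEq]
  refine ⟨by ring, by ring, by ring, by ring⟩

theorem lin_tau (v0 v1 v2 v3 : ℤ) : lin 5 (lin 4 (lin 3 (lin 4 (lin 5 (v0, v1, v2, v3))))) =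
    (v0, -v0 - v1, v2, v3) := by
  simp only [lin]

theorem lin_w1 (v : Z4) : w1.foldl (fun v g => lin g v) v = lin 1 v := by
  obtain ⟨v0, v1, v2, v3⟩ := v
  rw [w1]
  simp only [List.foldl_cons, List.foldl_nil]
  rw [lin_sig, lin_tau, lin_sig]
  simp only [lin, Prod.mk.injEq]
  refine ⟨by ring, by ring, by ring, by ring⟩

theorem EE_s1 (h : F4t r) (v : Z4) : EE r v * s1 r = s1 r * EE r (lin 1 v) := by
  rw [← lin_w1]
  exact EE_fold h _ w1_ok v

theorem EE_r1 (h : F4t r) (v : Z4) : EE r v * r 1 = s1 r * EE r (lin 1 v + (2, -1, -1, -1)) := by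
  conv_lhs => rw [r1_eq h]
  rw [← mul_assoc, EE_s1 h, mul_assoc, ← EE_add h]

theorem om_s1' (h : F4t r) {k : ℕ} (hk : k < 1152) :
    getT TW k 1 < 1152 ∧ om r k * s1 r = om r (getT TW k 1) := by
  rw [← col1 k hk]
  exact om_s1 h hk

theorem prod_nf (h : F4t r) (l : List ℕ) (hl : ∀ i ∈ l, 1 ≤ i ∧ i ≤ 5) : ∀ k < 1152, ∀ v,
    om r k * EE r v * lp r l = om r (fl TW l k) * EE r (l.foldl (fun v g => stp g v) v) := by
  induction l with
  | nil => intro k _ v; simp [Pool.Agent.Lib.MP_c2d01e_co.Dce.lp, fl]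
  | cons a l ih =>
    intro k hk v
    have ha := hl a (by simp)
    have ih' := ih (fun i hi => hl i (by simp [hi]))
    rw [lp_cons, ← mul_assoc]
    rcases Nat.eq_or_lt_of_le ha.1 with h1 | h1
    · subst h1
      obtain ⟨h2, h3⟩ := om_s1' h hk
      rw [mul_assoc (om r k), EE_r1 h, ← mul_assoc (om r k), h3, ih' _ h2]
      rfl
    · obtain ⟨h2, h3⟩ := om_edge h k hk a h1 ha.2
      rw [mul_assoc (om r k), EE_lin h h1 ha.2, ← mul_assoc (om r k), h3, ih' _ h2]
      have : stp a v = lin a v := by rw [stp, if_neg (by omega)]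
      simp only [fl, List.foldl_cons, this]

theorem EE_orbit (h : F4t r) {v : Z4} (hv : EE r v = 1) {w : ℕ} (hw : w < 1152) {v' : Z4}
    (hc : (wdl WD w).foldl (fun v g => lin g v) v = v') : EE r v' = 1 := by
  have h1 := EE_fold h (wdl WD w) (word_letters w hw) v
  rw [hv, hc, one_mul] at h1
  exact mul_eq_left.1 h1.symm


end Pool.Agent.Lib.MP_c2d01e_co.Four.W
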