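import Pool.Agent.Lib.MP_c2d01e_co.Four.Fin
import Pool.Agent.Lib.MP_c2d01e_co.Four.Word
import Pool.Agent.Lib.MP_c2d01e_co.Four.SymFin

/-!
# The group with parameter vector `(4,0,0,0)` is finite
-/

set_option autoImplicit false
set_option maxRecDepth 100000

namespace Pool.Agent.Lib.MP_c2d01e_co.Four

open Pool.Agent.Lib.MP_c2d01e_co.Dce (getT TW F4t EE Z4 s1 w1 lin wdl WD om fl cx)

variable {G : Type*} [Group G] {p : ℕ → G}

/-- the extra relator `(ρ1 σ τ σ)^4` -/
def ext41 : List ℕ := (List.replicate 4 [1, 2, 3, 4, 3, 2, 5, 4, 3, 4, 5, 2, 3, 4, 3, 2]).flatten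

/-- the relations of the group for `(4,0,0,0)`, letters `0, …, 5` -/
structure Rel41 (p : ℕ → G) : Prop extends F4t p where
  sq0 : p 0 * p 0 = 1
  comm0 : ∀ i, 2 ≤ i → i ≤ 5 → p 0 * p i = p i * p 0
  braid0 : (p 0 * p 1) ^ 3 = 1
  ext : Dce.lp p ext41 = 1

theorem EE_four (h : Rel41 p) (v : Z4) (h0 : v.1 % 4 = 0) (h1 : v.2.1 % 4 = 0)
    (h2 : v.2.2.1 % 4 = 0) (h3 : v.2.2.2 % 4 = 0) : EE p v = 1 := by
  have a0 : EE p (-8, 4, 4, 4) = 1 := by
    have h1 := W.prod_nf h.toF4t ext41 (by decide) 0 (by norm_num) 0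
    have h2 : fl TW ext41 0 = 0 := by decide +kernel
    have h3 : ext41.foldl (fun v g => W.stp g v) (0 : Z4) = (-8, 4, 4, 4) := by decide +kernel
    rw [h.ext, h2, h3, Dce.om_zero', Dce.EE_zero, one_mul, one_mul, one_mul] at h1
    exact h1.symm
  have a1 : EE p (8, -4, -4, -4) = 1 := by
    have := Dce.EE_neg h.toF4t (-8, 4, 4, 4)
    rw [a0, inv_one] at this
    exact this
  have b0 : EE p (4, 0, 0, 0) = 1 := W.EE_orbit h.toF4t a1 (w := 1) (by norm_num) (by decide +kernel)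
  have b1 : EE p (0, 4, 0, 0) = 1 := W.EE_orbit h.toF4t a1 (w := 58) (by norm_num) (by decide +kernel)
  have b2 : EE p (0, 0, 4, 0) = 1 := W.EE_orbit h.toF4t a1 (w := 97) (by norm_num) (by decide +kernel)
  have b3 : EE p (0, 0, 0, 4) = 1 := W.EE_orbit h.toF4t a1 (w := 148) (by norm_num) (by decide +kernel)
  obtain ⟨v0, v1, v2, v3⟩ := v
  simp only at h0 h1 h2 h3
  have e : ((v0, v1, v2, v3) : Z4) = (v0 / 4) • ((4, 0, 0, 0) : Z4) + (v1 / 4) • ((0, 4, 0, 0) : Z4) +
      (v2 / 4) • ((0, 0, 4, 0) : Z4) + (v3 / 4) • ((0, 0, 0, 4) : Z4) := by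
    simp only [Prod.smul_mk, Prod.mk_add_mk, smul_eq_mul, Prod.mk.injEq]
    refine ⟨by omega, by omega, by omega, by omega⟩
  rw [e, Dce.EE_add h.toF4t, Dce.EE_add h.toF4t, Dce.EE_add h.toF4t, Dce.EE_zsmul h.toF4t,
    Dce.EE_zsmul h.toF4t, Dce.EE_zsmul h.toF4t, Dce.EE_zsmul h.toF4t, b0, b1, b2, b3]
  simp

/-- all coordinates are divisible by 4 -/
def z4 (v : Z4) : Bool :=
  decide (v.1 % 4 = 0) && (decide (v.2.1 % 4 = 0) && (decide (v.2.2.1 % 4 = 0) &&
    decide (v.2.2.2 % 4 = 0)))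

/-- check of a word in the letters `1, …, 5` -/
noncomputable def chkl (l : List ℕ) : Bool :=
  l.all (fun i => Nat.ble 1 i && Nat.ble i 5) && (Nat.beq (fl TW l 0) 0 &&
    z4 (l.foldl (fun v g => W.stp g v) (0 : Z4)))

theorem word_one (h : Rel41 p) {l : List ℕ} (hc : chkl l = true) : Dce.lp p l = 1 := by
  simp only [chkl, z4, Bool.and_eq_true, List.all_eq_true, Nat.ble_eq, Nat.beq_eq,
    decide_eq_true_eq] at hc
  obtain ⟨c1, c2, c3, c4, c5, c6⟩ := hc
  have h1 := W.prod_nf h.toF4t l c1 0 (by norm_num) 0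
  rw [c2, Dce.om_zero', Dce.EE_zero, one_mul, one_mul, one_mul, EE_four h _ c3 c4 c5 c6] at h1
  exact h1

/-- the generators of the subgroup as words -/
def sub (i : ℕ) : List ℕ :=
  if i = 1 then [1, 2, 3, 4, 3, 2, 1] else if i = 2 then [5] else if i = 3 then [4]
    else if i = 4 then [3] else [2]

/-- the generators of the subgroup -/
def q (p : ℕ → G) (i : ℕ) : G := Dce.lp p (sub i)

theorem lp_q (l : List ℕ) : Dce.lp (q p) l = Dce.lp p (l.flatMap sub) := by
  induction l with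
  | nil => rfl
  | cons a l ih => rw [Dce.lp_cons, ih, List.flatMap_cons, Dce.lp_append]; rfl

theorem lp_pow (l : List ℕ) (n : ℕ) : Dce.lp p l ^ n = Dce.lp p (List.replicate n l).flatten := by
  induction n with
  | zero => rw [pow_zero]; rfl
  | succ n ih => rw [pow_succ', ih, List.replicate_succ, List.flatten_cons, Dce.lp_append]

theorem chk_sq : ([1, 2, 3, 4, 5] : List ℕ).all (fun i => chkl (sub i ++ sub i)) = true := by
  decide +kernel

theorem chk_cox : ([1, 2, 3, 4, 5] : List ℕ).all (fun i => ([1, 2, 3, 4, 5] : List ℕ).all fun j =>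
    decide (i = j) || chkl (List.replicate (cx i j) (sub i ++ sub j)).flatten) = true := by
  decide +kernel

theorem F4q (h : Rel41 p) : F4t (q p) where
  sq i h1 h5 := by
    have hi : i ∈ ([1, 2, 3, 4, 5] : List ℕ) := by
      simp only [List.mem_cons, List.not_mem_nil, or_false]; omega
    have := List.all_eq_true.1 chk_sq i hi
    rw [q, ← Dce.lp_append]
    exact word_one h this
  cox i j h1 h5 g1 g5 hij := by
    have hi : i ∈ ([1, 2, 3, 4, 5] : List ℕ) := by
      simp only [List.mem_cons, List.not_mem_nil, or_false]; omega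
    have hj : j ∈ ([1, 2, 3, 4, 5] : List ℕ) := by
      simp only [List.mem_cons, List.not_mem_nil, or_false]; omega
    have := List.all_eq_true.1 (List.all_eq_true.1 chk_cox i hi) j hj
    rw [Bool.or_eq_true, decide_eq_true_eq] at this
    rw [q, q, ← Dce.lp_append, lp_pow]
    exact word_one h (this.resolve_left hij)

/-- the extra relator of the subgroup -/
def ext22 : List ℕ := (List.replicate 4 [1, 2, 3, 4, 3, 2, 5, 4, 3, 4, 5]).flatten

theorem chk_ext22 : chkl (ext22.flatMap sub) = true := by decide +kernel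

theorem kill_of_ext22 {r : ℕ → G} (F : F4t r) (h4 : Dce.lp r ext22 = 1) : Kill r := by
  have a0 : EE r (-4, 0, 2, 2) = 1 := by
    have h1 := W.prod_nf F ext22 (by decide) 0 (by norm_num) 0
    have h2 : fl TW ext22 0 = 0 := by decide +kernel
    have h3 : ext22.foldl (fun v g => W.stp g v) (0 : Z4) = (-4, 0, 2, 2) := by decide +kernel
    rw [h4, h2, h3, Dce.om_zero', Dce.EE_zero, one_mul, one_mul, one_mul] at h1
    exact h1.symm
  have g3 : EE r (0, 0, 2, 2) = 1 :=
    W.EE_orbit F a0 (w := 349) (by norm_num) (by decide +kernel)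
  have g2 : EE r (0, 2, 2, 0) = 1 :=
    W.EE_orbit F a0 (w := 528) (by norm_num) (by decide +kernel)
  have g1 : EE r (4, 0, 0, 0) = 1 := by
    have b := W.EE_orbit F a0 (w := 881) (v' := (4, 0, -2, -2)) (by norm_num) (by decide +kernel)
    have := Dce.EE_add F (0, 0, 2, 2) (4, 0, -2, -2)
    rw [g3, b, one_mul] at this
    exact this
  have g4 : EE r (0, 0, 0, 4) = 1 := by
    have a := W.EE_orbit F a0 (w := 29) (v' := (-4, 2, 2, 4)) (by norm_num) (by decide +kernel)
    have b := W.EE_orbit F a0 (w := 714) (v' := (4, -2, -2, 0)) (by norm_num) (by decide +kernel)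
    have := Dce.EE_add F (-4, 2, 2, 4) (4, -2, -2, 0)
    rw [a, b, one_mul] at this
    exact this
  have key : ∀ a b c d : ℤ, EE r (a • (4, 0, 0, 0) + (b • (0, 2, 2, 0) + (c • (0, 0, 2, 2) +
      d • (0, 0, 0, 4)))) = 1 := by
    intro a b c d
    rw [Dce.EE_add F, Dce.EE_add F, Dce.EE_add F, Dce.EE_zsmul F, Dce.EE_zsmul F, Dce.EE_zsmul F,
      Dce.EE_zsmul F, g1, g2, g3, g4]
    simp
  refine ⟨?_, ?_, ?_, ?_⟩
  · have := key (-2) 2 0 1
    simpa using this
  · have := key (-1) 0 0 0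
    simpa using this
  · have := key (-1) 0 1 0
    simpa using this
  · have := key (-1) 1 (-1) 1
    simpa using this

theorem killq (h : Rel41 p) : Kill (q p) :=
  kill_of_ext22 (F4q h) (by rw [lp_q]; exact word_one h chk_ext22)

theorem braid_of (a b : G) (ha : a * a = 1) (hb : b * b = 1) (h : (a * b) ^ 3 = 1) :
    a * b * a = b * a * b := by
  have ha' : a⁻¹ = a := inv_eq_of_mul_eq_one_left ha
  have hb' : b⁻¹ = b := inv_eq_of_mul_eq_one_left hb
  have h3 : a * b * (a * b) * (a * b) = 1 := by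
    rw [pow_succ, pow_succ, pow_one] at h
    exact h
  calc a * b * a = (a * b * (a * b) * (a * b)) * (b⁻¹ * a⁻¹ * b⁻¹) := by group
    _ = b * a * b := by rw [h3, one_mul, ha', hb']

/-- conjugated words -/
def sub3 (i : ℕ) : List ℕ := if i = 1 then [2, 3, 4, 3, 2] else sub i

theorem comm13 (h : Rel41 p) {i : ℕ} (h3 : 3 ≤ i) (h5 : i ≤ 5) : p 1 * p i = p i * p 1 :=
  Dce.comm_of_cox2 h.toF4t (by norm_num) (by norm_num) (by omega) h5 (by omega) (by
    unfold cx; split_ifs <;> omega)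

theorem conj_y (h : Rel41 p) (l : List ℕ) (hl : ∀ i ∈ l, 1 ≤ i ∧ i ≤ 4) :
    (p 1 * p 0)⁻¹ * Dce.lp (q p) l * (p 1 * p 0) = Dce.lp p (l.flatMap sub3) := by
  have s0 : (p 0)⁻¹ = p 0 := inv_eq_of_mul_eq_one_left h.sq0
  have s1 : (p 1)⁻¹ = p 1 := inv_eq_of_mul_eq_one_left (h.sq 1 le_rfl (by norm_num))
  induction l with
  | nil => rw [Dce.lp_nil, List.flatMap_nil, Dce.lp_nil]; group
  | cons a l ih =>
    have ih := ih (fun i hi => hl i (by simp [hi]))
    obtain ⟨ha1, ha4⟩ := hl a (by simp)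
    have key : (p 1 * p 0)⁻¹ * q p a * (p 1 * p 0) = Dce.lp p (sub3 a) := by
      have comm : ∀ x : G, p 0 * x = x * p 0 → p 1 * x = x * p 1 →
          (p 1 * p 0)⁻¹ * x * (p 1 * p 0) = x := by
        intro x h0 h1
        rw [mul_assoc, ← mul_assoc x, ← h1, mul_assoc (p 1), ← h0, ← mul_assoc (p 1), inv_mul_cancel_left]
      have single : ∀ i, Dce.lp p [i] = p i := fun i => by
        rw [Dce.lp_cons, Dce.lp_nil, mul_one]
      have ha : a = 1 ∨ a = 2 ∨ a = 3 ∨ a = 4 := by omega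
      rcases ha with rfl | rfl | rfl | rfl
      · -- the leaf
        have e3 : Dce.lp p [2, 3, 4, 3, 2] = p 2 * p 3 * p 4 * p 3 * p 2 := by
          simp only [Dce.lp_cons, Dce.lp_nil, mul_one, mul_assoc]
        have e2 : q p 1 = p 1 * (p 2 * p 3 * p 4 * p 3 * p 2) * p 1 := by
          change Dce.lp p [1, 2, 3, 4, 3, 2, 1] = _
          simp only [Dce.lp_cons, Dce.lp_nil, mul_one, mul_assoc]
        have c2 := h.comm0 2 (by norm_num) (by norm_num)
        have c3 := h.comm0 3 (by norm_num) (by norm_num)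
        have c4 := h.comm0 4 (by norm_num) (by norm_num)
        have cm : p 0 * (p 2 * p 3 * p 4 * p 3 * p 2) = (p 2 * p 3 * p 4 * p 3 * p 2) * p 0 := by
          have hc2 : Commute (p 0) (p 2) := c2
          have hc3 : Commute (p 0) (p 3) := c3
          have hc4 : Commute (p 0) (p 4) := c4
          exact ((((hc2.mul_right hc3).mul_right hc4).mul_right hc3).mul_right hc2)
        change (p 1 * p 0)⁻¹ * q p 1 * (p 1 * p 0) = Dce.lp p [2, 3, 4, 3, 2]
        rw [e3, e2, mul_inv_rev, s0, s1]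
        generalize p 2 * p 3 * p 4 * p 3 * p 2 = x at *
        calc p 0 * p 1 * (p 1 * x * p 1) * (p 1 * p 0)
            = p 0 * (p 1 * p 1) * x * (p 1 * p 1) * p 0 := by simp only [mul_assoc]
          _ = p 0 * x * p 0 := by
            rw [h.sq 1 le_rfl (by norm_num)]; simp only [mul_one]
          _ = x * (p 0 * p 0) := by rw [cm, mul_assoc]
          _ = x := by rw [h.sq0, mul_one]
      · change (p 1 * p 0)⁻¹ * Dce.lp p [5] * (p 1 * p 0) = Dce.lp p [5]
        rw [single]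
        exact comm _ (h.comm0 5 (by norm_num) le_rfl) (comm13 h (by norm_num) le_rfl)
      · change (p 1 * p 0)⁻¹ * Dce.lp p [4] * (p 1 * p 0) = Dce.lp p [4]
        rw [single]
        exact comm _ (h.comm0 4 (by norm_num) (by norm_num)) (comm13 h (by norm_num) (by norm_num))
      · change (p 1 * p 0)⁻¹ * Dce.lp p [3] * (p 1 * p 0) = Dce.lp p [3]
        rw [single]
        exact comm _ (h.comm0 3 (by norm_num) (by norm_num)) (comm13 h (by norm_num) (by norm_num))
    rw [Dce.lp_cons, List.flatMap_cons, Dce.lp_append, ← key, ← ih]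
    group

theorem conj_z (h : Rel41 p) : (p 1 * p 0)⁻¹ * p 0 * (p 1 * p 0) = p 1 := by
  have s0 : (p 0)⁻¹ = p 0 := inv_eq_of_mul_eq_one_left h.sq0
  have s1 : (p 1)⁻¹ = p 1 := inv_eq_of_mul_eq_one_left (h.sq 1 le_rfl (by norm_num))
  have b := braid_of (p 0) (p 1) h.sq0 (h.sq 1 le_rfl (by norm_num)) h.braid0
  rw [mul_inv_rev, s0, s1]
  calc p 0 * p 1 * p 0 * (p 1 * p 0) = (p 0 * p 1 * p 0) * p 1 * p 0 := by simp only [mul_assoc]
    _ = p 1 * p 0 * (p 1 * p 1) * p 0 := by rw [b]; simp only [mul_assoc]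
    _ = p 1 := by rw [h.sq 1 le_rfl (by norm_num), mul_one, mul_assoc, h.sq0, mul_one]

theorem pow_of_conj (h : Rel41 p) (l : List ℕ) (hl : ∀ i ∈ l, 1 ≤ i ∧ i ≤ 4) (n : ℕ)
    (hc : chkl (List.replicate n (l.flatMap sub3 ++ [1])).flatten = true) :
    (Dce.lp (q p) l * p 0) ^ n = 1 := by
  have e1 : (p 1 * p 0)⁻¹ * (Dce.lp (q p) l * p 0) * (p 1 * p 0) = Dce.lp p (l.flatMap sub3 ++ [1]) := by
    have c1 := conj_y h l hl
    have c2 := conj_z h
    rw [Dce.lp_append, Dce.lp_cons, Dce.lp_nil, mul_one]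
    calc (p 1 * p 0)⁻¹ * (Dce.lp (q p) l * p 0) * (p 1 * p 0)
        = ((p 1 * p 0)⁻¹ * Dce.lp (q p) l * (p 1 * p 0)) * ((p 1 * p 0)⁻¹ * p 0 * (p 1 * p 0)) := by
          group
      _ = _ := by rw [c1, c2]
  have e2 : Dce.lp (q p) l * p 0 = (p 1 * p 0) * Dce.lp p (l.flatMap sub3 ++ [1]) * (p 1 * p 0)⁻¹ := by
    rw [← e1]; group
  rw [e2, conj_pow, lp_pow, word_one h hc]
  group

theorem relsq (h : Rel41 p) : Rels (q p) (p 0) where
  f := F4q h
  k := killq h
  zz := h.sq0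
  zr i h2 h5 := by
    have single : ∀ i, Dce.lp p [i] = p i := fun i => by
      rw [Dce.lp_cons, Dce.lp_nil, mul_one]
    have hi : i = 2 ∨ i = 3 ∨ i = 4 ∨ i = 5 := by omega
    rcases hi with rfl | rfl | rfl | rfl
    · change p 0 * Dce.lp p [5] = Dce.lp p [5] * p 0
      rw [single]; exact h.comm0 5 (by norm_num) le_rfl
    · change p 0 * Dce.lp p [4] = Dce.lp p [4] * p 0
      rw [single]; exact h.comm0 4 (by norm_num) (by norm_num)
    · change p 0 * Dce.lp p [3] = Dce.lp p [3] * p 0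
      rw [single]; exact h.comm0 3 (by norm_num) (by norm_num)
    · change p 0 * Dce.lp p [2] = Dce.lp p [2] * p 0
      rw [single]; exact h.comm0 2 (by norm_num) (by norm_num)
  a := by
    have := pow_of_conj h [1] (by decide) 4 (by decide +kernel)
    simpa only [Dce.lp_cons, Dce.lp_nil, mul_one] using this
  b := by
    have := pow_of_conj h [1, 2, 3, 4, 3, 2, 1] (by decide) 4 (by decide +kernel)
    simpa only [Dce.lp_cons, Dce.lp_nil, mul_one, mul_assoc] using this
  c := by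
    have := pow_of_conj h [4, 3, 2, 1] (by decide) 8 (by decide +kernel)
    simpa only [Dce.lp_cons, Dce.lp_nil, mul_one, mul_assoc] using this

end Pool.Agent.Lib.MP_c2d01e_co.Four
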